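import Pool.Agent.Q74.BH.Res
import Pool.Agent.Q195.BH.Mass
import Pool.Agent.Q195.BH.Binom
import Pool.Agent.Q208.BH.ClsFew

/-! # Project BH: the law at unit scale, final form -/

set_option autoImplicit false

namespace Pool.Agent.Q74.BH

open Finset
open Pool.Agent.Q74.AR (oc sum_oc bE bE_choose T_same odds_same)
open Pool.Agent.Q158.Pair (T)
open Pool.Agent.Q158.Col4 (cI ones_wd)
open Pool.Agent.TH930.EBQ (ones wd words cw iter_eq image_wd wd_inj wd_mem wd_length)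

theorem ones_oc (m : ℕ) (x : ℤ) : ones (wd 1 m x) = oc m x := by rw [ones_wd, odds_same]

theorem sum_words_wd (m : ℕ) (f : List Bool → ℝ) :
    ∑ v ∈ words m, f v = ∑ i ∈ range (2 ^ m), f (wd 1 m (i : ℤ)) := by
  rw [← image_wd odd_one m, sum_image]
  intro x hx y hy hxy
  have h1 := wd_inj odd_one hxy
  simp only [coe_range, Set.mem_Iio] at hx hy
  have h2 : ((2 : ℤ) ^ m) ∣ (x : ℤ) - y := h1
  have h3 : (x : ℤ) % 2 ^ m = (y : ℤ) % 2 ^ m :=
    Int.emod_eq_emod_iff_emod_sub_eq_zero.2 (Int.emod_eq_zero_of_dvd h2)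
  rw [Int.emod_eq_of_lt (by positivity) (by exact_mod_cast hx),
    Int.emod_eq_of_lt (by positivity) (by exact_mod_cast hy)] at h3
  exact_mod_cast h3

/-- the class of the value is the class of the word -/
theorem val_cl {m μ : ℕ} {x : ℤ} (h : μ ≤ oc m x) : cl μ (wd 1 m x) = T^[m] x % 3 ^ μ := by
  obtain ⟨-, h2, -, -⟩ := Pool.Agent.Q208.BH.cls
  symm
  rw [← h2, wd_length]
  have h3 := iter_eq odd_one m x
  rw [T_same, one_mul, ones_oc] at h3
  rw [h3]
  refine ⟨3 ^ (oc m x - μ) * x, ?_⟩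
  have e : (3 : ℤ) ^ oc m x = 3 ^ μ * 3 ^ (oc m x - μ) := by rw [← pow_add, Nat.add_sub_cancel' h]
  rw [e]
  ring

open Classical in
/-- the integers of the window which are congruent to `T^m i` modulo `3 ^ μ` -/
noncomputable def Cell (m μ H : ℕ) (a : ℤ) (i : ℕ) : Finset ℤ :=
  (Jw m (oc m i) H a).filter (fun z => z % 3 ^ μ = T^[m] i % 3 ^ μ)

open Classical in
theorem om_eq {m μ o : ℕ} (ho : μ ≤ o) (z : ℤ) : om m μ o z =
    (∑ i ∈ range (2 ^ m), if oc m i = o ∧ z % 3 ^ μ = T^[m] (i : ℤ) % 3 ^ μ then (1 : ℝ) else 0) / 2 ^ m := by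
  unfold om
  congr 1
  rw [card_filter]
  push_cast
  rw [sum_words_wd]
  apply sum_congr rfl
  intro i _
  rw [ones_oc]
  by_cases h : oc m i = o
  · rw [val_cl (by rw [h]; exact ho)]
    simp only [h, true_and]
    by_cases h2 : z % 3 ^ μ = T^[m] (i : ℤ) % 3 ^ μ
    · rw [if_pos h2, if_pos h2.symm]
    · rw [if_neg h2, if_neg (fun h3 => h2 h3.symm)]
  · simp [h]

open Classical in
theorem model_eq {m μ H : ℕ} {K : ℝ} (a : ℤ) (hT : ∀ o ∈ Typ K m, μ ≤ o) (F : ℕ → ℤ → ℝ) :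
    ∑ o ∈ Typ K m, ∑ z ∈ Jw m o H a, den m μ H o z * F o z =
      (∑ i ∈ range (2 ^ m), if oc m i ∈ Typ K m then
        ∑ z ∈ Cell m μ H a i, 3 ^ μ / ln m (oc m i) H * F (oc m i) z else 0) / 2 ^ m := by
  have h1 : ∀ o ∈ Typ K m, ∑ z ∈ Jw m o H a, den m μ H o z * F o z =
      (∑ i ∈ range (2 ^ m), if oc m i = o then
        ∑ z ∈ Cell m μ H a i, 3 ^ μ / ln m (oc m i) H * F (oc m i) z else 0) / 2 ^ m := by
    intro o ho
    have h2 : ∀ z, den m μ H o z * F o z = (∑ i ∈ range (2 ^ m),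
        if oc m i = o ∧ z % 3 ^ μ = T^[m] (i : ℤ) % 3 ^ μ then 3 ^ μ / ln m o H * F o z else 0) / 2 ^ m := by
      intro z
      unfold den
      rw [om_eq (hT o ho), div_mul_eq_mul_div, div_mul_eq_mul_div, sum_mul, sum_mul]
      congr 1
      apply sum_congr rfl
      intro i _
      split_ifs
      · ring
      · ring
    simp only [h2]
    rw [← sum_div, sum_comm]
    congr 1
    apply sum_congr rfl
    intro i _
    by_cases h : oc m i = o
    · rw [if_pos h]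
      unfold Cell
      rw [sum_filter, h]
      simp
    · simp [h]
  rw [sum_congr rfl h1, ← sum_div, sum_comm]
  congr 1
  apply sum_congr rfl
  intro i _
  rw [sum_ite_eq]

/-- atypical numbers of odd steps are rare -/
theorem atyp (m : ℕ) {K : ℝ} (hK : 0 < K) : ∑ i ∈ range (2 ^ m), (if oc m (i : ℤ) ∈ Typ K m then (0 : ℝ) else 1) ≤
    2 ^ m * (1 / K ^ 2) := by
  have h1 := sum_oc m (fun o => if o ∈ Typ K m then (0 : ℝ) else 1)
  rw [h1, bE_choose]
  apply mul_le_mul_of_nonneg_left _ (by positivity)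
  refine le_trans (le_of_eq ?_) (Pool.Agent.Q195.BH.Binom.cheb m K hK)
  rw [← sum_sdiff (Pool.Agent.Q195.BH.Binom.typ_sub K m)]
  have h2 : ∑ o ∈ Typ K m, (m.choose o : ℝ) / 2 ^ m * (if o ∈ Typ K m then (0 : ℝ) else 1) = 0 := by
    apply sum_eq_zero
    intro o ho
    rw [if_pos ho, mul_zero]
  rw [h2, add_zero]
  apply sum_congr rfl
  intro o ho
  rw [mem_sdiff] at ho
  rw [if_neg ho.2, mul_one]
  rfl

theorem cell_card {m μ H : ℕ} (a : ℤ) (i : ℕ) :
    |((Cell m μ H a i).card : ℝ) - ln m (oc m i) H / 3 ^ μ| ≤ 1 := by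
  have h1 := Pool.Agent.Q195.BH.Mass.card_class ((a : ℝ) * 3 ^ oc m i / 2 ^ m) (((a : ℝ) + H) * 3 ^ oc m i / 2 ^ m)
    (by
      apply div_le_div_of_nonneg_right _ (by positivity)
      apply mul_le_mul_of_nonneg_right _ (by positivity)
      linarith [Nat.cast_nonneg (α := ℝ) H]) (3 ^ μ) (T^[m] (i : ℤ) % 3 ^ μ) (Int.emod_nonneg _ (by positivity))
    (Int.emod_lt_of_pos _ (by positivity))
  have e : (((a : ℝ) + H) * 3 ^ oc m i / 2 ^ m - (a : ℝ) * 3 ^ oc m i / 2 ^ m) / ((3 ^ μ : ℤ) : ℝ) =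
      ln m (oc m i) H / 3 ^ μ := by
    unfold ln
    push_cast
    ring
  rw [e] at h1
  convert h1 using 4
  unfold Cell Jw
  congr

/-- LAW AT UNIT SCALE -/
theorem tvf (hT : S_TV) (hL : S_Ln) : ∀ η ε : ℝ, 0 < η → 0 < ε → ∃ H₀ : ℕ, ∀ H : ℕ, H₀ ≤ H → ∀ m : ℕ,
    Real.log H ≤ m → (m : ℝ) ≤ (cI - η) * Real.log H → ∃ μ : ℕ, (μ : ℝ) ^ 2 ≤ Real.log H ∧
    ∀ (a : ℤ) (F : ℕ → ℤ → ℝ), (∀ o z, |F o z| ≤ 1) →
    |(∑ x ∈ Ico a (a + H), F (oc m x) (T^[m] x)) / H -
      (∑ i ∈ range (2 ^ m), (∑ z ∈ Cell m μ H a i, F (oc m i) z) / ((Cell m μ H a i).card : ℝ)) / 2 ^ m| ≤ ε := by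
  intro η ε hη hε
  set K : ℝ := √(8 / ε) + 1 with hKdef
  have hK : 0 < K := by positivity
  have hK2 : 1 / K ^ 2 ≤ ε / 8 := by
    have h1 : 8 / ε ≤ K ^ 2 := by
      have h2 : √(8 / ε) ^ 2 = 8 / ε := Real.sq_sqrt (by positivity)
      have h3 : 0 ≤ √(8 / ε) := Real.sqrt_nonneg _
      rw [hKdef]
      nlinarith
    calc 1 / K ^ 2 ≤ 1 / (8 / ε) := one_div_le_one_div_of_le (by positivity) h1
      _ = ε / 8 := by field_simp
  obtain ⟨H₁, h1⟩ := hT η (ε / 4) K hη (by positivity) hK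
  obtain ⟨H₂, h2⟩ := hL η K (ε / 8) hη hK (by positivity)
  refine ⟨max (max H₁ H₂) (⌈Real.exp ((2 * (K + 1)) ^ 2)⌉₊ + 1), fun H hH m hm1 hm2 => ?_⟩
  obtain ⟨μ, hμ, h3⟩ := h1 H ((le_max_left _ _).trans ((le_max_left _ _).trans hH)) m hm1 hm2
  refine ⟨μ, hμ, fun a F hF => ?_⟩
  have h4 := h2 H ((le_max_right _ _).trans ((le_max_left _ _).trans hH)) m hm1 hm2 μ hμ
  have hHbig : Real.exp ((2 * (K + 1)) ^ 2) ≤ H :=
    (Nat.le_ceil _).trans (by exact_mod_cast (Nat.le_succ _).trans ((le_max_right _ _).trans hH))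
  have hHpos : (0 : ℝ) < H := (Real.exp_pos _).trans_le hHbig
  have hlogH : (2 * (K + 1)) ^ 2 ≤ Real.log H := by
    rw [← Real.log_exp ((2 * (K + 1)) ^ 2)]
    exact Real.log_le_log (Real.exp_pos _) hHbig
  have hmsq : 2 * (K + 1) ≤ √m := by
    apply Real.le_sqrt_of_sq_le
    linarith
  have hTy : ∀ o ∈ Typ K m, μ ≤ o := by
    intro o ho
    unfold Typ at ho
    rw [mem_filter] at ho
    have h5 := (abs_le.1 ho.2).1
    have h6 : (μ : ℝ) ≤ √m := by
      apply Real.le_sqrt_of_sq_le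
      linarith
    have h7 : √(m : ℝ) * √m = m := Real.mul_self_sqrt (Nat.cast_nonneg _)
    have h8 : (μ : ℝ) ≤ o := by nlinarith
    exact_mod_cast h8
  have h5 := h3 a F hF
  rw [model_eq a hTy] at h5
  have h6 : |(∑ i ∈ range (2 ^ m), if oc m i ∈ Typ K m then
        ∑ z ∈ Cell m μ H a i, 3 ^ μ / ln m (oc m i) H * F (oc m i) z else 0) / 2 ^ m -
      (∑ i ∈ range (2 ^ m), (∑ z ∈ Cell m μ H a i, F (oc m i) z) / ((Cell m μ H a i).card : ℝ)) / 2 ^ m| ≤
      ε / 8 + ε / 8 := by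
    rw [← sub_div, ← sum_sub_distrib, abs_div, abs_of_pos (by positivity : (0 : ℝ) < 2 ^ m),
      div_le_iff₀ (by positivity)]
    have h7 : ∀ i ∈ range (2 ^ m), |(if oc m (i : ℤ) ∈ Typ K m then
        ∑ z ∈ Cell m μ H a i, 3 ^ μ / ln m (oc m i) H * F (oc m i) z else 0) -
          (∑ z ∈ Cell m μ H a i, F (oc m i) z) / ((Cell m μ H a i).card : ℝ)| ≤
        ε / 8 + (if oc m (i : ℤ) ∈ Typ K m then (0 : ℝ) else 1) := by
      intro i _
      have hSn : |∑ z ∈ Cell m μ H a i, F (oc m i) z| ≤ ((Cell m μ H a i).card : ℝ) := by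
        refine (abs_sum_le_sum_abs _ _).trans ((sum_le_sum fun z _ => hF _ z).trans ?_)
        rw [sum_const, nsmul_eq_mul, mul_one]
      by_cases ht : oc m (i : ℤ) ∈ Typ K m
      · rw [if_pos ht, if_pos ht, add_zero, ← mul_sum]
        obtain ⟨h8, h9⟩ := h4 _ ht
        have hl : 0 < ln m (oc m i) H := by
          unfold ln
          positivity
        rcases Nat.eq_zero_or_pos (Cell m μ H a i).card with hn | hn
        · rw [card_eq_zero] at hn
          rw [hn]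
          simp
          positivity
        · have hnr : (0 : ℝ) < (Cell m μ H a i).card := by exact_mod_cast hn
          have e : 3 ^ μ / ln m (oc m i) H * ∑ z ∈ Cell m μ H a i, F (oc m i) z -
              (∑ z ∈ Cell m μ H a i, F (oc m i) z) / ((Cell m μ H a i).card : ℝ) =
              (∑ z ∈ Cell m μ H a i, F (oc m i) z) / ((Cell m μ H a i).card : ℝ) * (3 ^ μ / ln m (oc m i) H) *
                (((Cell m μ H a i).card : ℝ) - ln m (oc m i) H / 3 ^ μ) := by
            field_simp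
          rw [e, abs_mul, abs_mul, abs_div, abs_of_pos hnr,
            abs_of_pos (by positivity : (0 : ℝ) < 3 ^ μ / ln m (oc m i) H)]
          have h10 : |∑ z ∈ Cell m μ H a i, F (oc m i) z| / ((Cell m μ H a i).card : ℝ) ≤ 1 := by
            rw [div_le_one hnr]
            exact hSn
          have h11 : 3 ^ μ / ln m (oc m i) H ≤ ε / 8 := by
            rw [div_le_iff₀ hl]
            exact h8
          calc _ ≤ 1 * (ε / 8) * 1 := by
                apply mul_le_mul _ (cell_card a i) (abs_nonneg _) (by positivity)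
                exact mul_le_mul h10 h11 (by positivity) zero_le_one
            _ = ε / 8 := by ring
      · rw [if_neg ht, if_neg ht, zero_sub, abs_neg, abs_div, Nat.abs_cast]
        have h10 : |∑ z ∈ Cell m μ H a i, F (oc m i) z| / ((Cell m μ H a i).card : ℝ) ≤ 1 := by
          apply div_le_one_of_le₀ hSn (Nat.cast_nonneg _)
        linarith
    refine (abs_sum_le_sum_abs _ _).trans ((sum_le_sum h7).trans ?_)
    rw [sum_add_distrib, sum_const, card_range, nsmul_eq_mul]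
    have h8 := atyp m hK
    have h9 : (2 : ℝ) ^ m * (1 / K ^ 2) ≤ 2 ^ m * (ε / 8) := mul_le_mul_of_nonneg_left hK2 (by positivity)
    push_cast
    linarith
  rw [abs_le] at *
  constructor <;> linarith [h5.1, h5.2, h6.1, h6.2]

end Pool.Agent.Q74.BH
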