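import Pool.Agent.Q74.BH.TwoF
import Pool.Agent.Q74.BH.TVF
import Pool.Agent.Q14.BH.Step
import Pool.Agent.Q154.BH.Up
import Pool.Agent.Q154.BH.LowK
import Pool.Agent.Q14.BH.TV
import Pool.Agent.Q150.BH.Stage
import Pool.Agent.Q176.BH.Base
import Pool.Agent.Q190.BH.Cor
import Pool.Agent.Q190.BH.FreeA
import Pool.Agent.Q190.BH.Merge
import Pool.Agent.Q195.BH.Binom
import Pool.Agent.Q195.BH.Mass
import Pool.Agent.Q195.BH.ProdK
import Pool.Agent.Q208.BH.ClsFew
import Pool.Agent.Q223.BH.Real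
import Pool.Agent.Q241.BH.Mix3
import Pool.Agent.Q241.BH.Shift
import Pool.Agent.Q285.BH.Bits
import Pool.Agent.Q285.BH.Inner
import Pool.Agent.Q68.BH.CorT
import Pool.Agent.Q153.BH.CorK
import Pool.Agent.Q153.BH.Num
import Pool.Agent.Q177.SF.Comp
import Pool.Agent.Q210.SF.CInj
import Pool.Agent.Q210.SF.Cont
import Pool.Agent.Q176.SF.Expand
import Pool.Agent.Q176.SF.Prod
import Pool.Agent.Q6.SF.Lip
import Pool.Agent.Q216.SF.Cross
import Pool.Agent.Q14.SF.Fix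
import Pool.Agent.Q14.SF.Conv
import Pool.Agent.Q225.SF.Bad

/-! # Project BH: assembly of the jobs -/

set_option autoImplicit false

namespace Pool.Agent.Q74.BH

open Pool.Agent.Q74.SF

theorem fix : S_Fix := Pool.Agent.Q14.SF.fix Pool.Agent.Q176.SF.Expand.expand Pool.Agent.Q216.SF.sep
  Pool.Agent.Q216.SF.cross Pool.Agent.Q177.SF.comp Pool.Agent.Q210.SF.cinj Pool.Agent.Q177.SF.cmono

theorem cont : S_Cont := Pool.Agent.Q210.SF.cont
  (Pool.Agent.Q6.SF.lip Pool.Agent.Q176.SF.Expand.expand Pool.Agent.Q177.SF.comp Pool.Agent.Q210.SF.cinj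
    Pool.Agent.Q177.SF.cmono) Pool.Agent.Q177.SF.comp

theorem mass : S_Mass := Pool.Agent.Q195.BH.Mass.mass Pool.Agent.Q208.BH.cls

theorem base : S_Base := Pool.Agent.Q176.BH.base Pool.Agent.Q208.BH.cls Pool.Agent.Q241.BH.mix3 Pool.Agent.Q285.BH.bits
  Pool.Agent.Q208.BH.few

theorem step : S_Step := Pool.Agent.Q14.BH.step Pool.Agent.Q208.BH.cls
  (Pool.Agent.Q150.BH.stage Pool.Agent.Q208.BH.cls) Pool.Agent.Q208.BH.few base

theorem tv (hU : S_Up) : S_TV := Pool.Agent.Q14.BH.tv Pool.Agent.Q208.BH.cls hU Pool.Agent.Q223.BH.lnn mass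

theorem coreA (hU : S_Up) : S_Core := core (tv hU) Pool.Agent.Q195.BH.ProdK.prodK Pool.Agent.Q241.BH.shift
  (Pool.Agent.Q285.BH.inner0 fix) Pool.Agent.Q223.BH.offT Pool.Agent.Q223.BH.size Pool.Agent.Q223.BH.lnn
  Pool.Agent.Q195.BH.Binom.binom mass

theorem oneA (hU : S_Up) : S_One := one' (tv hU) Pool.Agent.Q241.BH.shift Pool.Agent.Q223.BH.size
  Pool.Agent.Q223.BH.lnn Pool.Agent.Q195.BH.Binom.binom mass

theorem freeA (hU : S_Up) : S_FreeA := Pool.Agent.Q190.BH.FreeA.freeA (tv hU) Pool.Agent.Q195.BH.ProdK.prodK mass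
  Pool.Agent.Q223.BH.lnn Pool.Agent.Q195.BH.Binom.binom

theorem mainA (hU : S_Up) (hLow : S_LowK) : S_Main := main (coreA hU) cont hLow

theorem fullA (hU : S_Up) (hLow : S_LowK) : S_Full := full (mainA hU hLow) (freeA hU) (oneA hU)
  Pool.Agent.Q210.SF.cinj Pool.Agent.Q177.SF.comp

theorem two : S_Two := (Pool.Agent.Q74.SF.final fix Pool.Agent.Q225.SF.mark Pool.Agent.Q225.SF.bad
  Pool.Agent.Q176.SF.Prod.prod cont Pool.Agent.Q210.SF.cinj Pool.Agent.Q177.SF.comp Pool.Agent.Q14.SF.conv).2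

theorem upX : S_Up := Pool.Agent.Q154.BH.up Pool.Agent.Q208.BH.cls base step

theorem lowX : S_LowK := Pool.Agent.Q154.BH.lowK fix cont Pool.Agent.Q14.SF.conv

theorem tvX : S_TV := tv upX

theorem freeX : S_FreeA := freeA upX

theorem mainX : S_Main := mainA upX lowX

theorem fullX : S_Full := fullA upX lowX

end Pool.Agent.Q74.BH
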