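import Pool.Agent.Q74.BH.Stm

/-! # Project BH: assembly, fixed numbers of odd steps -/

set_option autoImplicit false

namespace Pool.Agent.Q74.BH

open Finset
open Pool.Agent.Q74.KP
open Pool.Agent.Q74.SF
open Pool.Agent.Q74.AR (oc oc_succ)
open Pool.Agent.Q158.Pair (T)
open Pool.Agent.Q158.Col4 (cI)

variable {k : ℕ}

theorem oc_add (m r : ℕ) : ∀ x : ℤ, oc (m + r) x = oc m x + oc r (T^[m] x) := by
  induction m with
  | zero => intro x; simp [oc]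
  | succ m ih =>
    intro x
    rw [show m + 1 + r = (m + r) + 1 by ring, oc_succ, oc_succ, ih, Function.iterate_succ_apply]
    ring

theorem V0_split {H : ℕ} (m r : ℕ) (x : ℤ) (h : Fin k → Fin H) :
    V0 (m + r) x h = fut r (fun i => oc m (x + ((h i : ℕ) : ℤ))) (fun i => T^[m] (x + ((h i : ℕ) : ℤ))) := by
  funext i
  unfold V0 fut
  rw [oc_add, Nat.add_comm m r, Function.iterate_add_apply]
  push_cast
  rfl

/-- sums over tuples of pairs -/
theorem pi_sigma (S : Finset ℕ) (J : ℕ → Finset ℤ) (f : (Fin k → (_ : ℕ) × ℤ) → ℝ) :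
    ∑ j ∈ Fintype.piFinset (fun _ : Fin k => S.sigma J), f j =
      ∑ o ∈ Fintype.piFinset (fun _ : Fin k => S), ∑ z ∈ Fintype.piFinset (fun i => J (o i)),
        f (fun i => ⟨o i, z i⟩) := by
  rw [sum_sigma' (Fintype.piFinset (fun _ : Fin k => S)) (fun o => Fintype.piFinset (fun i => J (o i)))
    (fun o z => f (fun i => ⟨o i, z i⟩))]
  refine sum_nbij' (fun j => ⟨fun l => (j l).1, fun l => (j l).2⟩) (fun p => fun l => ⟨p.1 l, p.2 l⟩) ?_ ?_ ?_ ?_ ?_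
  · intro j hj
    rw [Fintype.mem_piFinset] at hj
    rw [mem_sigma, Fintype.mem_piFinset, Fintype.mem_piFinset]
    exact ⟨fun l => (mem_sigma.1 (hj l)).1, fun l => (mem_sigma.1 (hj l)).2⟩
  · rintro ⟨o, z⟩ hp
    rw [mem_sigma, Fintype.mem_piFinset, Fintype.mem_piFinset] at hp
    rw [Fintype.mem_piFinset]
    exact fun l => mem_sigma.2 ⟨hp.1 l, hp.2 l⟩
  · intro j _
    rfl
  · rintro ⟨o, z⟩ _
    rfl
  · intro j _
    rfl

/-- a product of numbers close to `1` -/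
theorem prod_near {ε : ℝ} (hε0 : 0 ≤ ε) (hε1 : ε ≤ 1) (x : Fin k → ℝ) (h : ∀ i, |x i - 1| ≤ ε) :
    |∏ i, x i - 1| ≤ k * ε * 2 ^ k ∧ |∏ i, x i| ≤ 2 ^ k := by
  induction k with
  | zero => simp
  | succ k ih =>
    obtain ⟨h1, h2⟩ := ih (fun i => x i.succ) (fun i => h i.succ)
    have h0 := h 0
    rw [Fin.prod_univ_succ]
    have hx0 : |x 0| ≤ 2 := by
      have := abs_le.1 h0
      rw [abs_le]
      constructor <;> linarith [this.1, this.2]
    constructor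
    · have e : x 0 * ∏ i : Fin k, x i.succ - 1 = (x 0 - 1) * ∏ i : Fin k, x i.succ + (∏ i : Fin k, x i.succ - 1) := by
        ring
      rw [e]
      refine (abs_add_le _ _).trans ?_
      rw [abs_mul]
      have h3 : |x 0 - 1| * |∏ i : Fin k, x i.succ| ≤ ε * 2 ^ k := mul_le_mul h0 h2 (abs_nonneg _) hε0
      push_cast
      have h4 : (0 : ℝ) ≤ k * ε * 2 ^ k := by positivity
      have h5 : (0 : ℝ) ≤ ε * 2 ^ k := by positivity
      rw [pow_succ]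
      nlinarith
    · rw [abs_mul, pow_succ, mul_comm ((2 : ℝ) ^ k)]
      exact mul_le_mul hx0 h2 (abs_nonneg _) (by norm_num)

theorem sum_pi_prod (J : Fin k → Finset ℤ) (β : Fin k → ℤ → ℝ) :
    ∑ z ∈ Fintype.piFinset J, ∏ i, β i (z i) = ∏ i, ∑ z ∈ J i, β i z := by
  rw [prod_univ_sum]

/-- fixed numbers of odd steps -/
theorem fixed_o (hSh : S_Shift) {m r μ H L Q o₀ : ℕ} {a : ℤ} (hL : 1 ≤ L) (hQ : 1 ≤ Q) (o : Fin k → ℕ)
    (β : Fin k → ℤ → ℝ) (Ψ : (Fin k → ℤ) → ℝ) (hΨ : ∀ z, |Ψ z| ≤ 1) {c εL εS εI : ℝ} (hc : |c| ≤ 1)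
    (hεL0 : 0 ≤ εL) (hεL1 : εL ≤ 1) (hεI : 0 ≤ εI)
    (hβ : ∀ i z, 0 ≤ β i z ∧ β i z ≤ εL) (hper : ∀ i z, β i (z + 3 ^ μ) = β i z)
    (hmass : ∀ i x, |∑ z ∈ Jw m (o i) H x, β i z - 1| ≤ εL) (h3 : ∀ i, 3 ^ o i ≤ 2 ^ m) (ho₀ : ∀ i, o₀ ≤ o i)
    (hS : (2 : ℝ) ^ m * (3 ^ μ * (Q * 2 ^ r)) / 3 ^ o₀ ≤ εS * L)
    (hin : ∀ x : ℤ, ∀ z ∈ Fintype.piFinset (fun i => Jw m (o i) H x),
      |(∑ w ∈ range (Q * 2 ^ r), Ψ (fun i => z i + 3 ^ (o i - o₀) * (3 ^ μ * w : ℕ))) / (Q * 2 ^ r) - c| ≤ εI) :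
    |∑ x ∈ Ico a (a + L), ∑ z ∈ Fintype.piFinset (fun i => Jw m (o i) H x), (∏ i, β i (z i)) * Ψ z - c * L| ≤
      2 ^ k * (2 * εS + 2 * (k * εL) + εI) * L := by
  classical
  have hLr : (0 : ℝ) < L := by exact_mod_cast hL
  have hQr : (0 : ℝ) < Q := by exact_mod_cast hQ
  set W : ℕ := Q * 2 ^ r with hW
  have hWr : (W : ℝ) = Q * 2 ^ r := by rw [hW]; push_cast; ring
  have hW0 : (0 : ℝ) < W := by rw [hWr]; positivity
  set S1 := ∑ x ∈ Ico a (a + L), ∑ z ∈ Fintype.piFinset (fun i => Jw m (o i) H x), (∏ i, β i (z i)) * Ψ z with hS1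
  set S2 : ℕ → ℝ := fun w => ∑ x ∈ Ico a (a + L), ∑ z ∈ Fintype.piFinset (fun i => Jw m (o i) H x),
    (∏ i, β i (z i)) * Ψ (fun i => z i + 3 ^ (o i - o₀) * (3 ^ μ * w : ℕ)) with hS2
  have hm2 : ∀ i x, ∑ z ∈ Jw m (o i) H x, β i z ≤ 2 := by
    intro i x
    have := (abs_le.1 (hmass i x)).2
    linarith
  -- the shift
  have h1 : ∀ w ∈ range W, |S1 - S2 w| ≤ 2 ^ k * (2 * εS + k * εL) * L := by
    intro w hw
    rw [mem_range] at hw
    have hs := hSh k m H μ o β εL h3 hβ hper hm2 o₀ ho₀ a L (3 ^ μ * w) (Dvd.intro _ rfl) Ψ hΨ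
    refine hs.trans ?_
    have hwr : (w : ℝ) ≤ Q * 2 ^ r := by rw [← hWr]; exact_mod_cast hw.le
    have h2 : (2 : ℝ) ^ m * ((3 ^ μ * w : ℕ) : ℝ) / 3 ^ o₀ ≤ εS * L := by
      refine le_trans ?_ hS
      apply div_le_div_of_nonneg_right _ (by positivity)
      push_cast
      gcongr
    have h2k : (0 : ℝ) < 2 ^ k := by positivity
    calc (2 : ℝ) ^ k * (2 * (2 ^ m * ((3 ^ μ * w : ℕ) : ℝ) / 3 ^ o₀) + k * εL * L) ≤
        2 ^ k * (2 * (εS * L) + k * εL * L) := by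
          apply mul_le_mul_of_nonneg_left _ h2k.le
          linarith
      _ = _ := by ring
  have h2 : |S1 - (∑ w ∈ range W, S2 w) / W| ≤ 2 ^ k * (2 * εS + k * εL) * L := by
    have e : S1 - (∑ w ∈ range W, S2 w) / W = (∑ w ∈ range W, (S1 - S2 w)) / W := by
      rw [sum_sub_distrib, sum_const, card_range, nsmul_eq_mul]
      field_simp
    rw [e, abs_div, abs_of_pos hW0, div_le_iff₀ hW0]
    refine (abs_sum_le_sum_abs _ _).trans ((sum_le_sum h1).trans (le_of_eq ?_))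
    rw [sum_const, card_range, nsmul_eq_mul]
    ring
  -- the inner average
  have hprodnn : ∀ z : Fin k → ℤ, 0 ≤ ∏ i, β i (z i) := fun z => prod_nonneg fun i _ => (hβ i (z i)).1
  have hmassx : ∀ x : ℤ, |∑ z ∈ Fintype.piFinset (fun i => Jw m (o i) H x), ∏ i, β i (z i) - 1| ≤ k * εL * 2 ^ k ∧
      |∑ z ∈ Fintype.piFinset (fun i => Jw m (o i) H x), ∏ i, β i (z i)| ≤ 2 ^ k := by
    intro x
    rw [sum_pi_prod]
    exact prod_near hεL0 hεL1 _ (fun i => hmass i x)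
  have e3 : (∑ w ∈ range W, S2 w) / W = ∑ x ∈ Ico a (a + L), ∑ z ∈ Fintype.piFinset (fun i => Jw m (o i) H x),
      (∏ i, β i (z i)) * ((∑ w ∈ range W, Ψ (fun i => z i + 3 ^ (o i - o₀) * (3 ^ μ * w : ℕ))) / W) := by
    rw [hS2]
    simp only
    rw [sum_comm, sum_div]
    apply sum_congr rfl
    intro x _
    rw [sum_comm, sum_div]
    apply sum_congr rfl
    intro z _
    rw [← mul_sum, mul_div_assoc]
  have hx : ∀ x ∈ Ico a (a + (L : ℤ)), |∑ z ∈ Fintype.piFinset (fun i => Jw m (o i) H x),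
      (∏ i, β i (z i)) * ((∑ w ∈ range W, Ψ (fun i => z i + 3 ^ (o i - o₀) * (3 ^ μ * w : ℕ))) / W) - c| ≤
      2 ^ k * (k * εL + εI) := by
    intro x _
    obtain ⟨h5, h6⟩ := hmassx x
    set M := ∑ z ∈ Fintype.piFinset (fun i => Jw m (o i) H x), ∏ i, β i (z i) with hM
    have h7 : |∑ z ∈ Fintype.piFinset (fun i => Jw m (o i) H x),
      (∏ i, β i (z i)) * ((∑ w ∈ range W, Ψ (fun i => z i + 3 ^ (o i - o₀) * (3 ^ μ * w : ℕ))) / W) - M * c| ≤
        M * εI := by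
      rw [hM, sum_mul, sum_mul, ← sum_sub_distrib]
      refine (abs_sum_le_sum_abs _ _).trans (sum_le_sum fun z hz => ?_)
      rw [← mul_sub, abs_mul, abs_of_nonneg (hprodnn z), hWr]
      exact mul_le_mul_of_nonneg_left (hin x z hz) (hprodnn z)
    have h8 : M ≤ 2 ^ k := (le_abs_self _).trans h6
    have h9 : M * εI ≤ 2 ^ k * εI := mul_le_mul_of_nonneg_right h8 hεI
    have h10 : |M * c - c| ≤ k * εL * 2 ^ k := by
      have : M * c - c = (M - 1) * c := by ring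
      rw [this, abs_mul]
      calc |M - 1| * |c| ≤ (k * εL * 2 ^ k) * 1 := mul_le_mul h5 hc (abs_nonneg _) (by positivity)
        _ = _ := mul_one _
    have h11 := abs_sub_le (∑ z ∈ Fintype.piFinset (fun i => Jw m (o i) H x),
      (∏ i, β i (z i)) * ((∑ w ∈ range W, Ψ (fun i => z i + 3 ^ (o i - o₀) * (3 ^ μ * w : ℕ))) / W)) (M * c) c
    calc _ ≤ M * εI + k * εL * 2 ^ k := h11.trans (add_le_add h7 h10)
      _ ≤ 2 ^ k * εI + k * εL * 2 ^ k := by linarith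
      _ = _ := by ring
  have h4 : |(∑ w ∈ range W, S2 w) / W - c * L| ≤ 2 ^ k * (k * εL + εI) * L := by
    rw [e3]
    have hcard : ((Ico a (a + (L : ℤ))).card : ℝ) = L := by
      rw [Int.card_Ico, show (a + (L : ℤ) - a).toNat = L by omega]
    have e4 : c * L = ∑ _x ∈ Ico a (a + (L : ℤ)), c := by
      rw [sum_const, nsmul_eq_mul, hcard, mul_comm]
    rw [e4, ← sum_sub_distrib]
    refine (abs_sum_le_sum_abs _ _).trans ((sum_le_sum hx).trans (le_of_eq ?_))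
    rw [sum_const, nsmul_eq_mul, hcard, mul_comm]
  have h5 := abs_sub_le S1 ((∑ w ∈ range W, S2 w) / W) (c * L)
  calc _ ≤ 2 ^ k * (2 * εS + k * εL) * L + 2 ^ k * (k * εL + εI) * L := h5.trans (add_le_add h2 h4)
    _ = _ := by ring

end Pool.Agent.Q74.BH
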