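import Pool.Agent.Q74.BH.Core

/-! # Project BH: assembly -/

set_option autoImplicit false

namespace Pool.Agent.Q74.BH

open Finset
open Pool.Agent.Q74.KP
open Pool.Agent.Q74.SF
open Pool.Agent.Q74.AR (oc oc_succ)
open Pool.Agent.Q158.Pair (T)
open Pool.Agent.Q158.Col4 (cI)

variable {k : ℕ}

theorem win_sum (x : ℤ) (H : ℕ) (f : ℤ → ℝ) : ∑ y ∈ Ico x (x + H), f y = ∑ i : Fin H, f (x + ((i : ℕ) : ℤ)) := by
  rw [Fin.sum_univ_eq_sum_range (fun i => f (x + (i : ℤ))) H]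
  refine (sum_nbij' (fun i : ℕ => x + (i : ℤ)) (fun y => (y - x).toNat) ?_ ?_ ?_ ?_ ?_).symm
  · intro i hi
    rw [mem_range] at hi
    rw [mem_Ico]
    omega
  · intro y hy
    rw [mem_Ico] at hy
    rw [mem_range]
    omega
  · intro i _
    show (x + (i : ℤ) - x).toNat = i
    omega
  · intro y hy
    rw [mem_Ico] at hy
    show x + (((y - x).toNat : ℕ) : ℤ) = y
    omega
  · intro i _
    rfl

theorem cI_gt : 6 < cI := by
  obtain ⟨h1, h2⟩ := Pool.Agent.Q158.Col4.log43_bounds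
  unfold cI
  rw [lt_div_iff₀ (by linarith)]
  linarith

theorem Typ_ne {K : ℝ} {m : ℕ} (h : 1 / 2 ≤ K * √m) : (Typ K m).Nonempty := by
  refine ⟨m / 2, ?_⟩
  unfold Typ
  rw [mem_filter, mem_range]
  refine ⟨by omega, le_trans ?_ h⟩
  have h1 : ((m / 2 : ℕ) : ℝ) ≤ m / 2 := Nat.cast_div_le
  have h2 : (m : ℝ) ≤ 2 * ((m / 2 : ℕ) : ℝ) + 1 := by
    have : m ≤ 2 * (m / 2) + 1 := by omega
    exact_mod_cast this
  rw [abs_le]
  constructor <;> linarith

theorem bin_sum (K : ℝ) (m : ℕ) : ∑ o ∈ Typ K m, (m.choose o : ℝ) / 2 ^ m ≤ 1 := by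
  have h1 : ∑ o ∈ Typ K m, (m.choose o : ℝ) / 2 ^ m ≤ ∑ o ∈ range (m + 1), (m.choose o : ℝ) / 2 ^ m := by
    apply sum_le_sum_of_subset_of_nonneg (filter_subset _ _)
    intro o _ _
    positivity
  refine h1.trans (le_of_eq ?_)
  rw [← sum_div]
  have : (∑ o ∈ range (m + 1), (m.choose o : ℝ)) = 2 ^ m := by
    have := Nat.sum_range_choose m
    exact_mod_cast this
  rw [this, div_self (by positivity)]

theorem bin_pos {K : ℝ} {m o : ℕ} (h : o ∈ Typ K m) : 0 < (m.choose o : ℝ) / 2 ^ m := by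
  unfold Typ at h
  rw [mem_filter, mem_range] at h
  have : 0 < m.choose o := Nat.choose_pos (by omega)
  positivity

/-- the core -/
theorem core (hT : S_TV) (hP : S_ProdK) (hSh : S_Shift) (hI : S_Inner) (hO : S_OffT) (hSz : S_Size) (hLn : S_Ln)
    (hB : S_Binom) (hM : S_Mass) : S_Core := by
  intro k Λ κ ε hΛ hκ hε
  set D : ℝ := 2 ^ k * (5 * k + 3) with hD
  have hD0 : 0 < D := by positivity
  set ε₁ : ℝ := min (1 / 2) (ε / D) with hε₁
  have hε₁0 : 0 < ε₁ := by positivity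
  have hε₁h : ε₁ ≤ 1 / 2 := min_le_left _ _
  have hε₁D : D * ε₁ ≤ ε := by
    have : ε₁ ≤ ε / D := min_le_right _ _
    rw [le_div_iff₀ hD0] at this
    linarith
  set K : ℝ := 1 / √ε₁ with hK
  have hK0 : 0 < K := by positivity
  have hKe : 1 / K ^ 2 = ε₁ := by
    rw [hK, div_pow, one_pow, Real.sq_sqrt hε₁0.le, one_div_one_div]
  obtain ⟨ρ, hρ, r₀, Q, hQ, hin⟩ := hI k Λ ε₁ hΛ hε₁0
  obtain ⟨δ₁, hδ₁, H₁, hoff⟩ := hO ρ κ K hρ hκ hK0
  obtain ⟨δ₂, hδ₂, H₂, hsize⟩ := hSz κ K ε₁ Q hκ hK0 hε₁0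
  refine ⟨min (min δ₁ δ₂) 1, by positivity, fun η hη => ?_⟩
  obtain ⟨H₃, htv⟩ := hT η ε₁ K hη hε₁0 hK0
  obtain ⟨H₄, hln⟩ := hLn η K ε₁ hη hK0 hε₁0
  obtain ⟨H₅, hH₅⟩ := exists_nat_ge (Real.exp (r₀ / κ + 1 / (4 * K ^ 2)))
  refine ⟨H₁ + H₂ + H₃ + H₄ + H₅ + 1, fun H hH m r L hL hr hm1 hm2 hhor a π G hG hGL => ?_⟩
  have hHr : (0 : ℝ) < H := by
    have : 0 < H := by omega
    exact_mod_cast this
  have hH1 : (1 : ℝ) ≤ H := by
    have : 1 ≤ H := by omega
    exact_mod_cast this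
  have hlog0 : 0 ≤ Real.log H := Real.log_nonneg hH1
  have hlogH : r₀ / κ + 1 / (4 * K ^ 2) ≤ Real.log H := by
    rw [Real.le_log_iff_exp_le hHr]
    refine hH₅.trans ?_
    exact_mod_cast (by omega : H₅ ≤ H)
  have hLr : (0 : ℝ) < L := by exact_mod_cast hL
  have hcI := cI_gt
  have hmr : (0 : ℝ) ≤ m := Nat.cast_nonneg m
  have hd1 : cI * Real.log H ≤ (1 + δ₁) * m := hm1.trans (mul_le_mul_of_nonneg_right (by
    have := (min_le_left (min δ₁ δ₂) 1).trans (min_le_left δ₁ δ₂)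
    linarith) hmr)
  have hd2 : cI * Real.log H ≤ (1 + δ₂) * m := hm1.trans (mul_le_mul_of_nonneg_right (by
    have := (min_le_left (min δ₁ δ₂) 1).trans (min_le_right δ₁ δ₂)
    linarith) hmr)
  have hd3 : cI * Real.log H ≤ 2 * m := hm1.trans (mul_le_mul_of_nonneg_right (by
    have := min_le_right (min δ₁ δ₂) (1 : ℝ)
    linarith) hmr)
  have hlogm : Real.log H ≤ m := by nlinarith
  have hmc : (m : ℝ) ≤ cI * Real.log H := hm2.trans (mul_le_mul_of_nonneg_right (by linarith) hlog0)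
  have hK4 : 0 ≤ 1 / (4 * K ^ 2) := by positivity
  have hr0k : (0 : ℝ) ≤ r₀ / κ := by positivity
  have hrr : r₀ ≤ r := by
    have h1 : (r₀ : ℝ) / κ ≤ m := by linarith
    rw [div_le_iff₀ hκ] at h1
    have : (r₀ : ℝ) ≤ r := by linarith
    exact_mod_cast this
  have hKm : 1 / 2 ≤ K * √m := by
    have h1 : 1 / (4 * K ^ 2) ≤ (m : ℝ) := by linarith
    have h2 : 1 / (2 * K) ≤ √m := by
      apply Real.le_sqrt_of_sq_le
      refine le_trans (le_of_eq ?_) h1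
      field_simp
      norm_num
    calc (1 : ℝ) / 2 = K * (1 / (2 * K)) := by field_simp
      _ ≤ K * √m := mul_le_mul_of_nonneg_left h2 hK0.le
  have hTne := Typ_ne hKm
  obtain ⟨μ, hμ, hTV⟩ := htv H (by omega) m hlogm hm2
  rw [hKe] at hTV
  have hlnT := hln H (by omega) m hlogm hm2 μ hμ
  set o₀ := (Typ K m).min' hTne with ho₀
  have ho₀m : o₀ ∈ Typ K m := min'_mem _ _
  have hsz := hsize H (by omega) m r L hL hd2 hmc hhor μ hμ o₀ ho₀m
  -- the functions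
  set Ψ : (Fin k → ℕ × ℤ) → ℝ := fun v => Ph π G (fut r (fun i => (v i).1) (fun i => (v i).2)) with hΨd
  have hΨ : ∀ v, |Ψ v| ≤ 1 := fun v => Ph_abs π hG _
  have hPh : ∀ V : Fin k → ℤ × ℤ, |Ph π G V| ≤ 1 := fun V => Ph_abs π hG V
  set B : ℤ → ℝ := fun x => ∑ o ∈ Fintype.piFinset (fun _ : Fin k => Typ K m),
    ∑ z ∈ Fintype.piFinset (fun i => Jw m (o i) H x), (∏ i, den m μ H (o i) (z i)) * Ph π G (fut r o z) with hBd
  -- step 1
  have hstep1 : ∀ x : ℤ, |(∑ h : Fin k → Fin H, Ph π G (V0 (m + r) x h)) / (H : ℝ) ^ k - B x| ≤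
      k * (2 * ε₁) * 2 ^ k := by
    intro x
    have h1 := hP (ℕ × ℤ) (Fin H) ((_ : ℕ) × ℤ) univ ((Typ K m).sigma (fun o => Jw m o H x)) (fun _ => 1 / (H : ℝ))
      (fun j => den m μ H j.1 j.2) (fun i => (oc m (x + ((i : ℕ) : ℤ)), T^[m] (x + ((i : ℕ) : ℤ))))
      (fun j => (j.1, j.2)) (2 * ε₁) (by positivity) (fun i _ => by positivity) (by
        rw [sum_const, card_univ, Fintype.card_fin, nsmul_eq_mul]
        apply le_of_eq
        field_simp) (fun j _ => ((hM m μ H j.1 x (by omega)).1 j.2).1) (by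
        intro F hF
        have h2 := hTV x (fun o z => F (o, z)) (fun o z => hF _)
        rw [win_sum] at h2
        have e1 : ∑ i : Fin H, 1 / (H : ℝ) * F (oc m (x + ((i : ℕ) : ℤ)), T^[m] (x + ((i : ℕ) : ℤ))) =
            (∑ i : Fin H, F (oc m (x + ((i : ℕ) : ℤ)), T^[m] (x + ((i : ℕ) : ℤ)))) / H := by
          rw [← mul_sum]
          ring
        rw [e1, sum_sigma]
        linarith) k Ψ hΨ
    have e2 : Fintype.piFinset (fun _ : Fin k => (univ : Finset (Fin H))) = univ := by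
      ext h
      simp
    rw [e2, pi_sigma (Typ K m) (fun o => Jw m o H x)] at h1
    have e3 : ∑ h : Fin k → Fin H, (∏ _l : Fin k, 1 / (H : ℝ)) *
        Ψ (fun l => (oc m (x + ((h l : ℕ) : ℤ)), T^[m] (x + ((h l : ℕ) : ℤ)))) =
        (∑ h : Fin k → Fin H, Ph π G (V0 (m + r) x h)) / (H : ℝ) ^ k := by
      rw [sum_div]
      apply sum_congr rfl
      intro h _
      rw [V0_split, prod_const, card_univ, Fintype.card_fin, one_div, inv_pow, ← div_eq_inv_mul]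
    rw [e3] at h1
    refine h1.trans ?_
    have h3 : (1 + 2 * ε₁) ^ k ≤ (2 : ℝ) ^ k := pow_le_pow_left₀ (by positivity) (by linarith) k
    exact mul_le_mul_of_nonneg_left h3 (by positivity)
  -- step 2: fixed numbers of odd steps
  set S1 : (Fin k → ℕ) → ℝ := fun o => ∑ x ∈ Ico a (a + L), ∑ z ∈ Fintype.piFinset (fun i => Jw m (o i) H x),
    (∏ i, den m μ H (o i) (z i) / ((m.choose (o i) : ℝ) / 2 ^ m)) * Ph π G (fut r o z) with hS1
  have hstep2 : ∀ o ∈ Fintype.piFinset (fun _ : Fin k => Typ K m),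
      |S1 o - CG (Fm π G) r (fun i => (o i : ℤ)) * L| ≤ 2 ^ k * (2 * ε₁ + 2 * (k * ε₁) + ε₁) * L := by
    intro o ho
    rw [Fintype.mem_piFinset] at ho
    have hlnpos : ∀ i, 0 < ln m (o i) H := by
      intro i
      unfold ln
      positivity
    have hθ : ∀ i, 3 ^ μ / ln m (o i) H ≤ ε₁ := by
      intro i
      rw [div_le_iff₀ (hlnpos i)]
      exact (hlnT (o i) (ho i)).1
    refine fixed_o hSh hL hQ o (fun i z => den m μ H (o i) z / ((m.choose (o i) : ℝ) / 2 ^ m))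
      (fun z => Ph π G (fut r o z)) (fun z => hPh _) (CG_abs (Fm_abs π hG) r _) hε₁0.le (by linarith)
      hε₁0.le ?_ ?_ ?_ (fun i => (hlnT (o i) (ho i)).2) (fun i => min'_le _ _ (ho i)) hsz ?_
    · intro i z
      have hb := bin_pos (ho i)
      obtain ⟨h1, h2⟩ := (hM m μ H (o i) a (by omega)).1 z
      refine ⟨div_nonneg h1 hb.le, ?_⟩
      rw [div_le_iff₀ hb]
      refine h2.trans ?_
      rw [mul_comm ε₁]
      exact mul_le_mul_of_nonneg_left (hθ i) hb.le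
    · intro i z
      rw [(hM m μ H (o i) a (by omega)).2.1 z]
    · intro i x
      have hb := bin_pos (ho i)
      have h1 := (hM m μ H (o i) x (by omega)).2.2
      rw [← sum_div]
      have e : (∑ z ∈ Jw m (o i) H x, den m μ H (o i) z) / ((m.choose (o i) : ℝ) / 2 ^ m) - 1 =
          (∑ z ∈ Jw m (o i) H x, den m μ H (o i) z - (m.choose (o i) : ℝ) / 2 ^ m) /
            ((m.choose (o i) : ℝ) / 2 ^ m) := by
        rw [sub_div, div_self hb.ne']
      rw [e, abs_div, abs_of_pos hb, div_le_iff₀ hb]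
      refine h1.trans ?_
      rw [mul_comm ε₁]
      exact mul_le_mul_of_nonneg_left (hθ i) hb.le
    · intro x z hz
      rw [Fintype.mem_piFinset] at hz
      have hOff := hoff H (by omega) m r hr hd1 hmc k o ho x z hz
      exact hin r hrr o z hOff o₀ (fun i => min'_le _ _ (ho i)) (3 ^ μ) (by
        rw [Nat.pow_mod]; norm_num) π G hG hGL
  -- step 3: sum up
  have hstep3 : (∑ x ∈ Ico a (a + L), B x) / L = ∑ o ∈ Fintype.piFinset (fun _ : Fin k => Typ K m),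
      (∏ i, (m.choose (o i) : ℝ) / 2 ^ m) * (S1 o / L) := by
    rw [hBd]
    simp only
    rw [sum_comm, sum_div]
    apply sum_congr rfl
    intro o ho
    rw [Fintype.mem_piFinset] at ho
    rw [mul_div_assoc']
    congr 1
    rw [hS1]
    simp only
    rw [mul_sum]
    apply sum_congr rfl
    intro x _
    rw [mul_sum]
    apply sum_congr rfl
    intro z _
    rw [← mul_assoc, ← prod_mul_distrib]
    congr 1
    apply prod_congr rfl
    intro i _
    rw [mul_div_cancel₀ _ (bin_pos (ho i)).ne']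
  have hbinnn : ∀ o : Fin k → ℕ, 0 ≤ ∏ i, (m.choose (o i) : ℝ) / 2 ^ m := fun o => prod_nonneg fun i _ => by positivity
  have hbinsum : ∑ o ∈ Fintype.piFinset (fun _ : Fin k => Typ K m), ∏ i, (m.choose (o i) : ℝ) / 2 ^ m ≤ 1 := by
    have e := prod_univ_sum (t := fun _ : Fin k => Typ K m) (f := fun _ o => (m.choose o : ℝ) / 2 ^ m)
    rw [← e]
    apply prod_le_one
    · intro i _
      exact sum_nonneg fun o _ => by positivity
    · intro i _
      exact bin_sum K m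
  have hstep4 : |(∑ x ∈ Ico a (a + L), B x) / L - ∑ o ∈ Fintype.piFinset (fun _ : Fin k => Typ K m),
      (∏ i, (m.choose (o i) : ℝ) / 2 ^ m) * CG (Fm π G) r (fun i => (o i : ℤ))| ≤
      2 ^ k * (2 * ε₁ + 2 * (k * ε₁) + ε₁) := by
    rw [hstep3, ← sum_sub_distrib]
    have h1 : ∀ o ∈ Fintype.piFinset (fun _ : Fin k => Typ K m),
        |(∏ i, (m.choose (o i) : ℝ) / 2 ^ m) * (S1 o / L) -
          (∏ i, (m.choose (o i) : ℝ) / 2 ^ m) * CG (Fm π G) r (fun i => (o i : ℤ))| ≤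
        (∏ i, (m.choose (o i) : ℝ) / 2 ^ m) * (2 ^ k * (2 * ε₁ + 2 * (k * ε₁) + ε₁)) := by
      intro o ho
      rw [← mul_sub, abs_mul, abs_of_nonneg (hbinnn o)]
      apply mul_le_mul_of_nonneg_left _ (hbinnn o)
      have h2 := hstep2 o ho
      have e : S1 o / L - CG (Fm π G) r (fun i => (o i : ℤ)) =
          (S1 o - CG (Fm π G) r (fun i => (o i : ℤ)) * L) / L := by
        field_simp
      rw [e, abs_div, abs_of_pos hLr, div_le_iff₀ hLr]
      exact h2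
    refine (abs_sum_le_sum_abs _ _).trans ((sum_le_sum h1).trans ?_)
    rw [← sum_mul]
    have h0 : (0 : ℝ) ≤ 2 ^ k * (2 * ε₁ + 2 * (k * ε₁) + ε₁) := by positivity
    calc _ ≤ 1 * (2 ^ k * (2 * ε₁ + 2 * (k * ε₁) + ε₁)) := mul_le_mul_of_nonneg_right hbinsum h0
      _ = _ := one_mul _
  have hstep5 := hB k m K hK0 (fun z => CG (Fm π G) r z) (fun z => CG_abs (Fm_abs π hG) r z)
  have hkK : (k : ℝ) / K ^ 2 = k * ε₁ := by rw [← hKe]; ring
  rw [hkK] at hstep5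
  -- the average over `x`
  have hstep6 : |Ab k H L (m + r) a (Ph π G) - (∑ x ∈ Ico a (a + L), B x) / L| ≤ k * (2 * ε₁) * 2 ^ k := by
    have e1 : Ab k H L (m + r) a (Ph π G) =
        (∑ x ∈ Ico a (a + L), (∑ h : Fin k → Fin H, Ph π G (V0 (m + r) x h)) / (H : ℝ) ^ k) / L := by
      unfold Ab
      rw [← sum_div, div_div, mul_comm (L : ℝ)]
    rw [e1, ← sub_div, ← sum_sub_distrib, abs_div, abs_of_pos hLr, div_le_iff₀ hLr]
    refine (abs_sum_le_sum_abs _ _).trans ((sum_le_sum (fun x _ => hstep1 x)).trans (le_of_eq ?_))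
    rw [sum_const, nsmul_eq_mul, Int.card_Ico, show (a + (L : ℤ) - a).toNat = L by omega]
    ring
  have h7 := abs_sub_le (Ab k H L (m + r) a (Ph π G)) ((∑ x ∈ Ico a (a + L), B x) / L)
    (∑ o ∈ Fintype.piFinset (fun _ : Fin k => Typ K m),
      (∏ i, (m.choose (o i) : ℝ) / 2 ^ m) * CG (Fm π G) r (fun i => (o i : ℤ)))
  have h8 := abs_sub_le (Ab k H L (m + r) a (Ph π G)) (∑ o ∈ Fintype.piFinset (fun _ : Fin k => Typ K m),
      (∏ i, (m.choose (o i) : ℝ) / 2 ^ m) * CG (Fm π G) r (fun i => (o i : ℤ)))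
      (act k (PP k ^ m) (CG (Fm π G) r) 0)
  have h9 : act k (PP k ^ m) (fun z => CG (Fm π G) r z) 0 = act k (PP k ^ m) (CG (Fm π G) r) 0 := rfl
  rw [h9] at hstep5
  have h2k : (1 : ℝ) ≤ 2 ^ k := one_le_pow₀ (by norm_num)
  have hkε : (k : ℝ) * ε₁ ≤ k * ε₁ * 2 ^ k := by
    have : (0 : ℝ) ≤ k * ε₁ := by positivity
    nlinarith
  have h10 : (k : ℝ) * (2 * ε₁) * 2 ^ k + 2 ^ k * (2 * ε₁ + 2 * (k * ε₁) + ε₁) + k * ε₁ * 2 ^ k = D * ε₁ := by
    rw [hD]; ring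
  linarith

end Pool.Agent.Q74.BH
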