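import Pool.Agent.Q74.BH.Res

/-! # Project BH: the flow, final form -/

set_option autoImplicit false

namespace Pool.Agent.Q74.BH

open Finset
open Pool.Agent.Q74.KP
open Pool.Agent.Q74.SF
open Pool.Agent.Q74.AR (oc)
open Pool.Agent.Q158.Pair (T)
open Pool.Agent.Q158.Col4 (cI)

open Classical in
theorem flow_key (hFu : S_Full) (hLe : S_Lev) (k : ℕ) {Λ κ ε : ℝ} (hΛ : 0 ≤ Λ) (hκ : 0 < κ) (hε : 0 < ε) : ∃ t₀ : ℕ,
    ∀ t : ℕ, t₀ ≤ t → ∀ H L : ℕ, 1 ≤ H → H ≤ L → (1 + κ) * t ≤ cI * Real.log H + Real.logb 2 (L / H) → ∀ a : ℤ,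
      ∀ (π : Fin k → Fin k) (G : (Fin k → ℝ) → ℝ), (∀ x, |G x| ≤ 1) →
        (∀ x y, |G x - G y| ≤ Λ * ∑ i, |x i - y i|) →
        |(∑ x ∈ Ico a (a + L), ∑ h : Fin k → Fin H,
            (if ∀ i j, T^[t] (x + ((h i : ℕ) : ℤ)) = T^[t] (x + ((h j : ℕ) : ℤ)) ↔ π i = π j then
              G (fun i => (oc t (x + ((h i : ℕ) : ℤ)) - t / 2) / √t) else 0)) / (L * (H : ℝ) ^ k) -
          FR (CG (fun z => if ∀ i j, z i = z j ↔ π i = π j then G (fun i => (z i - t / 2) / √t) else 0)
            (t - fr t H)) (fr t H) 0| ≤ ε := by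
  obtain ⟨t₁, h1⟩ := hFu k Λ κ (ε / 2) hΛ hκ (by positivity)
  obtain ⟨t₂, h2⟩ := hLe κ (ε / (2 * (k ^ 2 + 1))) hκ (by positivity)
  refine ⟨t₁ + t₂ + 1, fun t ht H L hH hHL hhor a π G hG hGL => ?_⟩
  have hL : 1 ≤ L := hH.trans hHL
  have ht0 : (0 : ℝ) < t := by
    have : 0 < t := by omega
    exact_mod_cast this
  have hst : 0 < √(t : ℝ) := Real.sqrt_pos.2 ht0
  have hg1 : ∀ z : Fin k → ℤ, |(fun z : Fin k → ℤ => G (fun i => (z i - t / 2) / √t)) z| ≤ 1 := fun z => hG _
  have h3 := h1 t (by omega) H L hH hHL hhor a π (fun z => G (fun i => (z i - t / 2) / √t)) hg1 (fun z w => by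
          refine (hGL _ _).trans (le_of_eq ?_)
          rw [div_mul_eq_mul_div, mul_div_assoc, sum_div]
          congr 1
          apply sum_congr rfl
          intro i _
          rw [← sub_div, abs_div, abs_of_pos hst]
          congr 2
          ring)
  have h4 := val_pat k hH hL (by positivity) (h2 t (by omega) H L hH hHL hhor a) π
    (fun z => G (fun i => (z i - t / 2) / √t)) hg1
  have h5 : (k : ℝ) ^ 2 * (ε / (2 * (k ^ 2 + 1))) ≤ ε / 2 := by
    rw [← mul_div_assoc, div_le_div_iff₀ (by positivity) (by norm_num)]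
    nlinarith [sq_nonneg (k : ℝ)]
  rw [← fr_eq] at h3
  have e1 : (∑ x ∈ Ico a (a + (L : ℤ)), ∑ h : Fin k → Fin H,
            (if ∀ i j, T^[t] (x + ((h i : ℕ) : ℤ)) = T^[t] (x + ((h j : ℕ) : ℤ)) ↔ π i = π j then
              G (fun i => (oc t (x + ((h i : ℕ) : ℤ)) - t / 2) / √t) else 0)) / (L * (H : ℝ) ^ k) =
      Ab k H L t a (fun V => pat π (fun i => (V i).2) * (fun z : Fin k → ℤ => G (fun i => (z i - t / 2) / √t))
        (fun i => (V i).1)) := by
    unfold Ab
    congr 1
    apply sum_congr rfl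
    intro x _
    apply sum_congr rfl
    intro h _
    unfold pat V0
    simp only
    rw [ite_mul, one_mul, zero_mul]
    push_cast
    rfl
  have e2 : (fun z : Fin k → ℤ => if ∀ i j, z i = z j ↔ π i = π j then G (fun i => (z i - t / 2) / √t) else 0) =
      Fm π (fun z => G (fun i => (z i - t / 2) / √t)) := by
    funext z
    unfold Fm pat
    rw [ite_mul, one_mul, zero_mul]
    split_ifs <;> rfl
  have e3 : ∀ F : (Fin k → ℤ) → ℝ, FR (CG F (t - fr t H)) (fr t H) 0 = act k (PP k ^ fr t H) (CG F (t - fr t H)) 0 :=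
    fun F => FR_act _ _ _
  rw [e1, e2, e3]
  rw [abs_le] at *
  constructor <;> linarith [h3.1, h3.2, h4.1, h4.2]

theorem hiter {F : ℤ → ℕ} (hF : ∀ x, F (T x) = F x) (m : ℕ) : ∀ x : ℤ, F (T^[m] x) = F x := by
  induction m with
  | zero => intro x; rfl
  | succ m ih =>
    intro x
    rw [Function.iterate_succ_apply, ih, hF]

open Classical in
theorem ncard_fin {k H : ℕ} (P : (Fin k → Fin H) → Prop) :
    ({h : Fin k → Fin H | P h}.ncard : ℝ) = ∑ h : Fin k → Fin H, if P h then (1 : ℝ) else 0 := by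
  rw [← Finset.coe_filter_univ, Set.ncard_coe_finset, card_filter]
  push_cast
  rfl

open Classical in
theorem flow_inv (hFu : S_Full) (hLe : S_Lev) (k : ℕ) {κ ε : ℝ} (hκ : 0 < κ) (hε : 0 < ε) : ∃ t₀ : ℕ,
    ∀ t : ℕ, t₀ ≤ t → ∀ H L : ℕ, 1 ≤ H → H ≤ L → (1 + κ) * t ≤ cI * Real.log H + Real.logb 2 (L / H) → ∀ a : ℤ,
      ∀ F : ℤ → ℕ, (∀ x, F (T x) = F x) →
        (∑ x ∈ Ico a (a + L), ({h : Fin k → Fin H |
            Function.Injective (fun i => F (x + ((h i : ℕ) : ℤ)))}.ncard : ℝ)) / (L * (H : ℝ) ^ k) ≤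
          FR (CG (fun z : Fin k → ℤ => if Function.Injective z then 1 else 0) (t - fr t H)) (fr t H) 0 + ε ∧
        FR (CG (fun z : Fin k → ℤ => if ∀ i j, z i = z j then 1 else 0) (t - fr t H)) (fr t H) 0 - ε ≤
          (∑ x ∈ Ico a (a + L), ({h : Fin k → Fin H |
            ∀ i j, F (x + ((h i : ℕ) : ℤ)) = F (x + ((h j : ℕ) : ℤ))}.ncard : ℝ)) / (L * (H : ℝ) ^ k) := by
  obtain ⟨t₀, h0⟩ := flow_key hFu hLe k le_rfl hκ hε
  refine ⟨t₀, fun t ht H L hH hHL hhor a F hF => ⟨?_, ?_⟩⟩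
  · have h1 := (abs_le.1 (h0 t ht H L hH hHL hhor a id (fun _ => 1) (fun _ => by rw [abs_one]) (fun x y => by
      rw [sub_self, abs_zero, zero_mul]))).2
    have e2 : (fun z : Fin k → ℤ => if ∀ i j, z i = z j ↔ id i = id j then (1 : ℝ) else 0) =
        fun z => if Function.Injective z then 1 else 0 := by
      funext z
      by_cases hz : Function.Injective z
      · rw [if_pos hz, if_pos]
        intro i j
        exact hz.eq_iff
      · rw [if_neg hz, if_neg]
        intro h
        exact hz fun i j hij => (h i j).1 hij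
    rw [e2] at h1
    have h2 : (∑ x ∈ Ico a (a + L), ({h : Fin k → Fin H |
            Function.Injective (fun i => F (x + ((h i : ℕ) : ℤ)))}.ncard : ℝ)) / (L * (H : ℝ) ^ k) ≤
        (∑ x ∈ Ico a (a + (L : ℤ)), ∑ h : Fin k → Fin H,
            (if ∀ i j, T^[t] (x + ((h i : ℕ) : ℤ)) = T^[t] (x + ((h j : ℕ) : ℤ)) ↔ id i = id j then
              (1 : ℝ) else 0)) / (L * (H : ℝ) ^ k) := by
      apply div_le_div_of_nonneg_right _ (by positivity)
      apply sum_le_sum
      intro x _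
      rw [ncard_fin]
      apply sum_le_sum
      intro h _
      by_cases hn : Function.Injective (fun i => F (x + ((h i : ℕ) : ℤ)))
      · rw [if_pos hn, if_pos]
        intro i j
        constructor
        · intro hij
          apply hn
          show F (x + ((h i : ℕ) : ℤ)) = F (x + ((h j : ℕ) : ℤ))
          rw [← hiter hF t (x + ((h i : ℕ) : ℤ)), hij, hiter hF]
        · intro hij
          have hij' : i = j := hij
          rw [hij']
      · rw [if_neg hn]
        split_ifs <;> norm_num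
    linarith
  · rcases isEmpty_or_nonempty (Fin k) with hk | hk
    · have e1 : (fun z : Fin k → ℤ => if ∀ i j, z i = z j then (1 : ℝ) else 0) =
          fun z => if ∀ i j, z i = z j ↔ id i = id j then (1 : ℝ) else 0 := by
        funext z
        rw [if_pos (fun i => hk.elim i), if_pos (fun i => hk.elim i)]
      have h3 := (abs_le.1 (h0 t ht H L hH hHL hhor a id (fun _ => 1) (fun _ => by rw [abs_one]) (fun x y => by
        rw [sub_self, abs_zero, zero_mul]))).1
      rw [← e1] at h3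
      have e4 : (∑ x ∈ Ico a (a + (L : ℤ)), ∑ h : Fin k → Fin H,
            (if ∀ i j, T^[t] (x + ((h i : ℕ) : ℤ)) = T^[t] (x + ((h j : ℕ) : ℤ)) ↔ id i = id j then
              (1 : ℝ) else 0)) / (L * (H : ℝ) ^ k) = (∑ x ∈ Ico a (a + (L : ℤ)), ({h : Fin k → Fin H |
            ∀ i j, F (x + ((h i : ℕ) : ℤ)) = F (x + ((h j : ℕ) : ℤ))}.ncard : ℝ)) / (L * (H : ℝ) ^ k) := by
        congr 1
        apply sum_congr rfl
        intro x _
        rw [ncard_fin]
        apply sum_congr rfl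
        intro h _
        rw [if_pos (fun i => hk.elim i), if_pos (fun i => hk.elim i)]
      rw [e4] at h3
      linarith
    · obtain ⟨i₀⟩ := hk
      have h3 := (abs_le.1 (h0 t ht H L hH hHL hhor a (fun _ => i₀) (fun _ => 1) (fun _ => by rw [abs_one]) (fun x y => by
        rw [sub_self, abs_zero, zero_mul]))).1
      have e2 : (fun z : Fin k → ℤ => if ∀ i j, z i = z j ↔ (fun _ => i₀) i = (fun _ => i₀) j
          then (1 : ℝ) else 0) = fun z => if ∀ i j, z i = z j then 1 else 0 := by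
        funext z
        simp
      rw [e2] at h3
      have h4 : (∑ x ∈ Ico a (a + (L : ℤ)), ∑ h : Fin k → Fin H,
              (if ∀ i j, T^[t] (x + ((h i : ℕ) : ℤ)) = T^[t] (x + ((h j : ℕ) : ℤ)) ↔
                (fun _ => i₀) i = (fun _ => i₀) j then
                (1 : ℝ) else 0)) / (L * (H : ℝ) ^ k) ≤
          (∑ x ∈ Ico a (a + (L : ℤ)), ({h : Fin k → Fin H |
            ∀ i j, F (x + ((h i : ℕ) : ℤ)) = F (x + ((h j : ℕ) : ℤ))}.ncard : ℝ)) / (L * (H : ℝ) ^ k) := by
        apply div_le_div_of_nonneg_right _ (by positivity)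
        apply sum_le_sum
        intro x _
        rw [ncard_fin]
        apply sum_le_sum
        intro h _
        split_ifs with c1 c2
        · exact le_rfl
        · exfalso
          apply c2
          intro i j
          rw [← hiter hF t (x + ((h i : ℕ) : ℤ)), (c1 i j).2 rfl, hiter hF]
        · norm_num
        · norm_num
      have h5 := h3.trans (sub_le_sub_right h4 _)
      linarith

end Pool.Agent.Q74.BH
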