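import Pool.Agent.Q74.BH.High3

/-! # Project BH: the theorem for all `H`, up to the time `(cI log H + log_2 (L / H)) / (1 + κ)` -/

set_option autoImplicit false

namespace Pool.Agent.Q74.BH

open Finset
open Pool.Agent.Q74.KP
open Pool.Agent.Q74.SF
open Pool.Agent.Q74.AR (oc oc_succ oc_per bE bE_mono bE_mul)
open Pool.Agent.Q158.Pair (T)
open Pool.Agent.Q158.Col4 (cI)

variable {k : ℕ}

/-- THE THEOREM for all `H` -/
def S_Full : Prop := ∀ (k : ℕ) (Λ κ ε : ℝ), 0 ≤ Λ → 0 < κ → 0 < ε → ∃ t₀ : ℕ, ∀ t : ℕ, t₀ ≤ t →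
  ∀ H L : ℕ, 1 ≤ H → H ≤ L → (1 + κ) * t ≤ cI * Real.log H + Real.logb 2 (L / H) →
  ∀ (a : ℤ) (π : Fin k → Fin k) (G : (Fin k → ℤ) → ℝ), (∀ z, |G z| ≤ 1) →
  (∀ z w : Fin k → ℤ, |G z - G w| ≤ Λ / √t * ∑ i, |(z i : ℝ) - w i|) →
  |Ab k H L t a (Ph π G) -
    act k (PP k ^ min t ⌊cI * Real.log H⌋₊) (CG (Fm π G) (t - min t ⌊cI * Real.log H⌋₊)) 0| ≤ ε

/-- the model: coincidences are rare, and the places are those of free walkers -/
theorem model_far (hI : S_CInj) (hCo : S_Comp) (k : ℕ) {Λ ε : ℝ} (hΛ : 0 ≤ Λ) (hε : 0 < ε) : ∃ κ : ℝ, 0 < κ ∧ κ ≤ 1 / 4 ∧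
    ∃ m₀ : ℕ, ∀ t m : ℕ, m₀ ≤ t → m ≤ t → ((t - m : ℕ) : ℝ) ≤ κ * t → ∀ (π : Fin k → Fin k) (G : (Fin k → ℤ) → ℝ),
    (∀ z, |G z| ≤ 1) → (∀ z w : Fin k → ℤ, |G z - G w| ≤ Λ / √(t : ℝ) * ∑ i, |(z i : ℝ) - w i|) →
    ∀ P : ℝ, |P| ≤ 1 → (∀ (v : Fin k → ℤ), |pat π v - P| ≤ 1 - pat id v) →
    |act k (PP k ^ m) (CG (Fm π G) (t - m)) 0 - P * act k (PP k ^ t) G 0| ≤ ε := by
  obtain ⟨κf, hκf, m₀, hmodel⟩ := far_model hI k (show 0 < ε / 2 by positivity)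
  have hk0 : (0 : ℝ) ≤ k := Nat.cast_nonneg k
  set A : ℝ := 2 * Λ * k with hA
  have hA0 : 0 ≤ A := by positivity
  obtain ⟨κ, hκ, hκ1, hκ2, hκ3⟩ : ∃ κ : ℝ, 0 < κ ∧ κ ≤ 1 / 4 ∧ κ ≤ κf / 2 ∧ 2 * (A ^ 2 + 1) * κ ≤ (ε / 2) ^ 2 := by
    refine ⟨min (1 / 4) (min (κf / 2) ((ε / 2) ^ 2 / (2 * (A ^ 2 + 1)))), by positivity,
      min_le_left _ _, (min_le_right _ _).trans (min_le_left _ _), ?_⟩
    have := (min_le_right (1 / 4) (min (κf / 2) ((ε / 2) ^ 2 / (2 * (A ^ 2 + 1))))).trans (min_le_right _ _)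
    rw [le_div_iff₀ (by positivity)] at this
    linarith
  obtain ⟨t₂, ht₂⟩ := exists_nat_ge (1 / κ)
  refine ⟨κ, hκ, hκ1, 2 * m₀ + t₂ + 1, fun t m ht hmt hr π G hG hGL P hP1 hpat => ?_⟩
  have ht0 : (0 : ℝ) < t := by
    have : 0 < t := by omega
    exact_mod_cast this
  have hκt : 1 ≤ κ * t := by
    have h1 : 1 / κ ≤ t := ht₂.trans (by exact_mod_cast (by omega : t₂ ≤ t))
    rw [div_le_iff₀ hκ] at h1
    linarith
  have hm0 : m₀ ≤ m := by
    rw [Nat.cast_sub hmt] at hr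
    have h1 : (t : ℝ) / 2 ≤ m := by nlinarith
    have h2 : (2 : ℝ) * m₀ ≤ t := by exact_mod_cast (by omega : 2 * m₀ ≤ t)
    have h3 : (m₀ : ℝ) ≤ m := by linarith
    exact_mod_cast h3
  have hrm : ((t - m : ℕ) : ℝ) ≤ κf * m := by
    have h1 : κ * t ≤ κf / 2 * t := mul_le_mul_of_nonneg_right hκ2 ht0.le
    have h2 : (t : ℝ) / 2 ≤ m := by
      rw [Nat.cast_sub hmt] at hr
      nlinarith
    have h3 : κf * ((t : ℝ) / 2) ≤ κf * m := mul_le_mul_of_nonneg_left h2 hκf.le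
    linarith
  set l : ℝ := Λ / √(t : ℝ) with hl
  have hl0 : 0 ≤ l := by positivity
  have hst : 0 < √(t : ℝ) := Real.sqrt_pos.2 ht0
  have herr : 2 * (l * (k * √(((t - m : ℕ) : ℝ) + 1))) ≤ ε / 2 := by
    have e1 : 2 * (l * (k * √(((t - m : ℕ) : ℝ) + 1))) = A * √(((t - m : ℕ) : ℝ) + 1) / √(t : ℝ) := by
      rw [hl, hA]
      ring
    rw [e1, div_le_iff₀ hst]
    have h1 : A ^ 2 * (((t - m : ℕ) : ℝ) + 1) ≤ (ε / 2) ^ 2 * t := by
      have h2 : ((t - m : ℕ) : ℝ) + 1 ≤ 2 * κ * t := by linarith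
      calc A ^ 2 * (((t - m : ℕ) : ℝ) + 1) ≤ (A ^ 2 + 1) * (2 * κ * t) :=
            mul_le_mul (by linarith) h2 (by positivity) (by positivity)
        _ = 2 * (A ^ 2 + 1) * κ * t := by ring
        _ ≤ (ε / 2) ^ 2 * t := mul_le_mul_of_nonneg_right hκ3 ht0.le
    have h2 := Real.sqrt_le_sqrt h1
    rw [Real.sqrt_mul (by positivity), Real.sqrt_mul (by positivity), Real.sqrt_sq hA0, Real.sqrt_sq (by positivity)] at h2
    exact h2
  have hCC : |act k (PP k ^ m) (CG (Fm π G) (t - m)) 0 - P * act k (PP k ^ m) (CG G (t - m)) 0| ≤ ε / 2 := by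
    refine le_trans ?_ (hmodel m (t - m) hm0 hrm 0)
    have e1 : P * act k (PP k ^ m) (CG G (t - m)) 0 = act k (PP k ^ m) (fun z => P * CG G (t - m) z) 0 := by
      rw [act_scale]
    rw [e1, ← act_sub']
    have h1 : ∀ z, |CG (Fm π G) (t - m) z - P * CG G (t - m) z| ≤ CG (fun z => 1 - pat id z) (t - m) z := by
      intro z
      rw [← CG_mul, ← CG_sub]
      have h2 : ∀ y : Fin k → ℤ, |Fm π G y - P * G y| ≤ 1 - pat id y := by
        intro y
        unfold Fm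
        rw [← sub_mul, abs_mul]
        calc |pat π y - P| * |G y| ≤ (1 - pat id y) * 1 :=
              mul_le_mul (hpat y) (hG _) (abs_nonneg _) (by have := pat_le_one id y; linarith)
          _ = 1 - pat id y := mul_one _
      rw [abs_le]
      constructor
      · have h3 := CG_mono (F := fun y => (-1) * (1 - pat id y)) (G := fun y => Fm π G y - P * G y)
          (fun y => by have := (abs_le.1 (h2 y)).1; linarith) (t - m) z
        rw [CG_mul] at h3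
        linarith
      · exact CG_mono (fun y => (abs_le.1 (h2 y)).2) (t - m) z
    rw [abs_le]
    constructor
    · have h3 := act_mono (F := fun z => (-1) * CG (fun z => 1 - pat id z) (t - m) z)
        (G := fun z => CG (Fm π G) (t - m) z - P * CG G (t - m) z) m
        (fun z => by have := (abs_le.1 (h1 z)).1; linarith) (0 : Fin k → ℤ)
      rw [act_scale] at h3
      have e2 : (fun z => CG (fun z => 1 - pat id z) (t - m) z) = CG (fun z : Fin k → ℤ => 1 - pat id z) (t - m) := rfl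
      linarith
    · exact act_mono m (fun z => (abs_le.1 (h1 z)).2) 0
  have hDD : |act k (PP k ^ m) (CG G (t - m)) 0 - act k (PP k ^ t) G 0| ≤ ε / 2 := by
    have e1 : act k (PP k ^ t) G 0 = act k (PP k ^ m) (act k (PP k ^ (t - m)) G) 0 := by
      rw [← act_mul, ← pow_add, Nat.add_sub_cancel' hmt]
    rw [e1, ← act_sub']
    refine le_trans (act_abs m (K := 2 * (l * (k * √(((t - m : ℕ) : ℝ) + 1)))) (fun z => ?_) 0) herr
    have h1 := CG_near hCo hl0 hGL (t - m) z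
    have h2 := act_near hl0 hGL (t - m) z
    have h3 := abs_sub_le (CG G (t - m) z) (G (fun i => z i + ((t - m) / 2 : ℕ))) (act k (PP k ^ (t - m)) G z)
    rw [abs_sub_comm (G (fun i => z i + ((t - m) / 2 : ℕ)))] at h3
    linarith
  have hPD : |P * act k (PP k ^ m) (CG G (t - m)) 0 - P * act k (PP k ^ t) G 0| ≤ ε / 2 := by
    rw [← mul_sub, abs_mul]
    calc |P| * _ ≤ 1 * (ε / 2) := mul_le_mul hP1 hDD (abs_nonneg _) zero_le_one
      _ = _ := one_mul _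
  have h9 := abs_sub_le (act k (PP k ^ m) (CG (Fm π G) (t - m)) 0) (P * act k (PP k ^ m) (CG G (t - m)) 0)
    (P * act k (PP k ^ t) G 0)
  linarith

/-- large `H` -/
theorem highB (hMa : S_Main) (hFr : S_FreeA) (hO : S_One) (hI : S_CInj) (hCo : S_Comp) (k : ℕ) {Λ κ ε : ℝ}
    (hΛ : 0 ≤ Λ) (hκ : 0 < κ) (hε : 0 < ε) : ∃ κ₂ : ℝ, 0 < κ₂ ∧ κ₂ < 1 ∧ ∃ t₀ : ℕ, ∀ t : ℕ, t₀ ≤ t →
      ∀ H L : ℕ, 1 ≤ H → 1 ≤ L → (1 - κ₂) * t ≤ cI * Real.log H →
      (1 + κ) * t ≤ cI * Real.log H + Real.logb 2 (L / H) →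
      ∀ (a : ℤ) (π : Fin k → Fin k) (G : (Fin k → ℤ) → ℝ), (∀ z, |G z| ≤ 1) →
      (∀ z w : Fin k → ℤ, |G z - G w| ≤ Λ / √t * ∑ i, |(z i : ℝ) - w i|) →
      |Ab k H L t a (Ph π G) -
        act k (PP k ^ min t ⌊cI * Real.log H⌋₊) (CG (Fm π G) (t - min t ⌊cI * Real.log H⌋₊)) 0| ≤ ε := by
  classical
  set κ' : ℝ := min κ 1 with hκ'
  have hκ'0 : 0 < κ' := by positivity
  obtain ⟨κa, hκa, hdis⟩ := distinct hMa hFr hI k hκ'0 (min_le_right _ _) (show 0 < ε / 4 by positivity)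
  obtain ⟨κb, hκb, hpl⟩ := placesB hFr hO k hΛ hκ (show 0 < ε / 4 by positivity)
  obtain ⟨κc, hκc, hκc1, m₀, hmod⟩ := model_far hI hCo k hΛ (show 0 < ε / 4 by positivity)
  set κ₂ : ℝ := min (min κa κb) (κc / 2) with hκ₂
  have hκ₂0 : 0 < κ₂ := by positivity
  have hκ₂c : κ₂ ≤ κc / 2 := min_le_right _ _
  obtain ⟨H₁, hH₁⟩ := hdis κ₂ hκ₂0 ((min_le_left _ _).trans (min_le_left _ _))
  obtain ⟨H₂, hH₂⟩ := hpl κ₂ hκ₂0 ((min_le_left _ _).trans (min_le_right _ _))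
  have hcI := cI_pos
  obtain ⟨t₁, ht₁⟩ := exists_nat_ge (2 * (cI * Real.log (H₁ + H₂ + 1)) + 2 / κc + 2)
  refine ⟨κ₂, hκ₂0, by linarith, t₁ + m₀ + 1, fun t ht H L hH hL hX hhor a π G hG hGL => ?_⟩
  have htr : (t₁ : ℝ) ≤ t := by exact_mod_cast (by omega : t₁ ≤ t)
  have hlog0 : 0 ≤ cI * Real.log (H₁ + H₂ + 1) := mul_nonneg hcI.le (Real.log_nonneg (by
    have h1 : (0 : ℝ) ≤ H₁ := Nat.cast_nonneg _
    have h2 : (0 : ℝ) ≤ H₂ := Nat.cast_nonneg _
    linarith))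
  have hκc2 : 0 < 2 / κc := by positivity
  have ht0 : (0 : ℝ) < t := by linarith
  set X := cI * Real.log H with hXd
  have hX1 : (t : ℝ) / 2 < X := by nlinarith
  have hHH : H₁ + H₂ < H := by
    by_contra hcon
    push Not at hcon
    have h1 : Real.log H ≤ Real.log (H₁ + H₂ + 1) := Real.log_le_log (by exact_mod_cast hH) (by
      have : (H : ℝ) ≤ H₁ + H₂ := by exact_mod_cast hcon
      linarith)
    have h2 : X ≤ cI * Real.log (H₁ + H₂ + 1) := mul_le_mul_of_nonneg_left h1 hcI.le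
    linarith
  have hhor' : (1 + κ') * t ≤ X + Real.logb 2 (L / H) := by
    refine le_trans ?_ hhor
    exact mul_le_mul_of_nonneg_right (by have := min_le_left κ 1; linarith) ht0.le
  have h1 := hH₁ t H L (by omega) hL hX hhor' a
  have h2 := hH₂ t H L (by omega) hL hX hhor a G hG hGL
  set m := min t ⌊X⌋₊ with hm
  have hmt : m ≤ t := min_le_left _ _
  have hr : ((t - m : ℕ) : ℝ) ≤ κc * t := by
    rw [Nat.cast_sub hmt]
    have h3 : (t : ℝ) - κ₂ * t - 1 ≤ (m : ℝ) := by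
      rw [hm, Nat.cast_min]
      apply le_min
      · nlinarith
      · have := Nat.lt_floor_add_one X
        linarith
    have h4 : κ₂ * t ≤ κc / 2 * t := mul_le_mul_of_nonneg_right hκ₂c ht0.le
    have h5 : 2 / κc ≤ t := by linarith
    rw [div_le_iff₀ hκc] at h5
    nlinarith
  set P : ℝ := if Function.Injective π then 1 else 0 with hPd
  have hP1 : |P| ≤ 1 := by
    rw [hPd]
    split_ifs <;> simp
  have h3 := hmod t m (by omega) hmt hr π G hG hGL P hP1 (fun v => pat_near π v)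
  have hAA : |Ab k H L t a (Ph π G) - P * Ab k H L t a (fun V => G (fun i => (V i).1))| ≤ ε / 4 := by
    rw [← Ab_mul]
    refine (Ab_close (Θ := fun V => 1 - pat id V) (fun V => ?_)).trans h1
    unfold Ph
    rw [← sub_mul, abs_mul]
    calc |pat π V - P| * |G (fun i => (V i).1)| ≤ (1 - pat id V) * 1 :=
          mul_le_mul (pat_near π V) (hG _) (abs_nonneg _) (by have := pat_le_one id V; linarith)
      _ = 1 - pat id V := mul_one _
  have hPB : |P * Ab k H L t a (fun V => G (fun i => (V i).1)) - P * act k (PP k ^ t) G 0| ≤ ε / 4 := by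
    rw [← mul_sub, abs_mul]
    calc |P| * _ ≤ 1 * (ε / 4) := mul_le_mul hP1 h2 (abs_nonneg _) zero_le_one
      _ = _ := one_mul _
  rw [abs_le] at *
  constructor <;> linarith [hAA.1, hAA.2, hPB.1, hPB.2, h3.1, h3.2]

/-- THE THEOREM for all `H` -/
theorem full (hMa : S_Main) (hFr : S_FreeA) (hO : S_One) (hI : S_CInj) (hCo : S_Comp) : S_Full := by
  intro k Λ κ ε hΛ hκ hε
  obtain ⟨κ₂, hκ₂, hκ₂1, t₁, h1⟩ := highB hMa hFr hO hI hCo k hΛ hκ hε
  obtain ⟨t₂, h2⟩ := hMa k Λ (min κ κ₂) ε hΛ (by positivity) hε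
  refine ⟨t₁ + t₂ + 1, fun t ht H L hH hHL hhor a π G hG hGL => ?_⟩
  have hL : 1 ≤ L := hH.trans hHL
  have ht0 : (0 : ℝ) < t := by
    have : 0 < t := by omega
    exact_mod_cast this
  have hX0 : 0 ≤ cI * Real.log H := mul_nonneg cI_pos.le (Real.log_nonneg (by exact_mod_cast hH))
  rcases le_total ((1 - κ₂) * t) (cI * Real.log H) with hc | hc
  · exact h1 t (by omega) H L hH hL hc hhor a π G hG hGL
  · have hk1 : min κ κ₂ ≤ κ := min_le_left _ _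
    have hk2 : min κ κ₂ ≤ κ₂ := min_le_right _ _
    have hXt : (1 + min κ κ₂) * (cI * Real.log H) ≤ t := by
      calc (1 + min κ κ₂) * (cI * Real.log H) ≤ (1 + κ₂) * (cI * Real.log H) :=
            mul_le_mul_of_nonneg_right (by linarith) hX0
        _ ≤ (1 + κ₂) * ((1 - κ₂) * t) := mul_le_mul_of_nonneg_left hc (by linarith)
        _ ≤ t := by nlinarith [sq_nonneg κ₂]
    have hmt : ⌊cI * Real.log H⌋₊ ≤ t := by
      have h3 : ((⌊cI * Real.log H⌋₊ : ℕ) : ℝ) ≤ cI * Real.log H := Nat.floor_le hX0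
      have h4 : ((⌊cI * Real.log H⌋₊ : ℕ) : ℝ) ≤ t := by nlinarith
      exact_mod_cast h4
    rw [min_eq_right hmt]
    refine h2 t (by omega) H L hH hL hXt ?_ a π G hG hGL
    refine le_trans ?_ hhor
    exact mul_le_mul_of_nonneg_right (by linarith) ht0.le

end Pool.Agent.Q74.BH
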