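import Pool.Agent.Q74.BH.One

/-! # Project BH: averages, and the time about `cI log H` -/

set_option autoImplicit false

namespace Pool.Agent.Q74.BH

open Finset
open Pool.Agent.Q74.KP
open Pool.Agent.Q74.SF
open Pool.Agent.Q74.AR (oc oc_succ oc_per bE bE_mono bE_mul)
open Pool.Agent.Q158.Pair (T)
open Pool.Agent.Q158.Col4 (cI)

variable {k : ℕ}

/-- the statement of `one` -/
def S_One : Prop := ∀ κ ε : ℝ, 0 < κ → 0 < ε → ∃ δ : ℝ, 0 < δ ∧ ∀ η : ℝ, 0 < η → ∃ H₀ : ℕ, ∀ H : ℕ, H₀ ≤ H →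
  ∀ m r L : ℕ, 1 ≤ L → cI * Real.log H ≤ (1 + δ) * m → (m : ℝ) ≤ (cI - η) * Real.log H →
  (1 + κ) * ((m : ℝ) + r) ≤ cI * Real.log H + Real.logb 2 (L / H) → ∀ (a : ℤ) (φ : ℕ → ℝ), (∀ n, |φ n| ≤ 1) →
  |(∑ x ∈ Ico a (a + L), ∑ i : Fin H, φ (oc r (T^[m] (x + ((i : ℕ) : ℤ))))) / (L * H) - bE r φ| ≤ ε

theorem one' (hT : S_TV) (hSh : S_Shift) (hSz : S_Size) (hLn : S_Ln) (hB : S_Binom) (hM : S_Mass) : S_One :=
  fun _ _ hκ hε => one hT hSh hSz hLn hB hM hκ hε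

/-! ## averages -/

theorem Ab_eq (k H L t : ℕ) (a : ℤ) (Φ : (Fin k → ℤ × ℤ) → ℝ) :
    Ab k H L t a Φ = (∑ x ∈ Ico a (a + L), (∑ h : Fin k → Fin H, Φ (V0 t x h)) / (H : ℝ) ^ k) / L := by
  unfold Ab
  rw [← sum_div, div_div, mul_comm (L : ℝ)]

theorem Ico_card (a : ℤ) (L : ℕ) : ((Ico a (a + (L : ℤ))).card : ℝ) = L := by
  rw [Int.card_Ico, show (a + (L : ℤ) - a).toNat = L by omega]

/-- averages over `x` -/
theorem avx_le {L : ℕ} (hL : 1 ≤ L) {a : ℤ} {f : ℤ → ℝ} {K : ℝ} (h : ∀ x ∈ Ico a (a + (L : ℤ)), f x ≤ K) :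
    (∑ x ∈ Ico a (a + L), f x) / L ≤ K := by
  have hLr : (0 : ℝ) < L := by exact_mod_cast hL
  rw [div_le_iff₀ hLr]
  refine (sum_le_sum h).trans (le_of_eq ?_)
  rw [sum_const, nsmul_eq_mul, Ico_card, mul_comm]

theorem avx_close {L : ℕ} (hL : 1 ≤ L) {a : ℤ} {f : ℤ → ℝ} {c K : ℝ} (h : ∀ x, |f x - c| ≤ K) :
    |(∑ x ∈ Ico a (a + L), f x) / L - c| ≤ K := by
  have hLr : (0 : ℝ) < L := by exact_mod_cast hL
  have e : (∑ x ∈ Ico a (a + L), f x) / L - c = (∑ x ∈ Ico a (a + L), (f x - c)) / L := by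
    rw [sum_sub_distrib, sum_const, nsmul_eq_mul, Ico_card]
    field_simp
  rw [e, abs_div, abs_of_pos hLr]
  refine le_trans (div_le_div_of_nonneg_right (abs_sum_le_sum_abs _ _) hLr.le) ?_
  exact avx_le hL fun x _ => h x

theorem Ab_close {H L t : ℕ} {a : ℤ} {Φ Ψ Θ : (Fin k → ℤ × ℤ) → ℝ} (h : ∀ V, |Φ V - Ψ V| ≤ Θ V) :
    |Ab k H L t a Φ - Ab k H L t a Ψ| ≤ Ab k H L t a Θ := by
  unfold Ab
  rw [← sub_div, ← sum_sub_distrib, abs_div, abs_of_nonneg (by positivity : (0 : ℝ) ≤ L * (H : ℝ) ^ k)]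
  refine div_le_div_of_nonneg_right ((abs_sum_le_sum_abs _ _).trans (sum_le_sum fun x _ => ?_)) (by positivity)
  rw [← sum_sub_distrib]
  exact (abs_sum_le_sum_abs _ _).trans (sum_le_sum fun _ _ => h _)

theorem Ab_mul {H L t : ℕ} {a : ℤ} (c : ℝ) (Φ : (Fin k → ℤ × ℤ) → ℝ) :
    Ab k H L t a (fun V => c * Φ V) = c * Ab k H L t a Φ := by
  unfold Ab
  rw [mul_div_assoc', mul_sum]
  congr 1
  apply sum_congr rfl
  intro x _
  rw [mul_sum]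

theorem Ab_sub {H L t : ℕ} {a : ℤ} (Φ Ψ : (Fin k → ℤ × ℤ) → ℝ) :
    Ab k H L t a (fun V => Φ V - Ψ V) = Ab k H L t a Φ - Ab k H L t a Ψ := by
  unfold Ab
  rw [← sub_div, ← sum_sub_distrib]
  congr 1
  apply sum_congr rfl
  intro x _
  rw [sum_sub_distrib]

theorem Ab_const {H L t : ℕ} {a : ℤ} (hH : 1 ≤ H) (hL : 1 ≤ L) (c : ℝ) : Ab k H L t a (fun _ => c) = c := by
  rw [Ab_eq]
  have hLr : (0 : ℝ) < L := by exact_mod_cast hL
  simp only [avg_const hH]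
  rw [sum_const, nsmul_eq_mul, Ico_card]
  field_simp

theorem V0_later {H : ℕ} (S r : ℕ) (x : ℤ) (h : Fin k → Fin H) {i l : Fin k} (hil : V0 S x h i = V0 S x h l) :
    V0 (S + r) x h i = V0 (S + r) x h l := by
  unfold V0 at *
  rw [Prod.mk.injEq] at hil ⊢
  obtain ⟨h1, h2⟩ := hil
  refine ⟨?_, ?_⟩
  · rw [oc_add, oc_add]
    push_cast
    rw [h1, h2]
  · rw [Nat.add_comm S r, Function.iterate_add_apply, Function.iterate_add_apply, h2]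

theorem pat_laterB {H : ℕ} (S r : ℕ) (x : ℤ) (h : Fin k → Fin H) :
    pat id (V0 (S + r) x h) ≤ pat id (V0 S x h) := by
  by_cases hi : Function.Injective (V0 (S + r) x h)
  · have h2 : Function.Injective (V0 S x h) := fun i j hij => hi (V0_later S r x h hij)
    rw [(pat_id_iff _).2 hi, (pat_id_iff _).2 h2]
  · rw [pat_id_zero hi]
    exact pat_nonneg _ _

/-- a function of one coordinate -/
theorem coord_sum {H : ℕ} (i : Fin k) (f : Fin H → ℝ) :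
    ∑ h : Fin k → Fin H, f (h i) = (H : ℝ) ^ (k - 1) * ∑ j : Fin H, f j := by
  classical
  rcases k with _ | k
  · exact i.elim0
  · rw [← (Fin.insertNthEquiv (fun _ : Fin (k + 1) => Fin H) i).sum_comp, Fintype.sum_prod_type]
    simp only [Fin.insertNthEquiv_apply, Fin.insertNth_apply_same, sum_const, card_univ, Fintype.card_fun,
      Fintype.card_fin, nsmul_eq_mul, Nat.add_sub_cancel]
    rw [← mul_sum]
    push_cast
    rfl

theorem coord_avg {H L : ℕ} (hH : 1 ≤ H) (a : ℤ) (i : Fin k) (g : ℤ → ℝ) :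
    (∑ x ∈ Ico a (a + L), ∑ h : Fin k → Fin H, g (x + ((h i : ℕ) : ℤ))) / (L * (H : ℝ) ^ k) =
      (∑ x ∈ Ico a (a + L), ∑ j : Fin H, g (x + ((j : ℕ) : ℤ))) / (L * H) := by
  have hHr : (0 : ℝ) < H := by exact_mod_cast hH
  have hk : (H : ℝ) ^ k = H ^ (k - 1) * H := by
    have : k ≠ 0 := fun h => by subst h; exact i.elim0
    rw [← pow_succ]
    congr 1
    omega
  have e : ∀ x : ℤ, ∑ h : Fin k → Fin H, g (x + ((h i : ℕ) : ℤ)) =
      (H : ℝ) ^ (k - 1) * ∑ j : Fin H, g (x + ((j : ℕ) : ℤ)) :=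
    fun x => coord_sum i (fun j : Fin H => g (x + ((j : ℕ) : ℤ)))
  simp only [e]
  rw [← mul_sum, hk, show (L : ℝ) * (H ^ (k - 1) * H) = H ^ (k - 1) * (L * H) by ring,
    mul_div_mul_left _ _ (by positivity)]

end Pool.Agent.Q74.BH
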