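import Pool.Agent.Q74.BH.High

/-! # Project BH: no coincidences, and the places, up to the time about `cI log H` -/

set_option autoImplicit false

namespace Pool.Agent.Q74.BH

open Finset
open Pool.Agent.Q74.KP
open Pool.Agent.Q74.SF
open Pool.Agent.Q74.AR (oc oc_succ oc_per bE bE_mono bE_mul)
open Pool.Agent.Q158.Pair (T)
open Pool.Agent.Q158.Col4 (cI)

variable {k : ℕ}

open Classical in
theorem pat_id_ge {H t : ℕ} (x : ℤ) (h : Fin k → Fin H) :
    (if Function.Injective (fun i => (V0 t x h i).2) then (1 : ℝ) else 0) ≤ pat id (V0 t x h) := by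
  split_ifs with hi
  · apply le_of_eq
    rw [eq_comm, pat_id_iff]
    intro i j hij
    exact hi (by simp only [hij])
  · exact pat_nonneg _ _

/-- the free zone: one interval -/
theorem free_x (hFr : S_FreeA) (k : ℕ) {κ ε : ℝ} (hκ : 0 < κ) (hε : 0 < ε) : ∃ H₀ : ℕ, 1 ≤ H₀ ∧ ∀ H : ℕ, H₀ ≤ H →
    ∀ t : ℕ, (t : ℝ) ≤ (1 - κ) * (cI * Real.log H) → ∀ a : ℤ,
    (∑ h : Fin k → Fin H, (1 - pat id (V0 t a h))) / (H : ℝ) ^ k ≤ ε ∧
    ∀ G : (Fin k → ℤ) → ℝ, (∀ z, |G z| ≤ 1) →
      |(∑ h : Fin k → Fin H, G (fun i => (V0 t a h i).1)) / (H : ℝ) ^ k - act k (PP k ^ t) G 0| ≤ ε := by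
  classical
  obtain ⟨H₀, h0⟩ := hFr k κ (ε / 2) hκ (by positivity)
  refine ⟨H₀ + 1, by omega, fun H hH t ht a => ?_⟩
  have hH1 : 1 ≤ H := by omega
  have hHr : (0 : ℝ) < H := by exact_mod_cast hH1
  have hHk : (0 : ℝ) < (H : ℝ) ^ k := by positivity
  have h1 := h0 H (by omega) t ht a (fun _ => 1) (fun _ => by rw [abs_one])
  rw [act_const] at h1
  have hni : (∑ h : Fin k → Fin H, (1 - if Function.Injective (fun i => (V0 t a h i).2) then (1 : ℝ) else 0)) /
      (H : ℝ) ^ k ≤ ε / 2 := by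
    have e : (∑ h : Fin k → Fin H, (1 - if Function.Injective (fun i => (V0 t a h i).2) then (1 : ℝ) else 0)) /
      (H : ℝ) ^ k = 1 - (∑ h : Fin k → Fin H, if Function.Injective (fun i => (V0 t a h i).2) then (1 : ℝ) else 0) /
        (H : ℝ) ^ k := by
      rw [sum_sub_distrib, sub_div, avg_const hH1]
    rw [e]
    have := (abs_le.1 h1).1
    linarith
  refine ⟨?_, fun G hG => ?_⟩
  · refine le_trans (le_trans (avg_mono fun h => ?_) hni) (by linarith)
    have := pat_id_ge (t := t) a h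
    linarith
  · have h2 := h0 H (by omega) t ht a G hG
    have h3 : |(∑ h : Fin k → Fin H, G (fun i => (V0 t a h i).1)) / (H : ℝ) ^ k -
        (∑ h : Fin k → Fin H, if Function.Injective (fun i => (V0 t a h i).2) then G (fun i => (V0 t a h i).1) else 0) /
          (H : ℝ) ^ k| ≤ ε / 2 := by
      rw [← sub_div, ← sum_sub_distrib, abs_div, abs_of_pos hHk]
      refine le_trans (div_le_div_of_nonneg_right (abs_sum_le_sum_abs _ _) hHk.le) ?_
      refine le_trans (avg_mono fun h => ?_) hni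
      split_ifs
      · rw [sub_self, abs_zero, sub_self]
      · rw [sub_zero, sub_zero]
        exact hG _
    have h4 := abs_sub_le ((∑ h : Fin k → Fin H, G (fun i => (V0 t a h i).1)) / (H : ℝ) ^ k)
      ((∑ h : Fin k → Fin H, if Function.Injective (fun i => (V0 t a h i).2) then G (fun i => (V0 t a h i).1) else 0) /
          (H : ℝ) ^ k) (act k (PP k ^ t) G 0)
    linarith

/-- no coincidences up to the time about `cI log H` -/
theorem distinct (hMa : S_Main) (hFr : S_FreeA) (hI : S_CInj) (k : ℕ) {κ ε : ℝ} (hκ : 0 < κ) (hκ1 : κ ≤ 1) (hε : 0 < ε) :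
    ∃ κ₀ : ℝ, 0 < κ₀ ∧ ∀ κ₂ : ℝ, 0 < κ₂ → κ₂ ≤ κ₀ → ∃ H₀ : ℕ, ∀ t H L : ℕ, H₀ ≤ H → 1 ≤ L →
      (1 - κ₂) * t ≤ cI * Real.log H → (1 + κ) * t ≤ cI * Real.log H + Real.logb 2 (L / H) → ∀ a : ℤ,
      Ab k H L t a (fun V => 1 - pat id V) ≤ ε := by
  obtain ⟨κf, hκf, m₀, hfar⟩ := far_model hI k (show 0 < ε / 2 by positivity)
  -- the later time `(1 + κ₃) X`
  set κ₃ : ℝ := min (κ / 16) (κf / 4) with hκ₃
  have hκ₃0 : 0 < κ₃ := by positivity
  have hκ₃1 : κ₃ ≤ κ / 16 := min_le_left _ _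
  have hκ₃2 : κ₃ ≤ κf / 4 := min_le_right _ _
  refine ⟨κ₃ / 2, by positivity, fun κ₂ hκ₂ hκ₂0 => ?_⟩
  obtain ⟨H₁, hH₁1, hfree⟩ := free_x hFr k (show 0 < κ / 4 by positivity) hε
  obtain ⟨t₁, hmain⟩ := hMa k 0 κ₃ (ε / 2) le_rfl hκ₃0 (by positivity)
  obtain ⟨H₂, hH₂⟩ := exists_nat_ge (Real.exp ((t₁ + m₀ + 2 + 8 / κ + 8 / κf) / cI))
  refine ⟨H₁ + H₂ + 1, fun t H L hH hL ht hhor a => ?_⟩
  have hcI := cI_pos
  have hH1 : 1 ≤ H := by omega
  have hHr : (0 : ℝ) < H := by exact_mod_cast hH1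
  set X := cI * Real.log H with hXd
  have hX : (t₁ : ℝ) + m₀ + 2 + 8 / κ + 8 / κf ≤ X := by
    have h1 : (t₁ + m₀ + 2 + 8 / κ + 8 / κf) / cI ≤ Real.log H := by
      rw [Real.le_log_iff_exp_le hHr]
      refine hH₂.trans ?_
      exact_mod_cast (by omega : H₂ ≤ H)
    rw [div_le_iff₀ hcI] at h1
    rw [hXd]
    linarith
  have q1 : (0 : ℝ) ≤ t₁ := Nat.cast_nonneg _
  have q2 : (0 : ℝ) ≤ m₀ := Nat.cast_nonneg _
  have q3 : 0 < 8 / κ := by positivity
  have q4 : 0 < 8 / κf := by positivity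
  have hX0 : 0 < X := by linarith
  have ht0 : (0 : ℝ) ≤ t := Nat.cast_nonneg _
  rcases le_total (t : ℝ) ((1 - κ / 4) * X) with hz | hz
  · -- the free zone
    rw [Ab_eq]
    apply avx_le hL
    intro x _
    exact (hfree H (by omega) t hz x).1
  · -- the later time
    set t' := ⌈(1 + κ₃) * X⌉₊ with ht'
    have ht'1 : (1 + κ₃) * X ≤ t' := Nat.le_ceil _
    have ht'2 : (t' : ℝ) < (1 + κ₃) * X + 1 := Nat.ceil_lt_add_one (by positivity)
    have htt' : t ≤ t' := by
      have h1 : (t : ℝ) ≤ (1 + κ₃) * X := by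
        have h2 : 1 ≤ (1 + κ₃) * (1 - κ₂) := by nlinarith
        calc (t : ℝ) ≤ ((1 + κ₃) * (1 - κ₂)) * t := by nlinarith
          _ = (1 + κ₃) * ((1 - κ₂) * t) := by ring
          _ ≤ (1 + κ₃) * X := mul_le_mul_of_nonneg_left ht (by linarith)
      exact_mod_cast h1.trans ht'1
    have hℓ : κ / 2 * X ≤ Real.logb 2 (L / H) := by
      have h1 : (1 + κ) * ((1 - κ / 4) * X) ≤ (1 + κ) * t := mul_le_mul_of_nonneg_left hz (by linarith)
      have h2 : (1 + κ / 2) * X ≤ (1 + κ) * ((1 - κ / 4) * X) := by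
        calc (1 + κ / 2) * X ≤ ((1 + κ) * (1 - κ / 4)) * X := mul_le_mul_of_nonneg_right (by nlinarith) hX0.le
          _ = (1 + κ) * ((1 - κ / 4) * X) := by ring
      linarith
    have hh : (1 + κ₃) * t' ≤ X + Real.logb 2 (L / H) := by
      have h1 : (1 + κ₃) * (t' : ℝ) ≤ (1 + κ₃) * ((1 + κ₃) * X + 1) := mul_le_mul_of_nonneg_left ht'2.le (by linarith)
      have h2 : 8 ≤ κ * X := by
        have : 8 / κ ≤ X := by linarith
        rw [div_le_iff₀ hκ] at this
        linarith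
      have h3 : (1 + κ₃) * (1 + κ₃) ≤ 1 + κ / 4 := by nlinarith
      have h4 : (1 + κ₃) * (1 + κ₃) * X ≤ (1 + κ / 4) * X := mul_le_mul_of_nonneg_right h3 hX0.le
      nlinarith
    have hmain1 := hmain t' (by
      have : (t₁ : ℝ) ≤ t' := by nlinarith
      exact_mod_cast this) H L hH1 hL ht'1 hh a id (fun _ => 1) (fun _ => by rw [abs_one]) (fun z w => by
        rw [sub_self, abs_zero]
        exact mul_nonneg (by positivity) (sum_nonneg fun i _ => abs_nonneg _))
    set m := ⌊X⌋₊ with hm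
    have hm1 : (m : ℝ) ≤ X := Nat.floor_le hX0.le
    have hm2 : X < m + 1 := Nat.lt_floor_add_one _
    have hmt : m ≤ t' := by
      have : (m : ℝ) ≤ t' := by nlinarith
      exact_mod_cast this
    have hm0 : m₀ ≤ m := by
      have : (m₀ : ℝ) < m + 1 := by linarith
      have : m₀ < m + 1 := by exact_mod_cast this
      omega
    have hr : ((t' - m : ℕ) : ℝ) ≤ κf * m := by
      rw [Nat.cast_sub hmt]
      have h1 : 8 ≤ κf * X := by
        have : 8 / κf ≤ X := by linarith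
        rw [div_le_iff₀ hκf] at this
        linarith
      have h2 : κ₃ * X ≤ κf / 4 * X := mul_le_mul_of_nonneg_right hκ₃2 hX0.le
      have h3 : κf * (X - 1) ≤ κf * m := mul_le_mul_of_nonneg_left (by linarith) hκf.le
      have h4 : κf ≤ κf * X / 2 := by
        have : 2 ≤ X := by linarith
        nlinarith
      nlinarith
    have hmod := hfar m (t' - m) hm0 hr 0
    have e1 : act k (PP k ^ m) (CG (Fm id (fun _ => 1)) (t' - m)) 0 =
        1 - act k (PP k ^ m) (CG (fun z => 1 - pat id z) (t' - m)) 0 := by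
      have e2 : CG (fun z : Fin k → ℤ => 1 - pat id z) (t' - m) = fun z => 1 - CG (Fm id (fun _ => 1)) (t' - m) z := by
        funext z
        rw [CG_sub, CG_const]
        congr 1
        apply congrArg (fun f => CG f (t' - m) z)
        funext y
        unfold Fm
        rw [mul_one]
      rw [e2, act_sub', act_const]
      ring
    have h2 : Ab k H L t a (fun V => 1 - pat id V) ≤ 1 - Ab k H L t' a (Ph id (fun _ => 1)) := by
      have e3 : 1 - Ab k H L t' a (Ph id (fun _ => 1)) = Ab k H L t' a (fun V => 1 - pat id V) := by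
        rw [Ab_sub, Ab_const hH1 hL]
        congr 1
        apply congrArg
        funext V
        exact Ph_one V
      rw [e3]
      unfold Ab
      apply div_le_div_of_nonneg_right _ (by positivity)
      apply sum_le_sum
      intro x _
      apply sum_le_sum
      intro h _
      have h7 := pat_laterB t (t' - t) x h
      rw [Nat.add_sub_cancel' htt'] at h7
      linarith
    have h3 := (abs_le.1 hmain1).1
    rw [e1] at h3
    linarith

end Pool.Agent.Q74.BH
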