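import Pool.Agent.Q74.BH.High2

/-! # Project BH: the places up to the time about `cI log H` -/

set_option autoImplicit false

namespace Pool.Agent.Q74.BH

open Finset
open Pool.Agent.Q74.KP
open Pool.Agent.Q74.SF
open Pool.Agent.Q74.AR (oc oc_succ oc_per bE bE_mono bE_mul)
open Pool.Agent.Q158.Pair (T)
open Pool.Agent.Q158.Col4 (cI)

variable {k : ℕ}

/-- the places after `S + r` steps against those after `S` steps -/
theorem places_step {H L S r : ℕ} (hH : 1 ≤ H) (hL : 1 ≤ L) (a : ℤ) (G : (Fin k → ℤ) → ℝ) (hG : ∀ z, |G z| ≤ 1)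
    {l ε₁ : ℝ} (hl : 0 ≤ l) (hGL : ∀ z w : Fin k → ℤ, |G z - G w| ≤ l * ∑ i, |(z i : ℝ) - w i|)
    (hone : ∀ φ : ℕ → ℝ, (∀ n, |φ n| ≤ 1) →
      |(∑ x ∈ Ico a (a + L), ∑ i : Fin H, φ (oc r (T^[S] (x + ((i : ℕ) : ℤ))))) / (L * H) - bE r φ| ≤ ε₁) :
    |Ab k H L (S + r) a (fun V => G (fun i => (V i).1)) -
      Ab k H L S a (fun V => G (fun i => (V i).1 + (r / 2 : ℕ)))| ≤ 2 * (k * (l * √((r : ℝ) + 1) + ε₁)) := by
  have hHr : (0 : ℝ) < H := by exact_mod_cast hH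
  have hLr : (0 : ℝ) < L := by exact_mod_cast hL
  set r' := r / 2 with hr'
  set φ : ℕ → ℝ := fun n => min 1 (l * |(n : ℝ) - r'|) with hφd
  have hφ0 : ∀ n, 0 ≤ φ n := fun n => le_min zero_le_one (by positivity)
  have hφ1 : ∀ n, |φ n| ≤ 1 := fun n => by
    rw [abs_of_nonneg (hφ0 n)]
    exact min_le_left _ _
  have hbE : bE r φ ≤ l * √((r : ℝ) + 1) := by
    refine (bE_mono r φ (fun n => l * |(n : ℝ) - r'|) (fun n => min_le_right _ _)).trans ?_
    rw [bE_mul]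
    exact mul_le_mul_of_nonneg_left (bE_dist r r' (Pool.Agent.Q74.SF.half_near r)) hl
  -- pointwise
  have hpt : ∀ (x : ℤ) (h : Fin k → Fin H), |G (fun i => (V0 (S + r) x h i).1) -
      G (fun i => (V0 S x h i).1 + (r' : ℤ))| ≤ ∑ i : Fin k, 2 * φ (oc r (T^[S] (x + ((h i : ℕ) : ℤ)))) := by
    intro x h
    have h1 : |G (fun i => (V0 (S + r) x h i).1) - G (fun i => (V0 S x h i).1 + (r' : ℤ))| ≤
        l * ∑ i : Fin k, |((oc r (T^[S] (x + ((h i : ℕ) : ℤ))) : ℕ) : ℝ) - r'| := by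
      refine (hGL _ _).trans (le_of_eq ?_)
      congr 1
      apply sum_congr rfl
      intro i _
      congr 1
      unfold V0
      rw [oc_add]
      push_cast
      ring
    have h2 : |G (fun i => (V0 (S + r) x h i).1) - G (fun i => (V0 S x h i).1 + (r' : ℤ))| ≤ 2 := by
      refine (abs_sub _ _).trans ?_
      linarith [hG (fun i => (V0 (S + r) x h i).1), hG (fun i => (V0 S x h i).1 + (r' : ℤ))]
    by_cases hex : ∃ i : Fin k, 1 ≤ l * |((oc r (T^[S] (x + ((h i : ℕ) : ℤ))) : ℕ) : ℝ) - r'|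
    · obtain ⟨i, hi⟩ := hex
      have h3 : φ (oc r (T^[S] (x + ((h i : ℕ) : ℤ)))) = 1 := min_eq_left hi
      have h4 : 2 * φ (oc r (T^[S] (x + ((h i : ℕ) : ℤ)))) ≤
          ∑ i : Fin k, 2 * φ (oc r (T^[S] (x + ((h i : ℕ) : ℤ)))) :=
        single_le_sum (f := fun i : Fin k => 2 * φ (oc r (T^[S] (x + ((h i : ℕ) : ℤ)))))
          (fun j _ => mul_nonneg (by norm_num) (hφ0 _)) (mem_univ i)
      rw [h3] at h4
      linarith
    · push Not at hex
      refine h1.trans ?_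
      rw [mul_sum]
      apply sum_le_sum
      intro i _
      have h3 : φ (oc r (T^[S] (x + ((h i : ℕ) : ℤ)))) = l * |((oc r (T^[S] (x + ((h i : ℕ) : ℤ))) : ℕ) : ℝ) - r'| :=
        min_eq_right (hex i).le
      rw [h3]
      have : 0 ≤ l * |((oc r (T^[S] (x + ((h i : ℕ) : ℤ))) : ℕ) : ℝ) - r'| := by positivity
      linarith
  unfold Ab
  rw [← sub_div, ← sum_sub_distrib, abs_div, abs_of_nonneg (by positivity : (0 : ℝ) ≤ L * (H : ℝ) ^ k)]
  have h5 : |∑ x ∈ Ico a (a + (L : ℤ)), (∑ h : Fin k → Fin H, G (fun i => (V0 (S + r) x h i).1) -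
      ∑ h : Fin k → Fin H, G (fun i => (V0 S x h i).1 + (r' : ℤ)))| ≤
      ∑ x ∈ Ico a (a + (L : ℤ)), ∑ h : Fin k → Fin H, ∑ i : Fin k, 2 * φ (oc r (T^[S] (x + ((h i : ℕ) : ℤ)))) := by
    refine (abs_sum_le_sum_abs _ _).trans (sum_le_sum fun x _ => ?_)
    rw [← sum_sub_distrib]
    exact (abs_sum_le_sum_abs _ _).trans (sum_le_sum fun h _ => hpt x h)
  refine le_trans (div_le_div_of_nonneg_right h5 (by positivity)) ?_
  have e6 : (∑ x ∈ Ico a (a + (L : ℤ)), ∑ h : Fin k → Fin H, ∑ i : Fin k, 2 * φ (oc r (T^[S] (x + ((h i : ℕ) : ℤ))))) /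
      (L * (H : ℝ) ^ k) = ∑ i : Fin k, 2 * ((∑ x ∈ Ico a (a + (L : ℤ)), ∑ j : Fin H, φ (oc r (T^[S] (x + ((j : ℕ) : ℤ))))) /
        (L * H)) := by
    have e7 : ∀ x : ℤ, ∑ h : Fin k → Fin H, ∑ i : Fin k, 2 * φ (oc r (T^[S] (x + ((h i : ℕ) : ℤ)))) =
        ∑ i : Fin k, 2 * ∑ h : Fin k → Fin H, φ (oc r (T^[S] (x + ((h i : ℕ) : ℤ)))) := by
      intro x
      rw [sum_comm]
      apply sum_congr rfl
      intro i _
      rw [mul_sum]
    simp only [e7]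
    rw [sum_comm, sum_div]
    apply sum_congr rfl
    intro i _
    rw [← coord_avg hH a i (fun y => φ (oc r (T^[S] y))), ← mul_sum, mul_div_assoc]
  rw [e6, sum_const, card_univ, Fintype.card_fin, nsmul_eq_mul]
  have h7 := (abs_le.1 (hone φ hφ1)).2
  have hk0 : (0 : ℝ) ≤ k := Nat.cast_nonneg k
  have h8 : (∑ x ∈ Ico a (a + (L : ℤ)), ∑ j : Fin H, φ (oc r (T^[S] (x + ((j : ℕ) : ℤ))))) / (L * H) ≤
      l * √((r : ℝ) + 1) + ε₁ := by linarith
  calc (k : ℝ) * (2 * ((∑ x ∈ Ico a (a + (L : ℤ)), ∑ j : Fin H, φ (oc r (T^[S] (x + ((j : ℕ) : ℤ))))) / (L * H))) ≤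
      k * (2 * (l * √((r : ℝ) + 1) + ε₁)) := by gcongr
    _ = _ := by ring

/-- the places up to the time about `cI log H` -/
theorem placesB (hFr : S_FreeA) (hO : S_One) (k : ℕ) {Λ κ ε : ℝ} (hΛ : 0 ≤ Λ) (hκ : 0 < κ) (hε : 0 < ε) :
    ∃ κ₀ : ℝ, 0 < κ₀ ∧ ∀ κ₂ : ℝ, 0 < κ₂ → κ₂ ≤ κ₀ → ∃ H₀ : ℕ, ∀ t H L : ℕ, H₀ ≤ H → 1 ≤ L →
      (1 - κ₂) * t ≤ cI * Real.log H → (1 + κ) * t ≤ cI * Real.log H + Real.logb 2 (L / H) → ∀ a : ℤ,
      ∀ G : (Fin k → ℤ) → ℝ, (∀ z, |G z| ≤ 1) →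
      (∀ z w : Fin k → ℤ, |G z - G w| ≤ Λ / √t * ∑ i, |(z i : ℝ) - w i|) →
      |Ab k H L t a (fun V => G (fun i => (V i).1)) - act k (PP k ^ t) G 0| ≤ ε := by
  set ε₁ : ℝ := ε / (8 * (k + 1)) with hε₁
  have hk0 : (0 : ℝ) ≤ k := Nat.cast_nonneg k
  have hε₁0 : 0 < ε₁ := by positivity
  obtain ⟨δ, hδ, hone⟩ := hO κ ε₁ hκ hε₁0
  set κs : ℝ := min (min (1 / 4) (δ / 4)) (ε₁ ^ 2 / (8 * (Λ ^ 2 + 1))) with hκs
  have hκs0 : 0 < κs := by positivity
  have hκs1 : κs ≤ 1 / 4 := (min_le_left _ _).trans (min_le_left _ _)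
  have hκs2 : κs ≤ δ / 4 := (min_le_left _ _).trans (min_le_right _ _)
  have hκs3 : 8 * (Λ ^ 2 + 1) * κs ≤ ε₁ ^ 2 := by
    have : κs ≤ ε₁ ^ 2 / (8 * (Λ ^ 2 + 1)) := min_le_right _ _
    rw [le_div_iff₀ (by positivity)] at this
    linarith
  have hcI := cI_pos
  obtain ⟨H₁, hH₁1, hfree⟩ := free_x hFr k hκs0 hε₁0
  obtain ⟨H₂, hH₂⟩ := hone (κs * cI) (by positivity)
  obtain ⟨H₃, hH₃⟩ := exists_nat_ge (Real.exp ((2 * (1 + δ) / δ + 2 / κs + 8) / cI))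
  refine ⟨κs, hκs0, fun κ₂ hκ₂ hκ₂0 => ⟨H₁ + H₂ + H₃ + 1, fun t H L hH hL ht hhor a G hG hGL => ?_⟩⟩
  have hH1 : 1 ≤ H := by omega
  have hHr : (0 : ℝ) < H := by exact_mod_cast hH1
  set X := cI * Real.log H with hXd
  have hX : 2 * (1 + δ) / δ + 2 / κs + 8 ≤ X := by
    have h1 : (2 * (1 + δ) / δ + 2 / κs + 8) / cI ≤ Real.log H := by
      rw [Real.le_log_iff_exp_le hHr]
      refine hH₃.trans ?_
      exact_mod_cast (by omega : H₃ ≤ H)
    rw [div_le_iff₀ hcI] at h1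
    rw [hXd]
    linarith
  have q1 : 0 < 2 * (1 + δ) / δ := by positivity
  have q2 : 0 < 2 / κs := by positivity
  have hX0 : 0 < X := by linarith
  have hεε : ε₁ ≤ ε := by
    rw [hε₁, div_le_iff₀ (by positivity)]
    nlinarith
  rcases le_total (t : ℝ) ((1 - κs) * X) with hz | hz
  · rw [Ab_eq]
    exact (avx_close hL (fun x => (hfree H (by omega) t hz x).2 G hG)).trans hεε
  · set S := ⌊(1 - κs) * X⌋₊ with hS
    have h1s : 0 < 1 - κs := by linarith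
    have hS1 : (S : ℝ) ≤ (1 - κs) * X := Nat.floor_le (by positivity)
    have hS2 : (1 - κs) * X < S + 1 := Nat.lt_floor_add_one _
    have hSt : S ≤ t := by
      have : (S : ℝ) ≤ t := hS1.trans hz
      exact_mod_cast this
    obtain ⟨r, hr⟩ := Nat.exists_eq_add_of_le hSt
    have htr : (t : ℝ) = S + r := by rw [hr]; push_cast; ring
    have ht0 : (0 : ℝ) < t := by nlinarith
    set l : ℝ := Λ / √(t : ℝ) with hl
    have hl0 : 0 ≤ l := by positivity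
    have hst : 0 < √(t : ℝ) := Real.sqrt_pos.2 ht0
    have htX : X ≤ 2 * t := by nlinarith
    have htX2 : (t : ℝ) ≤ (1 + 2 * κs) * X := by
      have h1 : (1 - κs) * t ≤ X := by nlinarith
      have h2 : 1 ≤ (1 + 2 * κs) * (1 - κs) := by nlinarith
      calc (t : ℝ) ≤ ((1 + 2 * κs) * (1 - κs)) * t := by nlinarith
        _ = (1 + 2 * κs) * ((1 - κs) * t) := by ring
        _ ≤ (1 + 2 * κs) * X := mul_le_mul_of_nonneg_left h1 (by linarith)
    have hrb : (r : ℝ) + 1 ≤ 8 * κs * t := by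
      have h1 : (r : ℝ) ≤ 3 * κs * X + 1 := by nlinarith
      have h2 : 2 ≤ κs * X := by
        have : 2 / κs ≤ X := by linarith
        rw [div_le_iff₀ hκs0] at this
        linarith
      nlinarith
    have herr : l * √((r : ℝ) + 1) ≤ ε₁ := by
      have e1 : l * √((r : ℝ) + 1) = Λ * √((r : ℝ) + 1) / √(t : ℝ) := by
        rw [hl]; ring
      rw [e1, div_le_iff₀ hst]
      have h1 : Λ ^ 2 * ((r : ℝ) + 1) ≤ ε₁ ^ 2 * t := by
        calc Λ ^ 2 * ((r : ℝ) + 1) ≤ (Λ ^ 2 + 1) * (8 * κs * t) :=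
              mul_le_mul (by linarith) hrb (by positivity) (by positivity)
          _ = 8 * (Λ ^ 2 + 1) * κs * t := by ring
          _ ≤ ε₁ ^ 2 * t := mul_le_mul_of_nonneg_right hκs3 ht0.le
      have h2 := Real.sqrt_le_sqrt h1
      rw [Real.sqrt_mul (by positivity), Real.sqrt_mul (by positivity), Real.sqrt_sq hΛ, Real.sqrt_sq hε₁0.le] at h2
      exact h2
    have hc1 : X ≤ (1 + δ) * S := by
      have h1 : 2 * (1 + δ) ≤ δ * X := by
        have : 2 * (1 + δ) / δ ≤ X := by linarith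
        rw [div_le_iff₀ hδ] at this
        linarith
      have h2 : κs * X ≤ δ / 4 * X := mul_le_mul_of_nonneg_right hκs2 hX0.le
      have h3 : δ * κs * X ≤ δ / 4 * X := by
        apply mul_le_mul_of_nonneg_right _ hX0.le
        nlinarith
      nlinarith
    have hc2 : (S : ℝ) ≤ (cI - κs * cI) * Real.log H := by
      have e1 : (cI - κs * cI) * Real.log H = (1 - κs) * X := by rw [hXd]; ring
      rw [e1]
      exact hS1
    have hc3 : (1 + κ) * ((S : ℝ) + r) ≤ cI * Real.log H + Real.logb 2 (L / H) := by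
      rw [← htr]
      exact hhor
    have hstep := places_step hH1 hL a G hG hl0 hGL (S := S) (r := r)
      (fun φ hφ => hH₂ H (by omega) S r L hL hc1 hc2 hc3 a φ hφ)
    rw [← hr] at hstep
    have hS3 : |Ab k H L S a (fun V => G (fun i => (V i).1 + (r / 2 : ℕ))) -
        act k (PP k ^ S) (fun z => G (fun i => z i + (r / 2 : ℕ))) 0| ≤ ε₁ := by
      rw [Ab_eq]
      exact avx_close hL (fun x => (hfree H (by omega) S hS1 x).2 (fun z => G (fun i => z i + (r / 2 : ℕ)))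
        (fun z => hG _))
    have h4 : |act k (PP k ^ S) (fun z => G (fun i => z i + (r / 2 : ℕ))) 0 - act k (PP k ^ t) G 0| ≤
        l * (k * √((r : ℝ) + 1)) := by
      rw [hr, pow_add, act_mul, ← act_sub']
      apply act_abs
      intro z
      rw [abs_sub_comm]
      exact act_near hl0 hGL r z
    have h5 := abs_sub_le (Ab k H L t a (fun V => G (fun i => (V i).1)))
      (Ab k H L S a (fun V => G (fun i => (V i).1 + (r / 2 : ℕ)))) (act k (PP k ^ t) G 0)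
    have h6 := abs_sub_le (Ab k H L S a (fun V => G (fun i => (V i).1 + (r / 2 : ℕ))))
      (act k (PP k ^ S) (fun z => G (fun i => z i + (r / 2 : ℕ))) 0) (act k (PP k ^ t) G 0)
    have h7 : l * (k * √((r : ℝ) + 1)) ≤ k * ε₁ := by
      calc l * (k * √((r : ℝ) + 1)) = k * (l * √((r : ℝ) + 1)) := by ring
        _ ≤ k * ε₁ := mul_le_mul_of_nonneg_left herr hk0
    have h8 : 2 * (k * (l * √((r : ℝ) + 1) + ε₁)) ≤ 2 * (k * (ε₁ + ε₁)) := by gcongr
    have h9 : 2 * (k * (ε₁ + ε₁)) + ε₁ + k * ε₁ ≤ ε := by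
      have : ε₁ * (8 * (k + 1)) = ε := by
        rw [hε₁]
        field_simp
      nlinarith
    linarith

end Pool.Agent.Q74.BH
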