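import Pool.Agent.Q74.BH.Core2

/-! # Project BH: the theorem -/

set_option autoImplicit false

namespace Pool.Agent.Q74.BH

open Finset
open Pool.Agent.Q74.KP
open Pool.Agent.Q74.SF
open Pool.Agent.Q74.AR (oc oc_succ)
open Pool.Agent.Q158.Pair (T)
open Pool.Agent.Q158.Col4 (cI)

variable {k : ℕ}

/-- free or coalescing for `j` steps -/
theorem Wk_cont (hC : S_Cont) (k : ℕ) : ∃ C : ℝ, 0 < C ∧ ∀ (π : Fin k → Fin k) (G : (Fin k → ℤ) → ℝ),
    (∀ z, |G z| ≤ 1) → ∀ m j r : ℕ,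
    |act k (PP k ^ (m + j)) (CG (Fm π G) r) 0 - act k (PP k ^ m) (CG (Fm π G) (j + r)) 0| ≤
      C * √((j : ℝ) + 1) / √((r : ℝ) + 1) := by
  obtain ⟨C, hC0, h⟩ := hC k
  refine ⟨C, hC0, fun π G hG m j r => ?_⟩
  rw [pow_add, act_mul, ← act_sub']
  exact act_abs m (fun z => h π G hG r j z) 0

/-- the middle range -/
theorem midB (hCo : S_Core) (hC : S_Cont) (k : ℕ) {Λ κ κ₁ ε : ℝ} (hΛ : 0 ≤ Λ) (hκ : 0 < κ) (hκ₁ : 0 < κ₁)
    (hε : 0 < ε) : ∃ t₀ : ℕ, ∀ t : ℕ, t₀ ≤ t → ∀ H L : ℕ, 1 ≤ H → 1 ≤ L →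
      κ₁ * t ≤ cI * Real.log H → (1 + κ) * (cI * Real.log H) ≤ t →
      (1 + κ) * t ≤ cI * Real.log H + Real.logb 2 (L / H) →
      ∀ (a : ℤ) (π : Fin k → Fin k) (G : (Fin k → ℤ) → ℝ), (∀ z, |G z| ≤ 1) →
      (∀ z w : Fin k → ℤ, |G z - G w| ≤ Λ / √t * ∑ i, |(z i : ℝ) - w i|) →
      |Ab k H L t a (Ph π G) -
        act k (PP k ^ ⌊cI * Real.log H⌋₊) (CG (Fm π G) (t - ⌊cI * Real.log H⌋₊)) 0| ≤ ε := by
  set κ₂ : ℝ := κ / (1 + κ) with hκ₂d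
  have hκ₂ : 0 < κ₂ := by positivity
  have hκ₂κ : κ₂ ≤ κ := by
    rw [hκ₂d, div_le_iff₀ (by linarith)]
    nlinarith
  have hκ₂1 : κ₂ < 1 := by
    rw [hκ₂d, div_lt_one (by linarith)]
    linarith
  have hκ₂e : (1 - κ₂) * (1 + κ) = 1 := by
    rw [hκ₂d]
    field_simp
    ring
  obtain ⟨δ, hδ, hpre⟩ := hCo k Λ κ₂ (ε / 2) hΛ hκ₂ (by positivity)
  obtain ⟨C, hC0, hcont⟩ := Wk_cont hC k
  have hcI := cI_pos
  -- the fraction `κ₃` of the free time which is given away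
  obtain ⟨κ₃, hκ₃, hκ₃1, hκ₃2, hκ₃3⟩ : ∃ κ₃ : ℝ, 0 < κ₃ ∧ κ₃ < 1 / 2 ∧ 2 * κ₃ ≤ δ / 2 ∧
      4 * C ^ 2 * κ₃ ≤ κ₂ * (ε / 2) ^ 2 / 2 := by
    refine ⟨min (1 / 4) (min (δ / 4) (κ₂ * (ε / 2) ^ 2 / 2 / (4 * C ^ 2))), by positivity, ?_, ?_, ?_⟩
    · exact lt_of_le_of_lt (min_le_left _ _) (by norm_num)
    · have := (min_le_right (1 / 4) (min (δ / 4) (κ₂ * (ε / 2) ^ 2 / 2 / (4 * C ^ 2)))).trans (min_le_left _ _)
      linarith
    · have := (min_le_right (1 / 4) (min (δ / 4) (κ₂ * (ε / 2) ^ 2 / 2 / (4 * C ^ 2)))).trans (min_le_right _ _)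
      rw [le_div_iff₀ (by positivity)] at this
      linarith
  obtain ⟨H₀, hH₀⟩ := hpre (κ₃ * cI) (mul_pos hκ₃ hcI)
  -- how large `t` must be
  obtain ⟨t₁, ht₁⟩ := exists_nat_ge ((cI * Real.log (H₀ + 1) + 2 + (4 + 2 * δ) / δ + (8 * C ^ 2) / (κ₂ * (ε / 2) ^ 2)) / (κ₁ * (1 - κ₃)) +
    (16 * C ^ 2) / (κ₂ * (ε / 2) ^ 2 * κ₂))
  refine ⟨t₁ + 1, fun t ht H L hH hL hH1 hH2' hhor a π G hG hGL => ?_⟩
  have htr : (t₁ : ℝ) ≤ t := by exact_mod_cast (by omega : t₁ ≤ t)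
  have ht0 : (0 : ℝ) < t := by
    have : 0 < t := by omega
    exact_mod_cast this
  set X := cI * Real.log H with hX
  have hX0 : 0 < X := lt_of_lt_of_le (by positivity) hH1
  have hH2 : X ≤ (1 - κ₂) * t := by
    calc X = (1 - κ₂) * ((1 + κ) * X) := by rw [← mul_assoc, hκ₂e, one_mul]
      _ ≤ (1 - κ₂) * t := mul_le_mul_of_nonneg_left hH2' (by linarith)
  have hlogH₀ : 0 ≤ cI * Real.log (H₀ + 1) := mul_nonneg hcI.le (Real.log_nonneg (by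
    have : (0 : ℝ) ≤ H₀ := Nat.cast_nonneg _
    linarith))
  -- lower bounds for t
  have hbig : cI * Real.log (H₀ + 1) + 2 + (4 + 2 * δ) / δ + (8 * C ^ 2) / (κ₂ * (ε / 2) ^ 2) ≤ (1 - κ₃) * X := by
    have h1 : (cI * Real.log (H₀ + 1) + 2 + (4 + 2 * δ) / δ + (8 * C ^ 2) / (κ₂ * (ε / 2) ^ 2)) / (κ₁ * (1 - κ₃)) ≤ t := by
      have : 0 ≤ (16 * C ^ 2) / (κ₂ * (ε / 2) ^ 2 * κ₂) := by positivity
      linarith
    have h13 : 0 < 1 - κ₃ := by linarith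
    rw [div_le_iff₀ (by positivity)] at h1
    calc _ ≤ (t : ℝ) * (κ₁ * (1 - κ₃)) := h1
      _ = (1 - κ₃) * (κ₁ * t) := by ring
      _ ≤ (1 - κ₃) * X := mul_le_mul_of_nonneg_left hH1 h13.le
  have hterm1 : 0 ≤ (4 + 2 * δ) / δ := by positivity
  have hterm2 : 0 ≤ (8 * C ^ 2) / (κ₂ * (ε / 2) ^ 2) := by positivity
  have hHH : H₀ ≤ H := by
    by_contra hcon
    push Not at hcon
    have h1 : Real.log H ≤ Real.log (H₀ + 1) := Real.log_le_log (by exact_mod_cast hH) (by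
      have : (H : ℝ) ≤ H₀ := by exact_mod_cast hcon.le
      linarith)
    have h2 : X ≤ cI * Real.log (H₀ + 1) := mul_le_mul_of_nonneg_left h1 hcI.le
    nlinarith
  set m := ⌊(1 - κ₃) * X⌋₊ with hm
  have hm1 : (m : ℝ) ≤ (1 - κ₃) * X := Nat.floor_le (by nlinarith)
  have hm2 : (1 - κ₃) * X < m + 1 := Nat.lt_floor_add_one _
  set m' := ⌊X⌋₊ with hm'
  have hm'1 : (m' : ℝ) ≤ X := Nat.floor_le hX0.le
  have hmm' : m ≤ m' := Nat.floor_le_floor (by nlinarith)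
  have hm't : m' ≤ t := by
    have : (m' : ℝ) ≤ t := by nlinarith
    exact_mod_cast this
  have hmt : m ≤ t := hmm'.trans hm't
  -- apply the preliminary form at `m`, `r = t - m`
  have hr : ((t - m : ℕ) : ℝ) = t - m := Nat.cast_sub hmt
  have hκr : κ₂ * m ≤ ((t - m : ℕ) : ℝ) := by
    rw [hr]
    have h1 : (m : ℝ) ≤ (1 - κ₂) * t := by
      have : (1 - κ₃) * X ≤ X := by nlinarith
      linarith
    have h2 : κ₂ * (m : ℝ) ≤ κ₂ * t := mul_le_mul_of_nonneg_left (by exact_mod_cast hmt) hκ₂.le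
    linarith
  have hA : X ≤ (1 + δ) * m := by
    have h1 : (4 + 2 * δ) / δ ≤ (m : ℝ) := by linarith
    rw [div_le_iff₀ hδ] at h1
    have h2 : X ≤ (1 + 2 * κ₃) * (m + 1) := by
      have h3 : (1 + 2 * κ₃) * ((1 - κ₃) * X) ≤ (1 + 2 * κ₃) * (m + 1) :=
        mul_le_mul_of_nonneg_left hm2.le (by linarith)
      have h4 : X ≤ (1 + 2 * κ₃) * ((1 - κ₃) * X) := by
        have : 0 ≤ κ₃ * (1 - 2 * κ₃) * X := by
          have : 0 ≤ 1 - 2 * κ₃ := by linarith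
          positivity
        nlinarith
      linarith
    have h5 : (1 + 2 * κ₃) * ((m : ℝ) + 1) ≤ (1 + δ / 2) * (m + 1) :=
      mul_le_mul_of_nonneg_right (by linarith) (by positivity)
    nlinarith
  have hB' : (m : ℝ) ≤ (cI - κ₃ * cI) * Real.log H := by
    have : (cI - κ₃ * cI) * Real.log H = (1 - κ₃) * X := by rw [hX]; ring
    rw [this]
    exact hm1
  have hL1 : ∀ z w : Fin k → ℤ, |G z - G w| ≤ Λ / √(((t - m : ℕ) : ℝ)) * ∑ i, |(z i : ℝ) - w i| := by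
    intro z w
    refine (hGL z w).trans ?_
    apply mul_le_mul_of_nonneg_right _ (sum_nonneg fun i _ => abs_nonneg _)
    apply div_le_div_of_nonneg_left hΛ
    · apply Real.sqrt_pos.2
      rw [hr]
      have : (m : ℝ) ≤ (1 - κ₂) * t := by
        have : (1 - κ₃) * X ≤ X := by nlinarith
        linarith
      nlinarith
    · apply Real.sqrt_le_sqrt
      rw [hr]
      have : (0 : ℝ) ≤ m := Nat.cast_nonneg _
      linarith
  have hh : (1 + κ₂) * ((m : ℝ) + ((t - m : ℕ) : ℝ)) ≤ cI * Real.log H + Real.logb 2 (L / H) := by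
    rw [hr, show (m : ℝ) + (t - m) = t by ring]
    refine le_trans ?_ hhor
    exact mul_le_mul_of_nonneg_right (by linarith) ht0.le
  have h1 := hH₀ H hHH m (t - m) L hL hκr hA hB' hh a π G hG hL1
  rw [Nat.add_sub_cancel' hmt] at h1
  -- change `m` to `m'`
  have h2 := hcont π G hG m (m' - m) (t - m')
  rw [Nat.add_sub_cancel' hmm', show m' - m + (t - m') = t - m by omega] at h2
  have h3 : C * √(((m' - m : ℕ) : ℝ) + 1) / √(((t - m' : ℕ) : ℝ) + 1) ≤ ε / 2 := by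
    have hj : ((m' - m : ℕ) : ℝ) + 1 ≤ κ₃ * t + 2 := by
      rw [Nat.cast_sub hmm']
      have : X ≤ t := by nlinarith
      nlinarith
    have hrr : κ₂ * t ≤ ((t - m' : ℕ) : ℝ) + 1 := by
      rw [Nat.cast_sub hm't]
      linarith
    have hpos : 0 < ((t - m' : ℕ) : ℝ) + 1 := by positivity
    rw [div_le_iff₀ (Real.sqrt_pos.2 hpos)]
    have h4 : C ^ 2 * (((m' - m : ℕ) : ℝ) + 1) ≤ (ε / 2) ^ 2 * (((t - m' : ℕ) : ℝ) + 1) := by
      have h5 : C ^ 2 * (κ₃ * t + 2) ≤ (ε / 2) ^ 2 * (κ₂ * t) := by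
        have h6 : (16 * C ^ 2) / (κ₂ * (ε / 2) ^ 2 * κ₂) ≤ t := by
          have : 0 ≤ (cI * Real.log (H₀ + 1) + 2 + (4 + 2 * δ) / δ + (8 * C ^ 2) / (κ₂ * (ε / 2) ^ 2)) / (κ₁ * (1 - κ₃)) := by
            have h13 : 0 < 1 - κ₃ := by linarith
            positivity
          linarith
        rw [div_le_iff₀ (by positivity)] at h6
        have h7 : 4 * C ^ 2 * κ₃ * t ≤ κ₂ * (ε / 2) ^ 2 / 2 * t := mul_le_mul_of_nonneg_right hκ₃3 ht0.le
        have h8 : t * (κ₂ * (ε / 2) ^ 2 * κ₂) ≤ t * (κ₂ * (ε / 2) ^ 2) := by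
          apply mul_le_mul_of_nonneg_left _ ht0.le
          have : 0 ≤ κ₂ * (ε / 2) ^ 2 := by positivity
          nlinarith
        nlinarith
      calc C ^ 2 * (((m' - m : ℕ) : ℝ) + 1) ≤ C ^ 2 * (κ₃ * t + 2) := mul_le_mul_of_nonneg_left hj (by positivity)
        _ ≤ (ε / 2) ^ 2 * (κ₂ * t) := h5
        _ ≤ _ := mul_le_mul_of_nonneg_left hrr (by positivity)
    have h5 := Real.sqrt_le_sqrt h4
    rw [Real.sqrt_mul (by positivity), Real.sqrt_mul (by positivity), Real.sqrt_sq hC0.le,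
      Real.sqrt_sq (by positivity)] at h5
    exact h5
  have h4 := abs_sub_le (Ab k H L t a (Ph π G)) (act k (PP k ^ m) (CG (Fm π G) (t - m)) 0)
    (act k (PP k ^ m') (CG (Fm π G) (t - m')) 0)
  rw [abs_sub_comm (act k (PP k ^ m) (CG (Fm π G) (t - m)) 0)] at h4
  linarith

/-- THE THEOREM -/
theorem main (hCo : S_Core) (hC : S_Cont) (hLow : S_LowK) : S_Main := by
  intro k Λ κ ε hΛ hκ hε
  obtain ⟨κ₀, hκ₀, t₀, Q, hlow⟩ := hLow k Λ ε hΛ hε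
  set κ₁ : ℝ := min κ₀ (κ / 2) with hκ₁
  have hκ₁0 : 0 < κ₁ := by positivity
  obtain ⟨t₁, hmid⟩ := midB hCo hC k hΛ hκ hκ₁0 hε
  obtain ⟨t₂, ht₂⟩ := exists_nat_ge (2 / κ * Q)
  refine ⟨t₀ + t₁ + t₂ + 1, fun t ht H L hH hL h1 h2 a π G hG hGL => ?_⟩
  have ht0 : (0 : ℝ) < t := by
    have : 0 < t := by omega
    exact_mod_cast this
  rcases le_total (κ₁ * t) (cI * Real.log H) with hc | hc
  · exact hmid t (by omega) H L hH hL hc h1 h2 a π G hG hGL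
  · refine hlow t (by omega) H hH (hc.trans (mul_le_mul_of_nonneg_right (min_le_left _ _) ht0.le)) a L hL ?_ π G hG hGL
    have hHr : (1 : ℝ) ≤ H := by exact_mod_cast hH
    have hLr : (0 : ℝ) < L := by exact_mod_cast hL
    have h3 : κ₁ * t ≤ κ / 2 * t := mul_le_mul_of_nonneg_right (min_le_right _ _) ht0.le
    have h4 : (t : ℝ) + κ / 2 * t ≤ Real.logb 2 (L / H) := by linarith
    have h5 : Real.logb 2 (L / H) ≤ Real.logb 2 L := by
      apply Real.logb_le_logb_of_le (by norm_num) (by positivity)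
      exact div_le_self hLr.le hHr
    have h6 : (Q : ℝ) ≤ κ / 2 * t := by
      have h7 : 2 / κ * Q ≤ t := ht₂.trans (by exact_mod_cast (by omega : t₂ ≤ t))
      calc (Q : ℝ) = κ / 2 * (2 / κ * Q) := by field_simp
        _ ≤ κ / 2 * t := mul_le_mul_of_nonneg_left h7 (by positivity)
    have h7 : (2 : ℝ) ^ ((t : ℝ) + Q) ≤ L := by
      rw [← Real.le_logb_iff_rpow_le (by norm_num) hLr]
      linarith
    rw [Real.rpow_add (by norm_num), Real.rpow_natCast, Real.rpow_natCast] at h7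
    have h8 : (Q : ℝ) ≤ 2 ^ Q := by exact_mod_cast (Nat.lt_two_pow_self (n := Q)).le
    have h9 : (Q : ℝ) * 2 ^ t ≤ L := by
      refine le_trans ?_ h7
      rw [mul_comm]
      exact mul_le_mul_of_nonneg_left h8 (by positivity)
    exact_mod_cast h9

end Pool.Agent.Q74.BH
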