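import Pool.Agent.Q74.BH.Main
import Pool.Agent.Q176.SF.Prod

/-! # Project BH: the steps of one trajectory after the time `m` -/

set_option autoImplicit false

namespace Pool.Agent.Q74.BH

open Finset
open Pool.Agent.Q74.KP
open Pool.Agent.Q74.SF
open Pool.Agent.Q74.AR (oc oc_succ oc_per bE)
open Pool.Agent.Q158.Pair (T)
open Pool.Agent.Q158.Col4 (cI)

theorem pi_one {α : Type} (J : Finset α) (f : (Fin 1 → α) → ℝ) :
    ∑ z ∈ Fintype.piFinset (fun _ : Fin 1 => J), f z = ∑ z ∈ J, f (fun _ => z) := by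
  refine sum_nbij' (fun z => z 0) (fun z => fun _ => z) ?_ ?_ ?_ ?_ ?_
  · intro z hz
    rw [Fintype.mem_piFinset] at hz
    exact hz 0
  · intro z hz
    rw [Fintype.mem_piFinset]
    exact fun _ => hz
  · intro z _
    funext i
    rw [Subsingleton.elim i 0]
  · intro z _
    rfl
  · intro z _
    congr 1
    funext i
    rw [Subsingleton.elim i 0]

/-- the averages over shifts, exactly -/
theorem inner_one (r μ : ℕ) (z : ℤ) (φ : ℕ → ℝ) :
    (∑ w ∈ range (1 * 2 ^ r), φ (oc r (z + (3 ^ μ * w : ℕ)))) / (2 : ℝ) ^ r = bE r φ := by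
  have hper : Pe r (fun n => φ (oc r n)) := by
    intro n j
    simp only [oc_per]
  have h := EE_aff hper (3 ^ μ) (three_odd μ) z
  rw [Pool.Agent.Q176.SF.Prod.EE_oc] at h
  rw [← h]
  unfold EE
  rw [one_mul]
  congr 1
  apply sum_congr rfl
  intro w _
  congr 2
  push_cast
  ring

/-- the steps of one trajectory between the times `m` and `m + r`, beyond the horizon `log_2 L` -/
theorem one (hT : S_TV) (hSh : S_Shift) (hSz : S_Size) (hLn : S_Ln) (hB : S_Binom) (hM : S_Mass) {κ ε : ℝ}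
    (hκ : 0 < κ) (hε : 0 < ε) : ∃ δ : ℝ, 0 < δ ∧ ∀ η : ℝ, 0 < η → ∃ H₀ : ℕ, ∀ H : ℕ, H₀ ≤ H → ∀ m r L : ℕ, 1 ≤ L →
      cI * Real.log H ≤ (1 + δ) * m → (m : ℝ) ≤ (cI - η) * Real.log H →
      (1 + κ) * ((m : ℝ) + r) ≤ cI * Real.log H + Real.logb 2 (L / H) → ∀ (a : ℤ) (φ : ℕ → ℝ), (∀ n, |φ n| ≤ 1) →
      |(∑ x ∈ Ico a (a + L), ∑ i : Fin H, φ (oc r (T^[m] (x + ((i : ℕ) : ℤ))))) / (L * H) - bE r φ| ≤ ε := by
  set ε₁ : ℝ := min (1 / 2) (ε / 20) with hε₁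
  have hε₁0 : 0 < ε₁ := by positivity
  have hε₁h : ε₁ ≤ 1 / 2 := min_le_left _ _
  have hε₁D : 20 * ε₁ ≤ ε := by
    have : ε₁ ≤ ε / 20 := min_le_right _ _
    linarith
  set K : ℝ := 1 / √ε₁ with hK
  have hK0 : 0 < K := by positivity
  have hKe : 1 / K ^ 2 = ε₁ := by
    rw [hK, div_pow, one_pow, Real.sq_sqrt hε₁0.le, one_div_one_div]
  obtain ⟨δ₂, hδ₂, H₂, hsize⟩ := hSz κ K ε₁ 1 hκ hK0 hε₁0
  refine ⟨min δ₂ 1, by positivity, fun η hη => ?_⟩
  obtain ⟨H₃, htv⟩ := hT η ε₁ K hη hε₁0 hK0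
  obtain ⟨H₄, hln⟩ := hLn η K ε₁ hη hK0 hε₁0
  obtain ⟨H₅, hH₅⟩ := exists_nat_ge (Real.exp (1 / (4 * K ^ 2)))
  refine ⟨H₂ + H₃ + H₄ + H₅ + 1, fun H hH m r L hL hm1 hm2 hhor a φ hφ => ?_⟩
  have hHr : (0 : ℝ) < H := by
    have : 0 < H := by omega
    exact_mod_cast this
  have hH1 : (1 : ℝ) ≤ H := by
    have : 1 ≤ H := by omega
    exact_mod_cast this
  have hlog0 : 0 ≤ Real.log H := Real.log_nonneg hH1
  have hlogH : 1 / (4 * K ^ 2) ≤ Real.log H := by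
    rw [Real.le_log_iff_exp_le hHr]
    refine hH₅.trans ?_
    exact_mod_cast (by omega : H₅ ≤ H)
  have hLr : (0 : ℝ) < L := by exact_mod_cast hL
  have hcI := cI_gt
  have hmr : (0 : ℝ) ≤ m := Nat.cast_nonneg m
  have hd2 : cI * Real.log H ≤ (1 + δ₂) * m := hm1.trans (mul_le_mul_of_nonneg_right (by
    have := min_le_left δ₂ (1 : ℝ)
    linarith) hmr)
  have hd3 : cI * Real.log H ≤ 2 * m := hm1.trans (mul_le_mul_of_nonneg_right (by
    have := min_le_right δ₂ (1 : ℝ)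
    linarith) hmr)
  have hlogm : Real.log H ≤ m := by nlinarith
  have hmc : (m : ℝ) ≤ cI * Real.log H := hm2.trans (mul_le_mul_of_nonneg_right (by linarith) hlog0)
  have hKm : 1 / 2 ≤ K * √m := by
    have h1 : 1 / (4 * K ^ 2) ≤ (m : ℝ) := by linarith
    have h2 : 1 / (2 * K) ≤ √m := by
      apply Real.le_sqrt_of_sq_le
      refine le_trans (le_of_eq ?_) h1
      field_simp
      norm_num
    calc (1 : ℝ) / 2 = K * (1 / (2 * K)) := by field_simp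
      _ ≤ K * √m := mul_le_mul_of_nonneg_left h2 hK0.le
  have hTne := Typ_ne hKm
  obtain ⟨μ, hμ, hTV⟩ := htv H (by omega) m hlogm hm2
  rw [hKe] at hTV
  have hlnT := hln H (by omega) m hlogm hm2 μ hμ
  set o₀ := (Typ K m).min' hTne with ho₀
  have ho₀m : o₀ ∈ Typ K m := min'_mem _ _
  have hsz := hsize H (by omega) m r L hL hd2 hmc hhor μ hμ o₀ ho₀m
  set B : ℤ → ℝ := fun x => ∑ o ∈ Typ K m, ∑ z ∈ Jw m o H x, den m μ H o z * φ (oc r z) with hBd
  have hstep1 : ∀ x : ℤ, |(∑ i : Fin H, φ (oc r (T^[m] (x + ((i : ℕ) : ℤ))))) / H - B x| ≤ 2 * ε₁ := by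
    intro x
    have h2 := hTV x (fun o z => φ (oc r z)) (fun o z => hφ _)
    rw [win_sum] at h2
    linarith
  have hc1 : |bE r φ| ≤ 1 := by
    have h := Pool.Agent.Q74.AR.bE_close r φ (fun _ => 0) 1 (fun k => by rw [sub_zero]; exact hφ k)
    rwa [Pool.Agent.Q74.AR.bE_const, sub_zero] at h
  set S1 : ℕ → ℝ := fun o => ∑ x ∈ Ico a (a + L), ∑ z ∈ Jw m o H x,
    (den m μ H o z / ((m.choose o : ℝ) / 2 ^ m)) * φ (oc r z) with hS1
  have hstep2 : ∀ o ∈ Typ K m, |S1 o - bE r φ * L| ≤ 2 * (2 * ε₁ + 2 * ε₁ + ε₁) * L := by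
    intro o ho
    have hlnpos : 0 < ln m o H := by
      unfold ln
      positivity
    have hθ : 3 ^ μ / ln m o H ≤ ε₁ := by
      rw [div_le_iff₀ hlnpos]
      exact (hlnT o ho).1
    have hb := bin_pos ho
    have h := fixed_o (k := 1) (m := m) (r := r) (μ := μ) (H := H) (L := L) (Q := 1) (o₀ := o₀) (a := a) hSh hL le_rfl
      (fun _ => o) (fun _ z => den m μ H o z / ((m.choose o : ℝ) / 2 ^ m))
      (fun z => φ (oc r (z 0))) (fun z => hφ _) hc1 hε₁0.le (by linarith)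
      hε₁0.le (εS := ε₁) ?_ ?_ ?_ (fun _ => (hlnT o ho).2) (fun _ => min'_le _ _ ho) hsz ?_
    · have e : ∀ x : ℤ, ∑ z ∈ Fintype.piFinset (fun _ : Fin 1 => Jw m o H x),
          (∏ i : Fin 1, den m μ H o (z i) / ((m.choose o : ℝ) / 2 ^ m)) * φ (oc r (z 0)) =
          ∑ z ∈ Jw m o H x, (den m μ H o z / ((m.choose o : ℝ) / 2 ^ m)) * φ (oc r z) := by
        intro x
        rw [pi_one]
        apply sum_congr rfl
        intro z _
        rw [prod_const, card_univ, Fintype.card_fin, pow_one]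
      simp only [e] at h
      refine h.trans (le_of_eq ?_)
      push_cast
      ring
    · intro _ z
      obtain ⟨h1, h2⟩ := (hM m μ H o a (by omega)).1 z
      refine ⟨div_nonneg h1 hb.le, ?_⟩
      rw [div_le_iff₀ hb]
      refine h2.trans ?_
      rw [mul_comm ε₁]
      exact mul_le_mul_of_nonneg_left hθ hb.le
    · intro _ z
      rw [(hM m μ H o a (by omega)).2.1 z]
    · intro _ x
      have h1 := (hM m μ H o x (by omega)).2.2
      rw [← sum_div]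
      have e : (∑ z ∈ Jw m o H x, den m μ H o z) / ((m.choose o : ℝ) / 2 ^ m) - 1 =
          (∑ z ∈ Jw m o H x, den m μ H o z - (m.choose o : ℝ) / 2 ^ m) / ((m.choose o : ℝ) / 2 ^ m) := by
        rw [sub_div, div_self hb.ne']
      rw [e, abs_div, abs_of_pos hb, div_le_iff₀ hb]
      refine h1.trans ?_
      rw [mul_comm ε₁]
      exact mul_le_mul_of_nonneg_left hθ hb.le
    · intro x z hz
      have hc : ∀ c : ℕ, (∑ w ∈ range (1 * 2 ^ r), φ (oc r (z 0 + 3 ^ c * (3 ^ μ * w : ℕ)))) / (2 : ℝ) ^ r = bE r φ := by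
        intro c
        have h := inner_one r (c + μ) (z 0) φ
        rw [← h]
        congr 1
        apply sum_congr rfl
        intro w _
        congr 2
        push_cast
        ring
      have h := hc (o - o₀)
      have e : (∑ w ∈ range (1 * 2 ^ r), φ (oc r (z 0 + 3 ^ (o - o₀) * ((3 ^ μ * w : ℕ) : ℤ)))) / (((1 : ℕ) : ℝ) * 2 ^ r) -
          bE r φ = 0 := by
        rw [Nat.cast_one, one_mul ((2 : ℝ) ^ r), h, sub_self]
      rw [e, abs_zero]
      exact hε₁0.le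
  have hstep3 : (∑ x ∈ Ico a (a + L), B x) / L = ∑ o ∈ Typ K m, (m.choose o : ℝ) / 2 ^ m * (S1 o / L) := by
    rw [hBd]
    simp only
    rw [sum_comm, sum_div]
    apply sum_congr rfl
    intro o ho
    rw [mul_div_assoc']
    congr 1
    rw [hS1]
    simp only
    rw [mul_sum]
    apply sum_congr rfl
    intro x _
    rw [mul_sum]
    apply sum_congr rfl
    intro z _
    rw [← mul_assoc, mul_div_cancel₀ _ (bin_pos ho).ne']
  have hbin := bin_sum K m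
  have hbinnn : ∀ o : ℕ, 0 ≤ (m.choose o : ℝ) / 2 ^ m := fun o => by positivity
  have hstep4 : |(∑ x ∈ Ico a (a + L), B x) / L - (∑ o ∈ Typ K m, (m.choose o : ℝ) / 2 ^ m) * bE r φ| ≤
      2 * (2 * ε₁ + 2 * ε₁ + ε₁) := by
    rw [hstep3, sum_mul, ← sum_sub_distrib]
    have h1 : ∀ o ∈ Typ K m, |(m.choose o : ℝ) / 2 ^ m * (S1 o / L) - (m.choose o : ℝ) / 2 ^ m * bE r φ| ≤
        (m.choose o : ℝ) / 2 ^ m * (2 * (2 * ε₁ + 2 * ε₁ + ε₁)) := by
      intro o ho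
      rw [← mul_sub, abs_mul, abs_of_nonneg (hbinnn o)]
      apply mul_le_mul_of_nonneg_left _ (hbinnn o)
      have h2 := hstep2 o ho
      have e : S1 o / L - bE r φ = (S1 o - bE r φ * L) / L := by field_simp
      rw [e, abs_div, abs_of_pos hLr, div_le_iff₀ hLr]
      exact h2
    refine (abs_sum_le_sum_abs _ _).trans ((sum_le_sum h1).trans ?_)
    rw [← sum_mul]
    have h0 : (0 : ℝ) ≤ 2 * (2 * ε₁ + 2 * ε₁ + ε₁) := by positivity
    calc _ ≤ 1 * (2 * (2 * ε₁ + 2 * ε₁ + ε₁)) := mul_le_mul_of_nonneg_right hbin h0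
      _ = _ := one_mul _
  have hstep5 : |(∑ o ∈ Typ K m, (m.choose o : ℝ) / 2 ^ m) * bE r φ - bE r φ| ≤ ε₁ := by
    have h := hB 1 m K hK0 (fun _ => 1) (fun _ => by rw [abs_one])
    rw [act_const, pi_one (Typ K m) (fun o : Fin 1 → ℕ => (∏ i, (m.choose (o i) : ℝ) / 2 ^ m) * 1)] at h
    have e : ∑ z ∈ Typ K m, (∏ _i : Fin 1, (m.choose z : ℝ) / 2 ^ m) * 1 = ∑ o ∈ Typ K m, (m.choose o : ℝ) / 2 ^ m := by
      apply sum_congr rfl
      intro z _
      rw [prod_const, card_univ, Fintype.card_fin, pow_one, mul_one]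
    rw [e, Nat.cast_one, hKe] at h
    have e2 : (∑ o ∈ Typ K m, (m.choose o : ℝ) / 2 ^ m) * bE r φ - bE r φ =
        (∑ o ∈ Typ K m, (m.choose o : ℝ) / 2 ^ m - 1) * bE r φ := by ring
    rw [e2, abs_mul]
    calc _ ≤ ε₁ * 1 := mul_le_mul h hc1 (abs_nonneg _) hε₁0.le
      _ = ε₁ := mul_one _
  have hstep6 : |(∑ x ∈ Ico a (a + L), ∑ i : Fin H, φ (oc r (T^[m] (x + ((i : ℕ) : ℤ))))) / (L * H) -
      (∑ x ∈ Ico a (a + L), B x) / L| ≤ 2 * ε₁ := by
    have e1 : (∑ x ∈ Ico a (a + (L : ℤ)), ∑ i : Fin H, φ (oc r (T^[m] (x + ((i : ℕ) : ℤ))))) / (L * H) =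
        (∑ x ∈ Ico a (a + L), (∑ i : Fin H, φ (oc r (T^[m] (x + ((i : ℕ) : ℤ))))) / H) / L := by
      rw [← sum_div, div_div, mul_comm (L : ℝ)]
    rw [e1, ← sub_div, ← sum_sub_distrib, abs_div, abs_of_pos hLr, div_le_iff₀ hLr]
    refine (abs_sum_le_sum_abs _ _).trans ((sum_le_sum (fun x _ => hstep1 x)).trans (le_of_eq ?_))
    rw [sum_const, nsmul_eq_mul, Int.card_Ico, show (a + (L : ℤ) - a).toNat = L by omega]
    ring
  have h7 := abs_sub_le ((∑ x ∈ Ico a (a + L), ∑ i : Fin H, φ (oc r (T^[m] (x + ((i : ℕ) : ℤ))))) / (L * H))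
    ((∑ x ∈ Ico a (a + L), B x) / L) ((∑ o ∈ Typ K m, (m.choose o : ℝ) / 2 ^ m) * bE r φ)
  have h8 := abs_sub_le ((∑ x ∈ Ico a (a + L), ∑ i : Fin H, φ (oc r (T^[m] (x + ((i : ℕ) : ℤ))))) / (L * H))
    ((∑ o ∈ Typ K m, (m.choose o : ℝ) / 2 ^ m) * bE r φ) (bE r φ)
  linarith

end Pool.Agent.Q74.BH
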