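import Pool.Agent.Q74.BH.Full

/-! # Project BH: equal values at different levels are rare -/

set_option autoImplicit false

namespace Pool.Agent.Q74.BH

open Finset
open Pool.Agent.Q74.AR (oc)
open Pool.Agent.Q158.Pair (T)
open Pool.Agent.Q158.Col4 (cI)

open Classical in
/-- JOB Lev: `theorem lev (hFr : S_FreeA) : S_Lev`. Pairs `y = x + h`, `y' = x + h'` with `T^t y = T^t y'` but different
numbers of odd steps are rare. Proof. Let `X = cI log H`, `κ ≤ 1`.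
(a) If `t ≤ (1 - κ/4) X`: by `S_FreeA` (`k = 2`, `F = 1`) the values are different but for a proportion `ε` (for `H` large;
`H` is large since `t ≥ t₀`), for each `x`.
(b) If `t > (1 - κ/4) X`, then `log_2 (L/H) ≥ (1+κ) t - X ≥ κ t / 2`, so `L / H` is large. Write
`2^t T^t y = 3^o y + c`, `c / 3^o = ∑_j 2^(i_j) / 3^(j+1)`, `i_j` = time of the odd step number `j` (`cw (wd 1 t y)`,
`Pool/Agent/TH930/EBQ/Words.lean`). If `|oc s y - s/2| ≤ δ t` for all `s ≤ t`, then `i_j ≤ 2 j + 2 δ t + 2`, so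
`c / 3^o ≤ D := exp ((1 + κ/2) t / cI)` for small `δ`, large `t` (`4^j / 3^j ≤ (4/3)^o`, `o ≤ t/2 + δ t`,
`log (4/3) / 2 = 1 / cI`). If `o > o'` and both are so, `3^(o-o') (y + c/3^o) = y' + c'/3^o'` gives
`3 (|y| - D) ≤ |y| + H + D`, so `|y| ≤ 2 D + H`; the proportion of the `x` with `|x| ≤ 2 D + 2 H` is at most
`(4 D + 4 H + 1) / L`, small, since `log L ≥ (1 + κ) t / cI`. The `y` with `|oc s y - s/2| > δ t` for some `s ≤ t` are
few in `[a, a + L + H)`: `Pool.Agent.Q158.Col4.law` with `B = 2`, `q = 1` for each `s` (`t ≤ (cI - η) log L` by the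
assumption, since `log_2 (L/H) ≤ cI log (L/H)`), and Hoeffding or Chebyshev of order four for the binomial law. -/
def S_Lev : Prop := ∀ κ ε : ℝ, 0 < κ → 0 < ε → ∃ t₀ : ℕ, ∀ t : ℕ, t₀ ≤ t → ∀ H L : ℕ, 1 ≤ H → H ≤ L →
  (1 + κ) * t ≤ cI * Real.log H + Real.logb 2 (L / H) → ∀ a : ℤ,
  ((((Ico a (a + L)) ×ˢ (range H ×ˢ range H)).filter (fun p : ℤ × ℕ × ℕ =>
    T^[t] (p.1 + p.2.1) = T^[t] (p.1 + p.2.2) ∧ oc t (p.1 + p.2.1) ≠ oc t (p.1 + p.2.2))).card : ℝ) ≤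
    ε * (L * (H : ℝ) ^ 2)

end Pool.Agent.Q74.BH
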