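import Pool.Agent.Q74.BH.Stm2
import Pool.Agent.Q74.BH.Stm3
import Pool.Agent.Q190.BH.FreeA

/-! # Project BH: the final forms -/

set_option autoImplicit false

namespace Pool.Agent.Q74.BH

open Finset
open Pool.Agent.Q74.KP
open Pool.Agent.Q74.SF
open Pool.Agent.Q74.AR (oc oc_succ oc_per bE bE_mono bE_mul)
open Pool.Agent.Q158.Pair (T)
open Pool.Agent.Q158.Col4 (cI)
open Pool.Agent.TH930.EBQ (ones wd words cw iter_eq)

variable {k : ℕ}

theorem sum_coord {ι β : Type} [Fintype ι] [DecidableEq ι] [Fintype β] (i : ι) (f : β → ℝ) :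
    ∑ h : ι → β, f (h i) = (Fintype.card β : ℝ) ^ (Fintype.card ι - 1) * ∑ b : β, f b := by
  rw [← (Equiv.funSplitAt i β).symm.sum_comp, Fintype.sum_prod_type]
  have e : ∀ (b : β) (g : {j // j ≠ i} → β), f ((Equiv.funSplitAt i β).symm (b, g) i) = f b := by
    intro b g
    simp
  simp only [e, sum_const, card_univ, nsmul_eq_mul]
  rw [← mul_sum]
  congr 1
  rw [Fintype.card_fun]
  push_cast
  congr 1
  rw [Fintype.card_subtype_compl, Fintype.card_subtype_eq]

theorem sum_coord2 {ι β : Type} [Fintype ι] [DecidableEq ι] [Fintype β] {i j : ι} (hij : i ≠ j) (f : β → β → ℝ) :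
    ∑ h : ι → β, f (h i) (h j) = (Fintype.card β : ℝ) ^ (Fintype.card ι - 2) * ∑ b : β, ∑ c : β, f b c := by
  rw [← (Equiv.funSplitAt i β).symm.sum_comp, Fintype.sum_prod_type]
  have e : ∀ (b : β) (g : {l // l ≠ i} → β), f ((Equiv.funSplitAt i β).symm (b, g) i)
      ((Equiv.funSplitAt i β).symm (b, g) j) = f b (g ⟨j, hij.symm⟩) := by
    intro b g
    simp [hij.symm]
  simp only [e]
  have e2 : ∀ b : β, ∑ g : {l // l ≠ i} → β, f b (g ⟨j, hij.symm⟩) =
      (Fintype.card β : ℝ) ^ (Fintype.card ι - 2) * ∑ c : β, f b c := by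
    intro b
    rw [sum_coord (⟨j, hij.symm⟩ : {l // l ≠ i}) (f b)]
    congr 2
    rw [Fintype.card_subtype_compl, Fintype.card_subtype_eq]
    omega
  simp only [e2]
  rw [← mul_sum]

/-- the coincidences of the values and those of the pairs (level, value) agree up to `k ^ 2 ε` -/
theorem val_pat (k : ℕ) {H L t : ℕ} {a : ℤ} {ε : ℝ} (hH : 1 ≤ H) (hL : 1 ≤ L) (hε : 0 ≤ ε)
    (hlev : ((((Ico a (a + L)) ×ˢ (range H ×ˢ range H)).filter (fun p : ℤ × ℕ × ℕ =>
      T^[t] (p.1 + p.2.1) = T^[t] (p.1 + p.2.2) ∧ oc t (p.1 + p.2.1) ≠ oc t (p.1 + p.2.2))).card : ℝ) ≤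
        ε * (L * (H : ℝ) ^ 2))
    (π : Fin k → Fin k) (G : (Fin k → ℤ) → ℝ) (hG : ∀ z, |G z| ≤ 1) :
    |Ab k H L t a (fun V => pat π (fun i => (V i).2) * G (fun i => (V i).1)) - Ab k H L t a (Ph π G)| ≤ k ^ 2 * ε := by
  classical
  have hHr : (0 : ℝ) < H := by exact_mod_cast hH
  have hLr : (0 : ℝ) < L := by exact_mod_cast hL
  set bad : ℤ → ℕ → ℕ → ℝ := fun x u v =>
    if T^[t] (x + u) = T^[t] (x + v) ∧ oc t (x + u) ≠ oc t (x + v) then 1 else 0 with hbad
  have hbad0 : ∀ x u v, 0 ≤ bad x u v := by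
    intro x u v
    rw [hbad]
    simp only
    split_ifs <;> norm_num
  have hcount : ∑ x ∈ Ico a (a + (L : ℤ)), ∑ u : Fin H, ∑ v : Fin H, bad x u v ≤ ε * (L * (H : ℝ) ^ 2) := by
    refine le_trans (le_of_eq ?_) hlev
    rw [card_filter]
    push_cast
    rw [sum_product]
    apply sum_congr rfl
    intro x _
    rw [sum_product, Fin.sum_univ_eq_sum_range (fun u => ∑ v : Fin H, bad x u v) H]
    apply sum_congr rfl
    intro u _
    rw [Fin.sum_univ_eq_sum_range (fun v => bad x u v) H]
  have hpt : ∀ (x : ℤ) (h : Fin k → Fin H),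
      |pat π (fun i => (V0 t x h i).2) * G (fun i => (V0 t x h i).1) - Ph π G (V0 t x h)| ≤
        ∑ i : Fin k, ∑ j : Fin k, bad x (h i) (h j) := by
    intro x h
    unfold Ph
    rw [← sub_mul, abs_mul]
    have hnn : 0 ≤ ∑ i : Fin k, ∑ j : Fin k, bad x (h i) (h j) := sum_nonneg fun i _ => sum_nonneg fun j _ => hbad0 _ _ _
    by_cases hb : ∃ i j, T^[t] (x + ((h i : ℕ) : ℤ)) = T^[t] (x + ((h j : ℕ) : ℤ)) ∧
        oc t (x + ((h i : ℕ) : ℤ)) ≠ oc t (x + ((h j : ℕ) : ℤ))
    · obtain ⟨i, j, hij⟩ := hb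
      have h1 : bad x (h i) (h j) = 1 := by
        rw [hbad]
        simp only
        rw [if_pos hij]
      have h2 : bad x (h i) (h j) ≤ ∑ i : Fin k, ∑ j : Fin k, bad x (h i) (h j) := by
        refine le_trans (single_le_sum (f := fun j => bad x (h i) (h j)) (fun j _ => hbad0 _ _ _) (mem_univ j)) ?_
        exact single_le_sum (f := fun i => ∑ j : Fin k, bad x (h i) (h j))
          (fun i _ => sum_nonneg fun j _ => hbad0 _ _ _) (mem_univ i)
      rw [h1] at h2
      have h3 : |pat π (fun i => (V0 t x h i).2) - pat π (V0 t x h)| ≤ 1 := by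
        have a1 := pat_nonneg π (fun i => (V0 t x h i).2)
        have a2 := pat_le_one π (fun i => (V0 t x h i).2)
        have a3 := pat_nonneg π (V0 t x h)
        have a4 := pat_le_one π (V0 t x h)
        rw [abs_le]
        constructor <;> linarith
      calc _ ≤ (1 : ℝ) * 1 := mul_le_mul h3 (hG _) (abs_nonneg _) zero_le_one
        _ ≤ _ := by linarith
    · push Not at hb
      have e : pat π (fun i => (V0 t x h i).2) = pat π (V0 t x h) := by
        unfold pat
        have h1 : ∀ i j, (V0 t x h i).2 = (V0 t x h j).2 ↔ V0 t x h i = V0 t x h j := by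
          intro i j
          constructor
          · intro h2
            have h3 := hb i j h2
            unfold V0 at *
            rw [Prod.mk.injEq]
            exact ⟨by exact_mod_cast h3, h2⟩
          · intro h2
            rw [h2]
        by_cases hc : ∀ i j, V0 t x h i = V0 t x h j ↔ π i = π j
        · rw [if_pos hc, if_pos]
          intro i j
          rw [h1]
          exact hc i j
        · rw [if_neg hc, if_neg]
          intro h2
          apply hc
          intro i j
          rw [← h1]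
          exact h2 i j
      rw [e, sub_self, abs_zero, zero_mul]
      exact hnn
  have h1 : ∑ x ∈ Ico a (a + (L : ℤ)), ∑ h : Fin k → Fin H, ∑ i : Fin k, ∑ j : Fin k, bad x (h i) (h j) ≤
      (k : ℝ) ^ 2 * ε * (L * (H : ℝ) ^ k) := by
    have e1 : ∑ x ∈ Ico a (a + (L : ℤ)), ∑ h : Fin k → Fin H, ∑ i : Fin k, ∑ j : Fin k, bad x (h i) (h j) =
        ∑ i : Fin k, ∑ j : Fin k, ∑ x ∈ Ico a (a + (L : ℤ)), ∑ h : Fin k → Fin H, bad x (h i) (h j) := by
      have e2 : ∀ x : ℤ, ∑ h : Fin k → Fin H, ∑ i : Fin k, ∑ j : Fin k, bad x (h i) (h j) =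
          ∑ i : Fin k, ∑ j : Fin k, ∑ h : Fin k → Fin H, bad x (h i) (h j) := by
        intro x
        rw [sum_comm]
        apply sum_congr rfl
        intro i _
        rw [sum_comm]
      simp only [e2]
      rw [sum_comm]
      apply sum_congr rfl
      intro i _
      rw [sum_comm]
    rw [e1]
    have h2 : ∀ i j : Fin k, ∑ x ∈ Ico a (a + (L : ℤ)), ∑ h : Fin k → Fin H, bad x (h i) (h j) ≤
        ε * (L * (H : ℝ) ^ k) := by
      intro i j
      by_cases hij : i = j
      · subst hij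
        have e3 : ∀ (x : ℤ) (h : Fin k → Fin H), bad x (h i) (h i) = 0 := by
          intro x h
          rw [hbad]
          simp
        simp only [e3, sum_const_zero]
        positivity
      · have e3 : ∀ x : ℤ, ∑ h : Fin k → Fin H, bad x (h i) (h j) =
            (H : ℝ) ^ (k - 2) * ∑ u : Fin H, ∑ v : Fin H, bad x u v := by
          intro x
          have := sum_coord2 hij (fun u v : Fin H => bad x u v)
          rw [Fintype.card_fin, Fintype.card_fin] at this
          exact this
        simp only [e3]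
        rw [← mul_sum]
        have hk2 : 2 ≤ k := by
          have h5 := i.2
          have h6 := j.2
          have h7 : (i : ℕ) ≠ j := fun h => hij (Fin.ext h)
          omega
        have e4 : (H : ℝ) ^ k = H ^ (k - 2) * H ^ 2 := by
          rw [← pow_add]
          congr 1
          omega
        calc (H : ℝ) ^ (k - 2) * ∑ x ∈ Ico a (a + (L : ℤ)), ∑ u : Fin H, ∑ v : Fin H, bad x u v ≤
            H ^ (k - 2) * (ε * (L * (H : ℝ) ^ 2)) := mul_le_mul_of_nonneg_left hcount (by positivity)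
          _ = ε * (L * (H : ℝ) ^ k) := by rw [e4]; ring
    calc _ ≤ ∑ i : Fin k, ∑ j : Fin k, ε * (L * (H : ℝ) ^ k) := sum_le_sum fun i _ => sum_le_sum fun j _ => h2 i j
      _ = _ := by
        rw [sum_const, sum_const, card_univ, Fintype.card_fin, nsmul_eq_mul, nsmul_eq_mul]
        ring
  unfold Ab
  rw [← sub_div, ← sum_sub_distrib, abs_div, abs_of_pos (by positivity : (0 : ℝ) < L * (H : ℝ) ^ k),
    div_le_iff₀ (by positivity)]
  refine le_trans (abs_sum_le_sum_abs _ _) (le_trans (sum_le_sum fun x _ => ?_) h1)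
  rw [← sum_sub_distrib]
  exact (abs_sum_le_sum_abs _ _).trans (sum_le_sum fun h _ => hpt x h)

end Pool.Agent.Q74.BH
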