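import Pool.Agent.Q74.SF.Res
import Pool.Agent.Q158.Col4.Main

/-! # Project BH (beyond the horizon): definitions and the statements of the lemma jobs

`x` runs over an interval of `L` integers, `h_i` over `[0, H)`; `k` trajectories `x + h_i` of the 3x+1 map `T`.
Part I: the joint law of the number of odd steps and of `T^m x` at unit scale (total variation) in EVERY interval of
`H` integers for `m ≤ (cI - η) log H`.
Part II: from the time `m` on the trajectories coalesce like walkers up to the time `cI log H + log_2 (L / H)`. -/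

set_option autoImplicit false

namespace Pool.Agent.Q74.BH

open Finset
open Pool.Agent.Q74.KP
open Pool.Agent.Q74.SF
open Pool.Agent.Q74.AR (oc)
open Pool.Agent.TH930.EBQ (ones wd words cw)
open Pool.Agent.H320R2.PD (FWT wwt Wo)
open Pool.Agent.H499R2.ND (GW cls dev)
open Pool.Agent.Q158.Col3 (PB)
open Pool.Agent.Q158.Col4 (cI kap)

/-! ## Part I: words -/

/-- the inverse of `2` modulo `3 ^ μ` -/
def i2 (μ : ℕ) : ℤ := (3 ^ μ + 1) / 2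

/-- the class modulo `3 ^ μ` of the values after the word `v` -/
def cl (μ : ℕ) (v : List Bool) : ℤ := ((cw v : ℤ) * i2 μ ^ v.length) % 3 ^ μ

/-- the average of `Φ` over the words of length `t` which begin with an odd step -/
noncomputable def OW (t : ℕ) (Φ : List Bool → ℝ) : ℝ := (∑ v ∈ words (t - 1), Φ (true :: v)) / 2 ^ (t - 1)

/-- the `x` with `T^t x ∈ E (number of odd steps)` -/
def SE (t : ℕ) (E : ℕ → Set ℤ) : Set ℤ :=
  {x : ℤ | (Pool.Agent.TH930.EBQ.T 1)^[t] x ∈ E (ones (wd 1 t x))}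

open Classical in
/-- the elements of `S` in `[α, β)` in the class `r` modulo `3 ^ μ` -/
noncomputable def cn (S : Set ℤ) (α β : ℝ) (μ : ℕ) (r : ℤ) : Finset ℤ :=
  (Ico ⌈α⌉ ⌈β⌉).filter (fun z => z ∈ S ∧ z % 3 ^ μ = r)

open Classical in
/-- JOB Cls: facts about the classes `cl`. Use `i2 μ * 2 ≡ 1 (mod 3^μ)` and
`cw (u ++ v) = 3 ^ ones v * cw u + 2 ^ u.length * cw v` (see `Pool/Agent/TH930/EBQ/Words.lean`). -/
def S_Cls : Prop :=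
  (∀ (μ : ℕ) (v : List Bool), 0 ≤ cl μ v ∧ cl μ v < 3 ^ μ) ∧
  (∀ (μ : ℕ) (v : List Bool) (z : ℤ), (3 : ℤ) ^ μ ∣ 2 ^ v.length * z - cw v ↔ z % 3 ^ μ = cl μ v) ∧
  (∀ (μ : ℕ) (u v : List Bool), μ ≤ ones v → cl μ (u ++ v) = cl μ v) ∧
  (∀ (μ : ℕ) (v : List Bool), cl μ (false :: v) = cl μ v)

open Classical in
/-- JOB Mix3: `Pool.Agent.Q158.Col3.mixT2` (file `Pool/Agent/Q158/Col3/Mix.lean`) without the restriction to odd `x`.
Proof: apply `mixT2` with `d = 2` and `2 * c` to the window `[2 a + 3^(k+m), 2 b + 3^(k+m))` and the set of the `x`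
with `(x - 3^(k+m)) / 2 ∈ S`; `z ↦ 2 z + 3^(k+m)` is a bijection onto the odd `x`, and
`3^n ∣ 2^T x - (2 Wo w + 3^k (2 c))` iff `3^n ∣ 2^T z - (Wo w + 3^k c)` for `n ≤ k + m`. -/
def S_Mix3 : Prop := ∀ (S : Set ℤ) (a b : ℝ), a ≤ b → ∀ (A k m m' T : ℕ), m' ≤ k → 1 ≤ k → ∀ c : ℤ,
  ∑ w ∈ FWT A k T, ((((Ico ⌈a⌉ ⌈b⌉).filter
      (fun z => z ∈ S ∧ (3 : ℤ) ^ (k + m) ∣ 2 ^ T * z - ((Wo w : ℤ) + 3 ^ k * c))).card : ℕ) : ℝ) ≤
    (∑ w ∈ FWT A k T, ((((Ico ⌈a⌉ ⌈b⌉).filter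
      (fun z => z ∈ S ∧ (3 : ℤ) ^ m' ∣ 2 ^ T * z - (Wo w : ℤ))).card : ℕ) : ℝ)) / 3 ^ (k + m - m') +
    2 ^ T * ((b - a) / 3 ^ (k + m) + 1) * dev (FWT A k T) wwt (fun w => (Wo w : ℤ)) (k + m) m'

/-- JOB Bits: the words of letters (`FWT`) are the parity words which begin with an odd step. The bijection: the letter
word `w = u ++ [e]` (the LAST letter is the first step, see `Wo`, `Vw_snoc`, `Q158.Col4.word_T`) gives the parity word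
`true :: replicate (e - 1) false ++ bits u`; `cw (bits w) = Wo w`. (Induction on `k`, peeling off the last letter, or
count preimages: both sides are sums over compositions of `t` in `k` parts.) -/
def S_Bits : Prop := ∀ (A k t : ℕ), 1 ≤ t → t ≤ A → ∀ f : ℕ → ℝ,
  ∑ w ∈ FWT A k t, f (Wo w) = ∑ v ∈ (words (t - 1)).filter (fun v => ones v + 1 = k), f (cw (true :: v))

/-- JOB Stage: the first `k` odd steps (a letter word `w`, `bits w` = its parity word as in JOB Bits) and the rest `v'`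
(length `t - w.sum`, begins with `true`): the words `bits w ++ v'` are distinct words of length `t` which begin with
`true`, their weights agree (`2^(-w.sum) 2^(-(t-w.sum-1)) = 2^(-(t-1))`), `ones (bits w ++ v') = k + ones v'` and
`cl μ (bits w ++ v') = cl μ v'` if `μ ≤ ones v'` (`S_Cls`, third part); otherwise the two values of `g` differ by at
most `2`. Compare `Q158.Col4.Od_stage`, `Mn_FW` in `Pool/Agent/Q158/Col4/Law.lean` (the same for functions of `ones`). -/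
def S_Stage : Prop := ∀ (A k Tl Tm t μ : ℕ), 1 ≤ k → Tm < t → ∀ g : ℕ → ℤ → ℝ, (∀ o r, 0 ≤ g o r ∧ g o r ≤ 2) →
  ∑ w ∈ GW A k Tl Tm, wwt w * OW (t - w.sum) (fun v => g (ones v + k) (cl μ v)) ≤
    OW t (fun v => g (ones v) (cl μ v)) +
      2 * ∑ w ∈ GW A k Tl Tm, wwt w * OW (t - w.sum) (fun v => if ones v < μ then 1 else 0)

/-- JOB Few: few ones are improbable (`∑ v ∈ words n, x ^ ones v = (1 + x) ^ n`, `x = 1 / 3`, Markov) -/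
def S_Few : Prop := ∀ t : ℕ, 1 ≤ t → OW t (fun v => if 4 * ones v < t then 1 else 0) ≤ 2 * Real.exp (-(t / 16 : ℝ))

/-- the statement of Part I for the odd integers of an arbitrary window of length `e^s`, up to the time `c s` -/
def QW (c : ℝ) : Prop := ∀ B : ℕ, ∃ κ C : ℝ, 0 < κ ∧ κ ≤ 1 ∧ 0 < C ∧ ∀ a b : ℝ, a < b → 1 ≤ Real.log (b - a) →
  ∀ t : ℕ, Real.log (b - a) / 10 ≤ t → (t : ℝ) ≤ c * Real.log (b - a) →
  ∀ μ : ℕ, 1 ≤ μ → (μ : ℝ) ^ 2 ≤ κ * Real.log (b - a) →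
  ∀ (E : ℕ → Set ℤ) (g : ℕ → ℤ → ℝ), (∀ o r, 0 ≤ g o r ∧ g o r ≤ 2) →
  (∀ (o : ℕ) (r : ℤ), o ≤ t → 0 ≤ r → r < 3 ^ μ →
    ((cn (E o) (a * 3 ^ o / 2 ^ t) (b * 3 ^ o / 2 ^ t) μ r).card : ℝ) ≤ g o r * ((b - a) * 3 ^ o / 2 ^ t / 3 ^ μ)) →
  ∀ m : ℕ, (m : ℝ) ^ 2 ≤ Real.log (b - a) →
  PB (SE t E) a b m (OW t (fun v => g (ones v) (cl μ v)) + C * Real.log (b - a) ^ 2 / (μ : ℝ) ^ B)

/-- JOB Base: for `t ≤ (6/5) s` (`s = log (b - a)`) directly. Reduce to `u = 1`, class `c` mod `3^m` (`cls_unit`).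
For small `s` use `Q158.Col4.PB_triv`. For large `s` split the odd `M` of the class `c` mod `3^m` with `T^t M ∈ E` by
the parity word `v = true :: v'` (`o = ones v`): `M ↦ z = T^t M = (3^o M + cw v) / 2^t` is injective, `z ∈ E o`,
`z ∈ [α + σ, β + σ)`, `α = a 3^o / 2^t`, `β = b 3^o / 2^t`, `0 ≤ σ = cw v / 2^t ≤ 3^o`, and
`3^(o+m) ∣ 2^t z - cw v - 3^o c`; the part of `[β, β + σ)` costs at most `2` for each word (total `2^t`). The words with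
`4 o < t` contribute at most the number of `M` with these words: `≤ ((b-a)/(2^t 3^m) + 1)` each (`S_Few`). For the
others use `S_Bits` (letters, `A = 3 t`) and `S_Mix3` with `k = o`, `T = t`, `m' = μ`, and `mix`
(`Pool/Agent/H499R2/NDMix.lean`, for each `o` the term `T = t` of the sum): main term
`∑_w g (o, cl) (β - α)/3^μ/3^(o+m-μ) = (b-a)/(2 3^m) * OW t (...)`, error `((b-a)/3^m + 2^t) ∑_o dev`,
`∑_o dev ≤ t * 2 t * C (μ^(-B') + (4 m / t)^B')` with `B' = B` or a little larger; note `2^t 3^m ≤ e^17 e^(-s/10) (b-a)`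
(see the proof of `Q158.Col4.Q_base`), `m ≤ √s`, `μ ≤ √s`. -/
def S_Base : Prop := QW (6 / 5)

/-- JOB Step: copy the proof of `Q158.Col4.Q_step` (`Pool/Agent/Q158/Col4/Step.lean`) with `SE t E` for `SS t q E`:
`stage2` with `S' T = SE (t - T) (fun j => E (j + k))` (an analogue of `SS_shift`), the hypothesis for the windows
`[a 3^k/2^T, b 3^k/2^T)` and `E (· + k)`, `g (· + k)` is the same as for `[a, b)` since
`a 3^k/2^T * 3^o/2^(t-T) = a 3^(k+o)/2^t`; `S_Stage` in place of `Od_stage`; the words with fewer than `μ` ones by `S_Few`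
(`μ ≤ √s`, `t - T ≥ 0.17 s`). -/
def S_Step : Prop := ∀ c c' : ℝ, 0 ≤ c → c' < 1 + kap * c → QW c → QW c'

/-- JOB Up: all integers of an interval. First `QW c` for all `c < cI` as in `Q158.Col4.Q_all`
(`Pool/Agent/Q158/Col4/Final.lean`) from `S_Base` and `S_Step`; then the odd parts `x = 2^j M`, `j < ⌊√ log H⌋` as in
`Q158.Col4.upper` (here `t ≥ log H`, so no separate case of small `t`), with `cl μ (false :: v) = cl μ v`; the window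
`[a / 2^j, (a + H) / 2^j)` with `t - j` steps has the same sets `E o` and windows of values. -/
def S_Up : Prop := ∀ c : ℝ, c < cI → ∀ B : ℕ, ∃ κ C : ℝ, 0 < κ ∧ κ ≤ 1 ∧ 0 < C ∧ ∀ H : ℕ, 2 ≤ H →
  ∀ (a : ℤ) (t : ℕ), Real.log H ≤ t → (t : ℝ) ≤ c * Real.log H →
  ∀ μ : ℕ, 1 ≤ μ → (μ : ℝ) ^ 2 ≤ κ * Real.log H →
  ∀ (E : ℕ → Set ℤ) (g : ℕ → ℤ → ℝ), (∀ o r, 0 ≤ g o r ∧ g o r ≤ 2) →
  (∀ (o : ℕ) (r : ℤ), o ≤ t → 0 ≤ r → r < 3 ^ μ →
    ((cn (E o) (a * 3 ^ o / 2 ^ t) (((a : ℝ) + H) * 3 ^ o / 2 ^ t) μ r).card : ℝ) ≤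
      g o r * (H * 3 ^ o / 2 ^ t / 3 ^ μ)) →
  ∀ F : Finset ℤ, (∀ x ∈ F, a ≤ x ∧ x < a + H ∧ x ∈ SE t E) →
  (F.card : ℝ) ≤ H * ((∑ v ∈ words t, g (ones v) (cl μ v)) / 2 ^ t + C * Real.log H ^ 2 / (μ : ℝ) ^ B)

/-! ## Part I: the law at unit scale -/

/-- the length of the window of the values after `m` steps, `o` of them odd -/
noncomputable def ln (m o H : ℕ) : ℝ := H * 3 ^ o / 2 ^ m

/-- the window of the values after `m` steps, `o` of them odd -/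
noncomputable def Jw (m o H : ℕ) (x : ℤ) : Finset ℤ := Ico ⌈(x : ℝ) * 3 ^ o / 2 ^ m⌉ ⌈((x : ℝ) + H) * 3 ^ o / 2 ^ m⌉

/-- the typical numbers of odd steps -/
noncomputable def Typ (K : ℝ) (m : ℕ) : Finset ℕ := (range (m + 1)).filter (fun o => |(o : ℝ) - m / 2| ≤ K * √m)

/-- the probability that a word of length `m` has `o` ones and the class of `z` modulo `3 ^ μ` -/
noncomputable def om (m μ o : ℕ) (z : ℤ) : ℝ :=
  (((words m).filter (fun v => ones v = o ∧ cl μ v = z % 3 ^ μ)).card : ℝ) / 2 ^ m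

/-- the model: density of the values, with the 3-adic weights -/
noncomputable def den (m μ H o : ℕ) (z : ℤ) : ℝ := om m μ o z * (3 ^ μ / ln m o H)

/-- JOB TV: the law at unit scale in every interval. Let `P (o, z)` be the proportion of the `x ∈ [a, a + H)` with
`oc m x = o`, `T^m x = z`, `Q (o, z) = den m μ H o z` for `o ∈ Typ K m`, `z ∈ Jw m o H a`. With `μ` about
`(log H)^(1/3)` and `B = 7` apply `S_Up` (a) to `E o = {z | P (o, z) > Q (o, z)}` for `o ∈ Typ K m` (empty otherwise) and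
`g (o, r) = #(cn (E o) .. μ r) * 3^μ / ln m o H ≤ 2` (`S_Ln`): `P (E) ≤ Q (E) + small`; (b) to the complements of the
windows `Jw`, `o ∈ Typ K m`, with `g = 0`: the `x` with typical `o` and `T^m x` outside of the window are few; and
`Q158.Col4.law` (`q = 1`) with Chebyshev for `o ∉ Typ K m`: proportion `≤ 1 / (4 K^2) + small`. So
`∑ (P - Q)^+ ≤ 1 / (4 K^2) + small`, and the total mass of `Q` is at most `1 + small` (`S_Mass`), hence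
`∑ |P - Q| ≤ 2 ∑ (P - Q)^+ + Q(1) - 1 ≤ 1 / K^2 + small`. -/
def S_TV : Prop := ∀ η ε K : ℝ, 0 < η → 0 < ε → 0 < K → ∃ H₀ : ℕ, ∀ H : ℕ, H₀ ≤ H → ∀ m : ℕ,
  Real.log H ≤ m → (m : ℝ) ≤ (cI - η) * Real.log H → ∃ μ : ℕ, (μ : ℝ) ^ 2 ≤ Real.log H ∧
  ∀ (a : ℤ) (F : ℕ → ℤ → ℝ), (∀ o z, |F o z| ≤ 1) →
  |(∑ x ∈ Ico a (a + H), F (oc m x) (Pool.Agent.Q158.Pair.T^[m] x)) / H -
    ∑ o ∈ Typ K m, ∑ z ∈ Jw m o H a, den m μ H o z * F o z| ≤ ε + 1 / K ^ 2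

/-! ## Part II -/

/-- JOB ProdK: products of close laws are close (replace the coordinates one by one; `∑ b ≤ 1 + ε` from `F = 1`; for
instance by induction on `k` with `Fin.cons`) -/
def S_ProdK : Prop := ∀ (α ι κ : Type) (I : Finset ι) (J : Finset κ) (a : ι → ℝ) (b : κ → ℝ) (p : ι → α) (q : κ → α)
  (ε : ℝ), 0 ≤ ε → (∀ i ∈ I, 0 ≤ a i) → ∑ i ∈ I, a i ≤ 1 → (∀ j ∈ J, 0 ≤ b j) →
  (∀ F : α → ℝ, (∀ x, |F x| ≤ 1) → |∑ i ∈ I, a i * F (p i) - ∑ j ∈ J, b j * F (q j)| ≤ ε) →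
  ∀ (k : ℕ) (Ψ : (Fin k → α) → ℝ), (∀ v, |Ψ v| ≤ 1) →
  |∑ i ∈ Fintype.piFinset (fun _ : Fin k => I), (∏ l, a (i l)) * Ψ (fun l => p (i l)) -
    ∑ j ∈ Fintype.piFinset (fun _ : Fin k => J), (∏ l, b (j l)) * Ψ (fun l => q (j l))| ≤ k * ε * (1 + ε) ^ k

/-- JOB Shift: the sliding windows. Put `δ = ⌊2^m w / 3^o₀⌋`, `s_i = 3^(o i - o₀) w`, `z' = z + s`: the second sum is
`∑_x ∑_{z' ∈ ∏ (Jw (x) + s_i)} ∏ β_i (z'_i) Ψ z'` (periodicity, `3^μ ∣ s_i`), and `Jw (x) + s_i` differs from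
`Jw (x + δ)` in at most one element at each end, since `0 ≤ s_i - δ 3^(o i)/2^m ≤ 3^(o i) / 2^m ≤ 1`: for each `x` the
error is at most `k 2^k θ` (replace the coordinates one by one; masses `≤ 2`); and the ranges of `x + δ` and `x`
differ in at most `2 δ` integers, each costs at most `2^k`. -/
def S_Shift : Prop := ∀ (k m H μ : ℕ) (o : Fin k → ℕ) (β : Fin k → ℤ → ℝ) (θ : ℝ),
  (∀ i, 3 ^ o i ≤ 2 ^ m) → (∀ i z, 0 ≤ β i z ∧ β i z ≤ θ) → (∀ i z, β i (z + 3 ^ μ) = β i z) →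
  (∀ i x, ∑ z ∈ Jw m (o i) H x, β i z ≤ 2) → ∀ o₀ : ℕ, (∀ i, o₀ ≤ o i) →
  ∀ (a : ℤ) (L w : ℕ), 3 ^ μ ∣ w → ∀ Ψ : (Fin k → ℤ) → ℝ, (∀ z, |Ψ z| ≤ 1) →
  |∑ x ∈ Ico a (a + L), ∑ z ∈ Fintype.piFinset (fun i => Jw m (o i) H x), (∏ i, β i (z i)) * Ψ z -
    ∑ x ∈ Ico a (a + L), ∑ z ∈ Fintype.piFinset (fun i => Jw m (o i) H x), (∏ i, β i (z i)) *
      Ψ (fun i => z i + 3 ^ (o i - o₀) * w)| ≤ 2 ^ k * (2 * (2 ^ m * w / 3 ^ o₀) + k * θ * L)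

/-- level and value after `r` more steps -/
def fut {k : ℕ} (r : ℕ) (o : Fin k → ℕ) (z : Fin k → ℤ) : Fin k → ℤ × ℤ :=
  fun i => ((o i : ℤ) + oc r (z i), Pool.Agent.Q158.Pair.T^[r] (z i))

/-- JOB Inner: averages over shifts: `theorem inner (hF : S_Fix) (hV : S_Conv) : S_Inner`. Apply `S_Conv` with `d = 1`,
`u`, `s = 0`, `M = 0`, `L = Q * 2^r`, `a = fun i => o i - o₀`, `b = z`, the function `G (· + o₀)`, then `S_Fix`
(`Off ρ r (fun i => o i - o₀) z` is the same as `Off ρ r o z`), and the translation invariance of `CG`;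
`Q ≥ 2 (2 + k^2) / ε`. `Vd 1`, `ocd 1` against `T`, `oc`: see `Pool/Agent/Q74/SF/Res.lean`, `Pool/Agent/Q74/KP/Fin.lean`. -/
def S_Inner : Prop := ∀ (k : ℕ) (Λ ε : ℝ), 0 ≤ Λ → 0 < ε → ∃ ρ : ℝ, 0 < ρ ∧ ∃ r₀ Q : ℕ, 1 ≤ Q ∧ ∀ r : ℕ, r₀ ≤ r →
  ∀ (o : Fin k → ℕ) (z : Fin k → ℤ), Off ρ r o z → ∀ o₀ : ℕ, (∀ i, o₀ ≤ o i) → ∀ u : ℕ, u % 2 = 1 →
  ∀ (π : Fin k → Fin k) (G : (Fin k → ℤ) → ℝ), (∀ z, |G z| ≤ 1) →
  (∀ z w : Fin k → ℤ, |G z - G w| ≤ Λ / √r * ∑ i, |(z i : ℝ) - w i|) →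
  |(∑ w ∈ range (Q * 2 ^ r), Ph π G (fut r o (fun i => z i + 3 ^ (o i - o₀) * (u * w : ℕ)))) / (Q * 2 ^ r) -
    CG (Fm π G) r (fun i => (o i : ℤ))| ≤ ε

/-- JOB OffT: the offsets after `m` steps. `o j - o i ≤ 2 K √m`; for `o i ≤ o j` the reals `3^(o j - o i) z_i` and `z_j`
are in the same interval of length `ln m (o j) H = 3^(o j - o i) ln m (o i) H`, and `log (ln m o H) ≤ log H - m / cI +
K √m log 3` (`1 / cI = log 2 - log 3 / 2`), `log H ≤ (1 + δ) m / cI`: take `δ` small against `ρ κ cI`. -/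
def S_OffT : Prop := ∀ ρ κ K : ℝ, 0 < ρ → 0 < κ → 0 < K → ∃ δ : ℝ, 0 < δ ∧ ∃ H₀ : ℕ, ∀ H : ℕ, H₀ ≤ H →
  ∀ m r : ℕ, κ * m ≤ r → cI * Real.log H ≤ (1 + δ) * m → (m : ℝ) ≤ cI * Real.log H →
  ∀ (k : ℕ) (o : Fin k → ℕ), (∀ i, o i ∈ Typ K m) → ∀ (x : ℤ) (z : Fin k → ℤ), (∀ i, z i ∈ Jw m (o i) H x) →
  Off ρ r o z

/-- JOB Size: the shifts are small against `L` (take logarithms; `log 2 - log 3 / 2 = 1 / cI`,
`m / cI ≤ log H ≤ (1 + δ) m / cI`, `δ ≤ κ / 2`, errors `O (√m)`) -/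
def S_Size : Prop := ∀ (κ K ε : ℝ) (Q : ℕ), 0 < κ → 0 < K → 0 < ε → ∃ δ : ℝ, 0 < δ ∧ ∃ H₀ : ℕ, ∀ H : ℕ, H₀ ≤ H →
  ∀ m r L : ℕ, 1 ≤ L → cI * Real.log H ≤ (1 + δ) * m → (m : ℝ) ≤ cI * Real.log H →
  (1 + κ) * ((m : ℝ) + r) ≤ cI * Real.log H + Real.logb 2 (L / H) → ∀ μ : ℕ, (μ : ℝ) ^ 2 ≤ Real.log H →
  ∀ o₀ ∈ Typ K m, (2 : ℝ) ^ m * (3 ^ μ * (Q * 2 ^ r)) / 3 ^ o₀ ≤ ε * L

/-- JOB Ln: the windows are long (`log (ln m o H) ≥ (η / cI) log H - K √m log 3`), and `3^o ≤ 2^m` -/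
def S_Ln : Prop := ∀ η K ε : ℝ, 0 < η → 0 < K → 0 < ε → ∃ H₀ : ℕ, ∀ H : ℕ, H₀ ≤ H → ∀ m : ℕ,
  Real.log H ≤ m → (m : ℝ) ≤ (cI - η) * Real.log H → ∀ μ : ℕ, (μ : ℝ) ^ 2 ≤ Real.log H → ∀ o ∈ Typ K m,
  (3 : ℝ) ^ μ ≤ ε * ln m o H ∧ 3 ^ o ≤ 2 ^ m

/-- JOB Binom: independent walkers from `0` and the typical binomial weights (`act k (PP k ^ m) F 0 =
∑_{o ∈ [0, m]^k} ∏ binomial F o`, compare `act_PP`, `act_cons` in `Pool/Agent/Q176/SF/Prod.lean`; Chebyshev: the weight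
of the `o ∉ Typ K m` is at most `1 / (4 K^2)`) -/
def S_Binom : Prop := ∀ (k m : ℕ) (K : ℝ), 0 < K → ∀ F : (Fin k → ℤ) → ℝ, (∀ z, |F z| ≤ 1) →
  |∑ o ∈ Fintype.piFinset (fun _ : Fin k => Typ K m), (∏ i, (m.choose (o i) : ℝ) / 2 ^ m) * F (fun i => (o i : ℤ)) -
    act k (PP k ^ m) F 0| ≤ k / K ^ 2

/-- JOB Mass: the mass of the windows in the model (`om m μ o z` depends on `z % 3^μ` only and
`∑_{r < 3^μ} om m μ o r = choose m o / 2^m`; a class has `ln / 3^μ ± 1` elements in the window) -/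
def S_Mass : Prop := ∀ (m μ H o : ℕ) (x : ℤ), 1 ≤ H →
  (∀ z, 0 ≤ den m μ H o z ∧ den m μ H o z ≤ (m.choose o : ℝ) / 2 ^ m * (3 ^ μ / ln m o H)) ∧
  (∀ z, den m μ H o (z + 3 ^ μ) = den m μ H o z) ∧
  |∑ z ∈ Jw m o H x, den m μ H o z - (m.choose o : ℝ) / 2 ^ m| ≤ (m.choose o : ℝ) / 2 ^ m * (3 ^ μ / ln m o H)

/-- JOB Merge (model): `k + 1` walkers, free for `m` steps, then coalescing for `r` steps, are all together with a
probability which decays at most like `(1 - η) ^ k`. Proof: let `R` be large. After `m` steps all the walkers are in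
`[m/2 - R √m, m/2 + R √m]` with probability at least `(1 - 1/(4 R^2))^(k+1)` (Chebyshev, independence); if so, all are
together `r` steps later iff the extreme ones are (`S_CMono`, `S_Comp`, `S_CInj`), and two walkers at the distance
`2 R √m ≤ 2 R √(r/κ)` meet within `r` steps with probability bounded below (`NG` for two walkers: `Expl.lean`, `Free.lean` in
`Pool/Agent/Q74/KP`). The proofs of `S_CMono`, `S_Comp`, `S_CInj`: `Q177.SF.cmono`, `Q177.SF.comp`, `Q210.SF.cinj`. -/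
def S_Merge : Prop := ∀ κ η : ℝ, 0 < κ → 0 < η → η < 1 → ∃ p : ℝ, 0 < p ∧ ∃ m₀ : ℕ, ∀ m r : ℕ, m₀ ≤ m + r →
  κ * m ≤ r → ∀ k : ℕ,
  p * (1 - η) ^ k ≤ act (k + 1) (PP (k + 1) ^ m) (CG (fun z : Fin (k + 1) → ℤ => pat (fun _ => 0) z) r) 0

/-! ## the results -/

/-- level and value at the time `t` of the `k` trajectories of `x + h_i` -/
def V0 {k H : ℕ} (t : ℕ) (x : ℤ) (h : Fin k → Fin H) : Fin k → ℤ × ℤ :=
  fun i => ((oc t (x + ((h i : ℕ) : ℤ)) : ℤ), Pool.Agent.Q158.Pair.T^[t] (x + ((h i : ℕ) : ℤ)))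

/-- the average over `x ∈ [a, a + L)` and `h ∈ [0, H)^k` -/
noncomputable def Ab (k H L t : ℕ) (a : ℤ) (Φ : (Fin k → ℤ × ℤ) → ℝ) : ℝ :=
  (∑ x ∈ Ico a (a + L), ∑ h : Fin k → Fin H, Φ (V0 t x h)) / (L * (H : ℝ) ^ k)

open Classical in
/-- JOB FreeA: in EVERY interval of `H` integers `k` random trajectories are independent and do not meet up to the
time `(1 - κ) cI log H`: `theorem freeA (hT : S_TV) (hP : S_ProdK) (hM : S_Mass) (hL : S_Ln) (hB : S_Binom) : S_FreeA`.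
For `t ≥ log H`: `S_TV` and `S_ProdK` (`α = ℕ × ℤ`, `a = 1 / H`), and in the model two of the `z_i` are equal with
probability at most `k^2` times the largest mass `3^μ / ln`, which is small (`S_Ln`, applied with `ε`; the mass is
`≤ choose / 2^m * 3^μ / ln`). For `t < log H`: the values are distinct since they are so at the time `⌈log H⌉`
(`T^t x = T^t y` implies `T^t' x = T^t' y` for `t' ≥ t`), and the law of the levels is `Q158.Col4.law` with `q = 1`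
and `S_ProdK` with `α = ℕ`. -/
def S_FreeA : Prop := ∀ (k : ℕ) (κ ε : ℝ), 0 < κ → 0 < ε → ∃ H₀ : ℕ, ∀ H : ℕ, H₀ ≤ H →
  ∀ t : ℕ, (t : ℝ) ≤ (1 - κ) * (cI * Real.log H) → ∀ (a : ℤ) (F : (Fin k → ℤ) → ℝ), (∀ z, |F z| ≤ 1) →
  |(∑ h : Fin k → Fin H, if Function.Injective (fun i => (V0 t a h i).2) then F (fun i => (V0 t a h i).1) else 0) /
      (H : ℝ) ^ k - act k (PP k ^ t) F 0| ≤ ε

/-- JOB LowK: small `H` (like `Q74.SF.low` in `Pool/Agent/Q74/SF/Edge.lean`, for `k` points `x + h_i` without the base point,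
in an interval): `theorem lowK (hF : S_Fix) (hC : S_Cont) (hV : S_Conv) : S_LowK` -/
def S_LowK : Prop := ∀ (k : ℕ) (Λ ε : ℝ), 0 ≤ Λ → 0 < ε → ∃ κ₁ : ℝ, 0 < κ₁ ∧ ∃ t₀ Q : ℕ, ∀ t : ℕ, t₀ ≤ t →
  ∀ H : ℕ, 1 ≤ H → cI * Real.log H ≤ κ₁ * t → ∀ (a : ℤ) (L : ℕ), 1 ≤ L → Q * 2 ^ t ≤ L →
  ∀ (π : Fin k → Fin k) (G : (Fin k → ℤ) → ℝ), (∀ z, |G z| ≤ 1) →
  (∀ z w : Fin k → ℤ, |G z - G w| ≤ Λ / √t * ∑ i, |(z i : ℝ) - w i|) →
  |Ab k H L t a (Ph π G) -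
    act k (PP k ^ ⌊cI * Real.log H⌋₊) (CG (Fm π G) (t - ⌊cI * Real.log H⌋₊)) 0| ≤ ε

/-- the free time a little too short, large `H` (assembly by helper74) -/
def S_Core : Prop := ∀ (k : ℕ) (Λ κ ε : ℝ), 0 ≤ Λ → 0 < κ → 0 < ε → ∃ δ : ℝ, 0 < δ ∧ ∀ η : ℝ, 0 < η →
  ∃ H₀ : ℕ, ∀ H : ℕ, H₀ ≤ H → ∀ m r L : ℕ, 1 ≤ L → κ * m ≤ r → cI * Real.log H ≤ (1 + δ) * m →
  (m : ℝ) ≤ (cI - η) * Real.log H → (1 + κ) * ((m : ℝ) + r) ≤ cI * Real.log H + Real.logb 2 (L / H) →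
  ∀ (a : ℤ) (π : Fin k → Fin k) (G : (Fin k → ℤ) → ℝ), (∀ z, |G z| ≤ 1) →
  (∀ z w : Fin k → ℤ, |G z - G w| ≤ Λ / √r * ∑ i, |(z i : ℝ) - w i|) →
  |Ab k H L (m + r) a (Ph π G) - act k (PP k ^ m) (CG (Fm π G) r) 0| ≤ ε

/-- THE THEOREM (assembly by helper74) -/
def S_Main : Prop := ∀ (k : ℕ) (Λ κ ε : ℝ), 0 ≤ Λ → 0 < κ → 0 < ε → ∃ t₀ : ℕ, ∀ t : ℕ, t₀ ≤ t →
  ∀ H L : ℕ, 1 ≤ H → 1 ≤ L → (1 + κ) * (cI * Real.log H) ≤ t →
  (1 + κ) * t ≤ cI * Real.log H + Real.logb 2 (L / H) →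
  ∀ (a : ℤ) (π : Fin k → Fin k) (G : (Fin k → ℤ) → ℝ), (∀ z, |G z| ≤ 1) →
  (∀ z w : Fin k → ℤ, |G z - G w| ≤ Λ / √t * ∑ i, |(z i : ℝ) - w i|) →
  |Ab k H L t a (Ph π G) -
    act k (PP k ^ ⌊cI * Real.log H⌋₊) (CG (Fm π G) (t - ⌊cI * Real.log H⌋₊)) 0| ≤ ε

open Classical in
/-- JOB Cor: a positive proportion of the intervals of length `H ≤ N^c`, `c < 1`, lies up to `η H` integers in one
class: `theorem cor (hM : S_Main) (hG : S_Merge) : S_Cor`. Take `κ` small against `1 - c`,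
`t = ⌊(cI log H + log_2 (N/H)) / (1 + κ)⌋`, `m = ⌊cI log H⌋`, `k` points; `S_Main` with `π` constant, `G = 1`, `L = N`
and `S_Merge` (with `η / 2`) give: all the `T^t (x + h_i)` are equal with probability at least
`p (1 - η/2)^k - ε`. If `M x` is the largest share of a value of `F` in `[x, x + H)`, the probability that all the
`F (x + h_i)` are equal is the mean of `∑_v share_v^k ≤ M^(k-1) ≤ (1-η)^(k-1) + 1_{M ≥ 1-η}`; for `k` large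
`p (1 - η/2)^k > (1 - η)^(k-1)`. -/
def S_Cor : Prop := ∀ c η : ℝ, 0 ≤ c → c < 1 → 0 < η → η < 1 → ∃ p : ℝ, 0 < p ∧ ∃ N₀ : ℕ, ∀ N : ℕ, N₀ ≤ N →
  ∀ H : ℕ, 1 ≤ H → (H : ℝ) ≤ (N : ℝ) ^ c → ∀ (a : ℤ) (F : ℤ → ℕ), (∀ x, F (Pool.Agent.Q158.Pair.T x) = F x) →
  p * N ≤ (((Ico a (a + N)).filter (fun x => ∃ v : ℕ,
    (1 - η) * H ≤ (((range H).filter (fun h : ℕ => F (x + h) = v)).card : ℝ))).card : ℝ)

end Pool.Agent.Q74.BH
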