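import Pool.Agent.Q74.BH.Full

/-! # Project BH: further jobs

`S_Full` (file `Full.lean`) is the theorem for all `H`. Here: corollaries on the number of classes in short intervals of
length `N^c`, `c < 1`. -/

set_option autoImplicit false

namespace Pool.Agent.Q74.BH

open Finset
open Pool.Agent.Q74.KP
open Pool.Agent.Q74.SF
open Pool.Agent.Q158.Pair (T)
open Pool.Agent.Q158.Col4 (cI)

/-- JOB Num (model): `k` walkers from `0`, free for `m` steps, coalescing for `r ≥ κ m` steps, are at `O(√k)` places.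
Proof: for walkers at `z_1 ≤ ... ≤ z_k` the mean number of places after `r` coalescing steps is at most
`1 + ∑_i P(z_i, z_(i+1) not together) ≤ 1 + C (z_k - z_1) / √r` (`S_Comp` for the pairs, monotone order `S_CMono`; two
walkers at distance `d` are not together after `r` steps with probability `≤ C d / √r`, see `NG` for `k = 2` and
`S_CInj`, `Expl.lean` (`pf`, `Erf`), `Free.lean` in `Pool/Agent/Q74/KP`; `CG` is invariant under permutations of the
coordinates by `S_Comp`), and `E (max - min) ≤ 2 E max |z_i - m/2| ≤ 2 √(∑ E |z_i - m/2|^2) = √(k m)`.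
Proofs of the cited: `Q177.SF.comp`, `Q177.SF.cmono`, `Q210.SF.cinj`. -/
def S_Num : Prop := ∀ κ : ℝ, 0 < κ → ∃ C : ℝ, 0 < C ∧ ∀ m r : ℕ, κ * m ≤ r → 1 ≤ r → ∀ k : ℕ,
  act k (PP k ^ m) (CG (fun z => ((univ.image z).card : ℝ)) r) 0 ≤ 1 + C * √k

open Classical in
/-- JOB CorT: `theorem corT (hM : S_Main) (hG : S_Merge) : S_CorT`: the same as `S_Cor` (proved in
`Pool/Agent/Q190/BH/Cor.lean`) with `T^t` in place of `F`: a positive proportion of the intervals of length `H ≤ N^c`
have all but `η H` of their trajectories at ONE value at a time `t` which does not depend on the interval. -/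
def S_CorT : Prop := ∀ c η : ℝ, 0 ≤ c → c < 1 → 0 < η → η < 1 → ∃ p : ℝ, 0 < p ∧ ∃ N₀ : ℕ, ∀ N : ℕ, N₀ ≤ N →
  ∀ H : ℕ, 1 ≤ H → (H : ℝ) ≤ (N : ℝ) ^ c → ∃ t : ℕ, ∀ a : ℤ,
  p * N ≤ (((Ico a (a + N)).filter (fun x => ∃ v : ℤ,
    (1 - η) * H ≤ (((range H).filter (fun h : ℕ => T^[t] (x + h) = v)).card : ℝ))).card : ℝ)

open Classical in
/-- JOB CorK: `theorem corK (hM : S_Main) (hN : S_Num) : S_CorK`: almost all intervals of length `H ≤ N^c` have all but
`η H` of their trajectories at `K` values at a time `t`. Proof: `t` as in `S_Cor`. The number of different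
values of `k` points is a function of the pattern: `#values V = ∑_π pat π V #(image π)` over the canonical patterns
(`π i` = least `j` with `V j = V i`), so `S_Main` (`G = 1`, all canonical `π`) and `S_Num` give: its mean is at most
`2 + C √k`. Let `x` be bad: no `K` values cover `(1 - η) H` of the `T^t (x + h)`. Let `V` be the `K` most frequent
values: the others have total share `≥ η` and each at most `1 / K`, so the mean over `h` of the number of different values
of the `T^t (x + h_i)` is at least `k η - k^2 / K ≥ k η / 2` (`K ≥ 2 k / η`; points outside of `V` minus equal pairs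
outside of `V`). So the proportion of bad `x` is at most `(2 + C √k) / (k η / 2) ≤ ε` for `k` large. -/
def S_CorK : Prop := ∀ c ε η : ℝ, 0 ≤ c → c < 1 → 0 < ε → 0 < η → η < 1 → ∃ K N₀ : ℕ, ∀ N : ℕ, N₀ ≤ N →
  ∀ H : ℕ, 1 ≤ H → (H : ℝ) ≤ (N : ℝ) ^ c → ∃ t : ℕ, ∀ a : ℤ,
  (1 - ε) * N ≤ (((Ico a (a + N)).filter (fun x => ∃ V : Finset ℤ, V.card ≤ K ∧
    (1 - η) * H ≤ (((range H).filter (fun h : ℕ => T^[t] (x + h) ∈ V)).card : ℝ))).card : ℝ)

end Pool.Agent.Q74.BH
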