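import Pool.Agent.Q74.BH.FlowF

/-! # Project BH: two random points of short intervals of length `L ^ θ`, all `θ < 1` -/

set_option autoImplicit false

namespace Pool.Agent.Q74.BH

open Finset
open Pool.Agent.Q74.KP
open Pool.Agent.Q74.SF
open Pool.Agent.Q74.AR (oc)
open Pool.Agent.Q158.Pair (T)
open Pool.Agent.Q158.Col4 (cI)

/-- the two-walker formula -/
def S_Two : Prop := ∀ ε : ℝ, 0 < ε → ∃ t₀ : ℕ, ∀ t : ℕ, t₀ ≤ t → ∀ H : ℕ, 1 ≤ H →
      |FR (CG (fun z : Fin 2 → ℤ => if z 0 = z 1 then (1 : ℝ) else 0) (t - fr t H)) (fr t H) 0 -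
        2 / Real.pi * Real.arccos (√(2 * Real.log H / (t * Real.log (4 / 3))))| ≤ ε

theorem same_two {H : ℕ} (x : ℤ) (F : ℤ → ℕ) :
    ({p : ℕ × ℕ | p.1 < H ∧ p.2 < H ∧ F (x + p.1) ≠ F (x + p.2)}.ncard : ℝ) =
      (H : ℝ) ^ 2 - ({h : Fin 2 → Fin H |
            ∀ i j, F (x + ((h i : ℕ) : ℤ)) = F (x + ((h j : ℕ) : ℤ))}.ncard : ℝ) := by
  classical
  have h1 : ({h : Fin 2 → Fin H | ∀ i j, F (x + ((h i : ℕ) : ℤ)) = F (x + ((h j : ℕ) : ℤ))}.ncard : ℝ) =
      (((range H ×ˢ range H).filter (fun p : ℕ × ℕ => F (x + p.1) = F (x + p.2))).card : ℝ) := by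
    rw [ncard_fin, card_filter, sum_product, ← (finTwoArrowEquiv (Fin H)).symm.sum_comp, Fintype.sum_prod_type]
    push_cast
    rw [← Fin.sum_univ_eq_sum_range (fun u => ∑ v ∈ range H, if F (x + u) = F (x + v) then (1 : ℝ) else 0) H]
    apply sum_congr rfl
    intro u _
    rw [← Fin.sum_univ_eq_sum_range (fun v => if F (x + ((u : ℕ) : ℤ)) = F (x + v) then (1 : ℝ) else 0) H]
    apply sum_congr rfl
    intro v _
    have e : (∀ i j, F (x + (((finTwoArrowEquiv (Fin H)).symm (u, v) i : ℕ) : ℤ)) =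
        F (x + (((finTwoArrowEquiv (Fin H)).symm (u, v) j : ℕ) : ℤ))) ↔ F (x + ((u : ℕ) : ℤ)) = F (x + ((v : ℕ) : ℤ)) := by
      rw [Fin.forall_fin_two]
      simp only [Fin.forall_fin_two]
      simp [finTwoArrowEquiv]
      exact fun h => h.symm
    simp only [e]
  have h2 : {p : ℕ × ℕ | p.1 < H ∧ p.2 < H ∧ F (x + p.1) ≠ F (x + p.2)} =
      (((range H ×ˢ range H).filter (fun p : ℕ × ℕ => ¬ F (x + p.1) = F (x + p.2)) : Finset (ℕ × ℕ)) : Set (ℕ × ℕ)) := by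
    ext p
    simp [and_assoc]
  rw [h1, h2, Set.ncard_coe_finset]
  have h3 := card_filter_add_card_filter_not (s := range H ×ˢ range H) (fun p : ℕ × ℕ => F (x + p.1) = F (x + p.2))
  rw [card_product, card_range] at h3
  have h4 : (((range H ×ˢ range H).filter (fun p : ℕ × ℕ => F (x + p.1) = F (x + p.2))).card : ℝ) +
      (((range H ×ˢ range H).filter (fun p : ℕ × ℕ => ¬ F (x + p.1) = F (x + p.2))).card : ℝ) = H * H := by
    exact_mod_cast h3
  rw [sq]
  linarith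

/-- TWO POINTS, all `θ < 1` -/
theorem two_inv (hFu : S_Full) (hLe : S_Lev) (hTw : S_Two) : ∀ θ ε : ℝ, 0 ≤ θ → θ < 1 → 0 < ε → ∃ L₀ : ℕ,
    ∀ L : ℕ, L₀ ≤ L → ∀ H : ℕ, 1 ≤ H → (H : ℝ) ≤ (L : ℝ) ^ θ → ∀ (a : ℤ) (F : ℤ → ℕ), (∀ x, F (T x) = F x) →
    (∑ x ∈ Ico a (a + L), ({p : ℕ × ℕ | p.1 < H ∧ p.2 < H ∧ F (x + p.1) ≠ F (x + p.2)}.ncard : ℝ)) /
        (L * (H : ℝ) ^ 2) ≤
      2 / Real.pi * Real.arcsin (√(2 * θ * Real.log 2 / (2 * θ * Real.log 2 + (1 - θ) * Real.log (4 / 3)))) + ε := by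
  intro θ ε hθ0 hθ1 hε
  have hl2 : 0 < Real.log 2 := Real.log_pos (by norm_num)
  have hl43 : 0 < Real.log (4 / 3) := Real.log_pos (by norm_num)
  have hcI : cI = 2 / Real.log (4 / 3) := rfl
  have hcI0 : 0 < cI := by rw [hcI]; positivity
  set D : ℝ := 2 * θ * Real.log 2 + (1 - θ) * Real.log (4 / 3) with hD
  have hD0 : 0 < D := by
    have : 0 < (1 - θ) * Real.log (4 / 3) := mul_pos (by linarith) hl43
    have h2 : 0 ≤ 2 * θ * Real.log 2 := by positivity
    linarith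
  set ρ : ℝ := 2 * θ * Real.log 2 / D with hρ
  have hρ0 : 0 ≤ ρ := by rw [hρ]; positivity
  have hρ1 : ρ ≤ 1 := by
    rw [hρ, div_le_one hD0, hD]
    have : 0 ≤ (1 - θ) * Real.log (4 / 3) := mul_nonneg (by linarith) hl43.le
    linarith
  -- the choice of `κ`
  obtain ⟨δ, hδ, h0⟩ := Metric.continuousAt_iff.1 (show ContinuousAt
    (fun κ : ℝ => 2 / Real.pi * Real.arcsin (√(ρ + 2 * κ))) 0 from by
      have := Real.continuous_arcsin
      fun_prop) (ε / 3) (by positivity)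
  set κ : ℝ := δ / 2 with hκd
  have hκ : 0 < κ := by positivity
  have hκ1 : 2 / Real.pi * Real.arcsin (√(ρ + 2 * κ)) ≤ 2 / Real.pi * Real.arcsin (√ρ) + ε / 3 := by
    have h1 := h0 (x := κ) (by
      rw [Real.dist_eq, sub_zero, abs_of_pos hκ]
      linarith)
    rw [Real.dist_eq] at h1
    have h2 := (abs_lt.1 h1).2
    simp only [mul_zero, add_zero] at h2
    linarith
  obtain ⟨t₁, h1⟩ := flow_inv hFu hLe 2 hκ (ε := ε / 3) (by positivity)
  obtain ⟨t₂, h2⟩ := hTw (ε / 3) (by positivity)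
  -- the choice of `L₀`
  set X₀ : ℝ := (1 + κ) * ((t₁ : ℝ) + t₂ + 2) + (1 + κ) * (1 + 2 * κ) / κ with hX₀
  have hX₀0 : 0 < X₀ := by positivity
  refine ⟨⌈Real.exp (X₀ * Real.log 2 / (1 - θ))⌉₊ + 2, fun L hL H hH hHL a F hF => ?_⟩
  have hLr : Real.exp (X₀ * Real.log 2 / (1 - θ)) ≤ L :=
    (Nat.le_ceil _).trans (by exact_mod_cast (by omega : ⌈Real.exp (X₀ * Real.log 2 / (1 - θ))⌉₊ ≤ L))
  have hL0 : (0 : ℝ) < L := (Real.exp_pos _).trans_le hLr
  have hH0 : (0 : ℝ) < H := by exact_mod_cast hH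
  set u := Real.log H with hu
  set w := Real.log L with hw
  have hu0 : 0 ≤ u := Real.log_nonneg (by exact_mod_cast hH)
  have hwX : X₀ * Real.log 2 / (1 - θ) ≤ w := by
    rw [← Real.log_exp (X₀ * Real.log 2 / (1 - θ))]
    exact Real.log_le_log (Real.exp_pos _) hLr
  have hθ' : 0 < 1 - θ := by linarith
  have hwX' : X₀ * Real.log 2 ≤ (1 - θ) * w := by
    rw [div_le_iff₀ hθ'] at hwX
    linarith
  have huw : u ≤ θ * w := by
    rw [hu, hw, ← Real.log_rpow hL0]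
    exact Real.log_le_log hH0 hHL
  have hHL' : H ≤ L := by
    have h3 : u ≤ w := by
      have : 0 ≤ w := by
        have h4 : 0 ≤ X₀ * Real.log 2 := by positivity
        by_contra h5
        push Not at h5
        have : (1 - θ) * w < 0 := mul_neg_of_pos_of_neg hθ' h5
        linarith
      nlinarith
    have h4 := (Real.log_le_log_iff hH0 hL0).1 h3
    exact_mod_cast h4
  set X : ℝ := cI * u + (w - u) / Real.log 2 with hX
  have hXlog : X = cI * Real.log H + Real.logb 2 (L / H) := by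
    rw [hX, Real.logb, Real.log_div hL0.ne' hH0.ne']
  have hXX : X₀ ≤ X := by
    have h3 : X₀ ≤ (w - u) / Real.log 2 := by
      rw [le_div_iff₀ hl2]
      linarith
    have h4 : 0 ≤ cI * u := by positivity
    linarith
  have hX0 : 0 < X := hX₀0.trans_le hXX
  have hcu : cI * u ≤ ρ * X := by
    have e : ρ * X - cI * u = 2 * (θ * w - u) / D := by
      rw [hρ, hX, hcI]
      have hD' : D ≠ 0 := hD0.ne'
      field_simp
      rw [hD]
      ring
    have h3 : 0 ≤ 2 * (θ * w - u) / D := div_nonneg (by linarith) hD0.le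
    linarith
  set t : ℕ := ⌊X / (1 + κ)⌋₊ with ht
  have ht1 : (1 + κ) * t ≤ X := by
    have h3 := Nat.floor_le (show 0 ≤ X / (1 + κ) by positivity)
    rw [le_div_iff₀ (by positivity)] at h3
    rw [mul_comm]
    exact h3
  have ht2 : X / (1 + κ) - 1 ≤ t := by
    have := Nat.lt_floor_add_one (X / (1 + κ))
    linarith
  have ht3 : X / (1 + 2 * κ) ≤ t := by
    refine le_trans ?_ ht2
    have h3 : (1 + κ) * (1 + 2 * κ) / κ ≤ X := by
      refine le_trans ?_ hXX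
      rw [hX₀]
      have : 0 ≤ (1 + κ) * ((t₁ : ℝ) + t₂ + 2) := by positivity
      linarith
    rw [div_le_iff₀ hκ] at h3
    have e : X / (1 + κ) - 1 - X / (1 + 2 * κ) = (X * κ - (1 + κ) * (1 + 2 * κ)) / ((1 + κ) * (1 + 2 * κ)) := by
      field_simp
      ring
    have h4 : 0 ≤ (X * κ - (1 + κ) * (1 + 2 * κ)) / ((1 + κ) * (1 + 2 * κ)) := div_nonneg (by linarith) (by positivity)
    linarith
  have ht4 : (t₁ : ℝ) + t₂ + 1 ≤ t := by
    refine le_trans ?_ ht2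
    have h3 : (1 + κ) * ((t₁ : ℝ) + t₂ + 2) ≤ X := by
      refine le_trans ?_ hXX
      rw [hX₀]
      have : 0 ≤ (1 + κ) * (1 + 2 * κ) / κ := by positivity
      linarith
    have h4 : (t₁ : ℝ) + t₂ + 2 ≤ X / (1 + κ) := by
      rw [le_div_iff₀ (by positivity)]
      linarith
    linarith
  have ht5 : t₁ + t₂ + 1 ≤ t := by exact_mod_cast ht4
  have ht0 : (0 : ℝ) < t := by
    have : 0 < t := by omega
    exact_mod_cast this
  have h3 := (h1 t (by omega) H L hH hHL' (by rw [← hXlog]; exact ht1) a F hF).2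
  have h4 := (abs_le.1 (h2 t (by omega) H hH)).1
  have e1 : (fun z : Fin 2 → ℤ => if ∀ i j, z i = z j then (1 : ℝ) else 0) = fun z => if z 0 = z 1 then 1 else 0 := by
    funext z
    by_cases hz : z 0 = z 1
    · rw [if_pos hz, if_pos]
      rw [Fin.forall_fin_two]
      simp only [Fin.forall_fin_two]
      exact ⟨⟨trivial, hz⟩, ⟨hz.symm, trivial⟩⟩
    · rw [if_neg hz, if_neg]
      intro h
      exact hz (h 0 1)
  rw [e1] at h3
  have h5 : 2 * Real.log H / (t * Real.log (4 / 3)) ≤ ρ + 2 * κ := by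
    have e2 : 2 * Real.log H / (t * Real.log (4 / 3)) = cI * u / t := by
      rw [hcI, hu]
      field_simp
    rw [e2, div_le_iff₀ ht0]
    have h6 : X ≤ (1 + 2 * κ) * t := by
      rw [div_le_iff₀ (by positivity)] at ht3
      linarith
    have h7 : (ρ + 2 * κ) * t ≥ ρ * ((1 + 2 * κ) * t) := by
      have h8 : 2 * κ * (1 - ρ) * t ≥ 0 := by
        have : 0 ≤ 1 - ρ := by linarith
        positivity
      nlinarith
    have h8 : ρ * X ≤ ρ * ((1 + 2 * κ) * t) := mul_le_mul_of_nonneg_left h6 hρ0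
    linarith
  have h6 : Real.arccos (√(ρ + 2 * κ)) ≤ Real.arccos (√(2 * Real.log H / (t * Real.log (4 / 3)))) :=
    Real.arccos_le_arccos (Real.sqrt_le_sqrt h5)
  have h7 : 1 - 2 / Real.pi * Real.arccos (√(2 * Real.log H / (t * Real.log (4 / 3)))) ≤
      2 / Real.pi * Real.arcsin (√(ρ + 2 * κ)) := by
    have h8 : Real.arccos (√(ρ + 2 * κ)) = Real.pi / 2 - Real.arcsin (√(ρ + 2 * κ)) := rfl
    have h9 : 2 / Real.pi * Real.arccos (√(ρ + 2 * κ)) ≤
        2 / Real.pi * Real.arccos (√(2 * Real.log H / (t * Real.log (4 / 3)))) :=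
      mul_le_mul_of_nonneg_left h6 (by positivity)
    rw [h8] at h9
    have h10 : 2 / Real.pi * (Real.pi / 2 - Real.arcsin (√(ρ + 2 * κ))) =
        1 - 2 / Real.pi * Real.arcsin (√(ρ + 2 * κ)) := by
      field_simp
    linarith
  have h8 : (∑ x ∈ Ico a (a + (L : ℤ)), ({p : ℕ × ℕ | p.1 < H ∧ p.2 < H ∧ F (x + p.1) ≠ F (x + p.2)}.ncard : ℝ)) /
        (L * (H : ℝ) ^ 2) = 1 - (∑ x ∈ Ico a (a + (L : ℤ)), ({h : Fin 2 → Fin H |
            ∀ i j, F (x + ((h i : ℕ) : ℤ)) = F (x + ((h j : ℕ) : ℤ))}.ncard : ℝ)) / (L * (H : ℝ) ^ 2) := by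
    simp only [same_two]
    rw [sum_sub_distrib, sum_const, Int.card_Ico, sub_div]
    congr 1
    have : (a + (L : ℤ) - a).toNat = L := by simp
    rw [this, nsmul_eq_mul, div_self (by positivity)]
  rw [h8]
  linarith

end Pool.Agent.Q74.BH
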